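import Pool.Agent.Lib.MP_305fdd_al.Fr.N.Defs

/-!
# MP_305fdd_al, F_r project, section SP: splittings (graphs of subgroups) and their universal property

Design note: /team-store/MP_305fdd_SP_h70.md (helper70).

`GG Γ` : a finite graph of subgroups of `Γ`: vertices `v` with subgroups `G v ≤ Γ`, edges `e` from `a e`
to `b e` with an element `s e ∈ Γ` and an edge group `C e ≤ G (a e)`, `(s e)⁻¹ C e (s e) ≤ G (b e)`.
Vertex groups and edge groups are subgroups of `Γ` (no abstract amalgams, no normal forms); the only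
thing which is used is the universal property for the groups `SL(2, R)`, `R` a commutative ring of
characteristic `2` (`UP`).
-/

set_option autoImplicit false

namespace Pool.Agent.FrS

open Pool.Agent.FrN Matrix

/-- A finite graph of subgroups of `Γ`. -/
structure GG (Γ : Type) [Group Γ] : Type 1 where
  /-- vertices -/
  V : Type
  /-- edges -/
  E : Type
  [fV : Fintype V]
  [dV : DecidableEq V]
  [nV : Nonempty V]
  [fE : Fintype E]
  [dE : DecidableEq E]
  /-- vertex groups -/
  G : V → Subgroup Γ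
  /-- first end of an edge -/
  a : E → V
  /-- second end of an edge -/
  b : E → V
  /-- the element of an edge -/
  s : E → Γ
  /-- edge groups (in the coordinates of the first end) -/
  C : E → Subgroup Γ
  Ca : ∀ e, C e ≤ G (a e)
  Cb : ∀ e, ∀ c ∈ C e, (s e)⁻¹ * c * s e ∈ G (b e)

attribute [instance] GG.fV GG.dV GG.nV GG.fE GG.dE

namespace GG

variable {Γ : Type} [Group Γ]

/-- `S.Pth u v g`: `g` is the product along a path from `u` to `v`. -/
inductive Pth (S : GG Γ) : S.V → S.V → Γ → Prop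
  | one (v : S.V) : Pth S v v 1
  | grp {u v : S.V} {g x : Γ} : Pth S u v g → x ∈ S.G v → Pth S u v (g * x)
  | fwd {u : S.V} {g : Γ} (e : S.E) : Pth S u (S.a e) g → Pth S u (S.b e) (g * S.s e)
  | bwd {u : S.V} {g : Γ} (e : S.E) : Pth S u (S.b e) g → Pth S u (S.a e) (g * (S.s e)⁻¹)

/-- A family of representations of the vertex groups (only the values of `r v` on `S.G v` matter)
which is compatible on the edge groups up to the gluing elements `t e`. -/
structure Fam (S : GG Γ) (Q : Type) [Group Q] where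
  /-- the representation of the vertex group at `v` -/
  r : S.V → Γ → Q
  /-- the gluing elements -/
  t : S.E → Q
  mul : ∀ v, ∀ x ∈ S.G v, ∀ y ∈ S.G v, r v (x * y) = r v x * r v y
  cm : ∀ e, ∀ c ∈ S.C e, r (S.a e) c = t e * r (S.b e) ((S.s e)⁻¹ * c * S.s e) * (t e)⁻¹

/-- The family `F` comes from the representation `r` of `Γ` and the gauge `g`. -/
structure Fam.IsOf {S : GG Γ} {Q : Type} [Group Q] (F : Fam S Q) (r : Γ →* Q) (g : S.V → Q) :
    Prop where
  vtx : ∀ v, ∀ x ∈ S.G v, F.r v x = (g v)⁻¹ * r x * g v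
  edg : ∀ e, F.t e = (g (S.a e))⁻¹ * r (S.s e) * g (S.b e)

/-- The family of a representation of `Γ` and a gauge. -/
def fam (S : GG Γ) {Q : Type} [Group Q] (r : Γ →* Q) (g : S.V → Q) : Fam S Q where
  r v x := (g v)⁻¹ * r x * g v
  t e := (g (S.a e))⁻¹ * r (S.s e) * g (S.b e)
  mul v x _ y _ := by rw [map_mul]; group
  cm e c _ := by simp only [map_mul, map_inv]; group

/-- THE UNIVERSAL PROPERTY. -/
structure UP (S : GG Γ) : Prop where
  /-- every element of `Γ` is the product along a path, whatever the ends are -/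
  gen : ∀ (u v : S.V) (g : Γ), S.Pth u v g
  /-- every family with values in `SL(2, R)` comes from a representation of `Γ` -/
  ext : ∀ (R : Type) [CommRing R] [Algebra (ZMod 2) R] (F : Fam S (SpecialLinearGroup (Fin 2) R)),
    ∃ (r : Γ →* SpecialLinearGroup (Fin 2) R) (g : S.V → SpecialLinearGroup (Fin 2) R), F.IsOf r g

/-- `v` is a non-abelian vertex -/
def NA (S : GG Γ) (v : S.V) : Prop := ¬ ∀ x ∈ S.G v, ∀ y ∈ S.G v, x * y = y * x

/-- `e` is the only edge at the vertex `x` -/
def Leaf (S : GG Γ) (x : S.V) (e : S.E) : Prop := ∀ e', (S.a e' = x ∨ S.b e' = x) → e' = e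

/-- Admissible splittings: universal property, finitely generated vertex and edge groups, non-trivial
abelian edge groups, no trivial leaf. -/
structure Adm (S : GG Γ) : Prop extends UP S where
  fgV : ∀ v, (S.G v).FG
  fgE : ∀ e, (S.C e).FG
  ne : ∀ e, S.C e ≠ ⊥
  ab : ∀ e, ∀ x ∈ S.C e, ∀ y ∈ S.C e, x * y = y * x
  ntb : ∀ e, S.a e ≠ S.b e → S.Leaf (S.b e) e → ∃ g ∈ S.G (S.b e), S.s e * g * (S.s e)⁻¹ ∉ S.C e
  nta : ∀ e, S.a e ≠ S.b e → S.Leaf (S.a e) e → ∃ g ∈ S.G (S.a e), g ∉ S.C e

/-- The splitting with one vertex and no edge. -/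
def one (Γ : Type) [Group Γ] : GG Γ where
  V := Unit
  E := Empty
  G _ := ⊤
  a e := e.elim
  b e := e.elim
  s e := e.elim
  C e := e.elim
  Ca e := e.elim
  Cb e := e.elim

theorem one_up (Γ : Type) [Group Γ] : (one Γ).UP where
  gen u v g := by
    have h : (one Γ).Pth v v (1 * g) := Pth.grp (Pth.one v) (Subgroup.mem_top g)
    rw [one_mul] at h
    exact h
  ext R _ _ F := by
    refine ⟨⟨⟨F.r (), ?_⟩, ?_⟩, fun _ => 1, ?_, fun e => e.elim⟩
    · have h := F.mul () 1 (Subgroup.mem_top _) 1 (Subgroup.mem_top _)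
      rw [one_mul] at h
      exact left_eq_mul.1 h
    · exact fun x y => F.mul () x (Subgroup.mem_top _) y (Subgroup.mem_top _)
    · intro v x _
      cases v
      simp

theorem one_adm (Γ : Type) [Group Γ] (h : Group.FG Γ) : (one Γ).Adm where
  toUP := one_up Γ
  fgV _ := h.out
  fgE e := e.elim
  ne e := e.elim
  ab e := e.elim
  ntb e := e.elim
  nta e := e.elim

end GG

/-! ## Ranks and the measure `D` -/

section rank

variable {Γ F : Type} [Group Γ] [Field F] [Algebra (ZMod 2) F]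

/-- the transcendence degree of the field generated by `X` (rank function of the algebraic matroid) -/
noncomputable def rk (X : Set F) : ℕ := ((AlgebraicIndependent.matroid (ZMod 2) F).eRk X).toNat

/-- the trace -/
def tr (ρ : Γ →* SpecialLinearGroup (Fin 2) F) (g : Γ) : F := (ρ g).1.trace

/-- the traces of a set of elements -/
def trs (ρ : Γ →* SpecialLinearGroup (Fin 2) F) (X : Set Γ) : Set F := tr ρ '' X

/-- the traces of the edge groups at the vertex `v` (the trace does not depend on the coordinates) -/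
def dv (ρ : Γ →* SpecialLinearGroup (Fin 2) F) (S : GG Γ) (v : S.V) : Set F :=
  trs ρ {c | ∃ e, (S.a e = v ∨ S.b e = v) ∧ c ∈ S.C e}

open Classical in
/-- the measure `D`: the sum of `trdeg (K_v / k_v)` over the non-abelian vertices -/
noncomputable def DD (ρ : Γ →* SpecialLinearGroup (Fin 2) F) (S : GG Γ) : ℕ :=
  ∑ v : S.V, if S.NA v then rk (trs ρ (S.G v : Set Γ)) - rk (dv ρ S v) else 0

/-- the ring of the traces of all vertex groups (`B^f` before localisation) -/
def BS (ρ : Γ →* SpecialLinearGroup (Fin 2) F) (S : GG Γ) : Subalgebra (ZMod 2) F :=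
  Algebra.adjoin (ZMod 2) (trs ρ {x | ∃ v, x ∈ S.G v})

end rank

/-! ## Moves -/

/-- `r` is multiplicative on `H` -/
def MulOn {Γ Q : Type} [Group Γ] [Group Q] (H : Subgroup Γ) (r : Γ → Q) : Prop :=
  ∀ x ∈ H, ∀ y ∈ H, r (x * y) = r x * r y

/-- `P` is an amalgam of `A` and `A'` over `D`, as far as representations in `SL(2, R)` are
concerned (`R` a commutative ring of characteristic `2`). -/
structure IsAm {Γ : Type} [Group Γ] (P A A' D : Subgroup Γ) : Prop where
  sup : P = A ⊔ A'
  le : D ≤ A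
  le' : D ≤ A'
  ext : ∀ (R : Type) [CommRing R] [Algebra (ZMod 2) R] (r r' : Γ → SpecialLinearGroup (Fin 2) R),
    MulOn A r → MulOn A' r' → (∀ d ∈ D, r d = r' d) →
    ∃ q : Γ → SpecialLinearGroup (Fin 2) R, MulOn P q ∧ (∀ x ∈ A, q x = r x) ∧
      ∀ x ∈ A', q x = r' x

/-- `P` is an HNN extension of `A` with stable letter `s` and edge group `D ≤ A`, `s⁻¹ D s ≤ A`, as
far as representations in `SL(2, R)` are concerned. -/
structure IsHn {Γ : Type} [Group Γ] (P A D : Subgroup Γ) (s : Γ) : Prop where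
  sup : P = A ⊔ Subgroup.zpowers s
  le : D ≤ A
  le' : ∀ d ∈ D, s⁻¹ * d * s ∈ A
  ext : ∀ (R : Type) [CommRing R] [Algebra (ZMod 2) R] (r : Γ → SpecialLinearGroup (Fin 2) R)
    (t : SpecialLinearGroup (Fin 2) R), MulOn A r → (∀ d ∈ D, r d = t * r (s⁻¹ * d * s) * t⁻¹) →
    ∃ q : Γ → SpecialLinearGroup (Fin 2) R, MulOn P q ∧ (∀ x ∈ A, q x = r x) ∧ q s = t

namespace GG

variable {Γ : Type} [Group Γ]

/-- Elements of the vertex group `G v` which move the ends of the edges at `v`. -/
structure Mv (S : GG Γ) (v : S.V) where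
  /-- conjugating elements for the first ends -/
  ka : S.E → Γ
  /-- conjugating elements for the second ends -/
  kb : S.E → Γ
  ka_mem : ∀ e, ka e ∈ S.G v
  kb_mem : ∀ e, kb e ∈ S.G v
  ka_one : ∀ e, S.a e ≠ v → ka e = 1
  kb_one : ∀ e, S.b e ≠ v → kb e = 1

/-- Data for the refinement of the vertex `v` by `G v = A *_D A'`: the ends of the edges at `v` are
moved by the elements `ka e`, `kb e` of `G v` and attached to `A` (`pa e = false`) or to `A'`
(`pa e = true`). -/
structure RefA (S : GG Γ) (v : S.V) extends Mv S v where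
  /-- first group -/
  A : Subgroup Γ
  /-- second group -/
  A' : Subgroup Γ
  /-- edge group -/
  D : Subgroup Γ
  am : IsAm (S.G v) A A' D
  /-- side of the first end -/
  pa : S.E → Bool
  /-- side of the second end -/
  pb : S.E → Bool
  ca : ∀ e, S.a e = v → ∀ c ∈ S.C e, (ka e)⁻¹ * c * ka e ∈ (if pa e then A' else A)
  cb : ∀ e, S.b e = v → ∀ c ∈ S.C e,
    (kb e)⁻¹ * ((S.s e)⁻¹ * c * S.s e) * kb e ∈ (if pb e then A' else A)

/-- The refined splitting: `some v` carries `A`, `none` carries `A'`, the edge `none` joins them. -/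
def refA (S : GG Γ) (v : S.V) (d : S.RefA v) : GG Γ where
  V := Option S.V
  E := Option S.E
  G w := w.elim d.A' fun w => if w = v then d.A else S.G w
  a e := e.elim (some v) fun e => if S.a e = v ∧ d.pa e then none else some (S.a e)
  b e := e.elim none fun e => if S.b e = v ∧ d.pb e then none else some (S.b e)
  s e := e.elim 1 fun e => (d.ka e)⁻¹ * S.s e * d.kb e
  C e := e.elim d.D fun e => (S.C e).comap (MulAut.conj (d.ka e)).toMonoidHom
  Ca e := by
    cases e with
    | none => simpa using d.am.le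
    | some e =>
      intro c hc
      have hc' : d.ka e * c * (d.ka e)⁻¹ ∈ S.C e := hc
      have h1 := S.Ca e hc'
      by_cases hv : S.a e = v
      · have h2 := d.ca e hv _ hc'
        have h3 : (d.ka e)⁻¹ * (d.ka e * c * (d.ka e)⁻¹) * d.ka e = c := by group
        rw [h3] at h2
        by_cases hp : d.pa e = true
        · simpa [hv, hp] using h2
        · simpa [hv, hp] using h2
      · have h2 := d.ka_one e hv
        rw [h2] at h1
        simpa [hv] using h1
  Cb e := by
    cases e with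
    | none =>
      intro c hc
      simpa using d.am.le' hc
    | some e =>
      intro c hc
      have hc' : d.ka e * c * (d.ka e)⁻¹ ∈ S.C e := hc
      have h1 := S.Cb e _ hc'
      have h0 : ((d.ka e)⁻¹ * S.s e * d.kb e)⁻¹ * c * ((d.ka e)⁻¹ * S.s e * d.kb e) =
          (d.kb e)⁻¹ * ((S.s e)⁻¹ * (d.ka e * c * (d.ka e)⁻¹) * S.s e) * d.kb e := by group
      change ((d.ka e)⁻¹ * S.s e * d.kb e)⁻¹ * c * ((d.ka e)⁻¹ * S.s e * d.kb e) ∈ _
      rw [h0]
      by_cases hv : S.b e = v
      · have h2 := d.cb e hv _ hc'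
        by_cases hp : d.pb e = true
        · simpa [hv, hp] using h2
        · simpa [hv, hp] using h2
      · have h2 := d.kb_one e hv
        rw [h2]
        simpa [hv] using h1

/-- Data for the refinement of the vertex `v` by the HNN extension `G v = ⟨A, s | s⁻¹ D s ≤ A⟩`. -/
structure RefH (S : GG Γ) (v : S.V) extends Mv S v where
  /-- the group -/
  A : Subgroup Γ
  /-- edge group -/
  D : Subgroup Γ
  /-- stable letter -/
  s : Γ
  hn : IsHn (S.G v) A D s
  ca : ∀ e, S.a e = v → ∀ c ∈ S.C e, (ka e)⁻¹ * c * ka e ∈ A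
  cb : ∀ e, S.b e = v → ∀ c ∈ S.C e, (kb e)⁻¹ * ((S.s e)⁻¹ * c * S.s e) * kb e ∈ A

/-- The refined splitting: `v` carries `A`, the new edge `none` is a loop at `v`. -/
def refH (S : GG Γ) (v : S.V) (d : S.RefH v) : GG Γ where
  V := S.V
  E := Option S.E
  G w := if w = v then d.A else S.G w
  a e := e.elim v S.a
  b e := e.elim v S.b
  s e := e.elim d.s fun e => (d.ka e)⁻¹ * S.s e * d.kb e
  C e := e.elim d.D fun e => (S.C e).comap (MulAut.conj (d.ka e)).toMonoidHom
  Ca e := by
    cases e with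
    | none => simpa using d.hn.le
    | some e =>
      intro c hc
      have hc' : d.ka e * c * (d.ka e)⁻¹ ∈ S.C e := hc
      have h1 := S.Ca e hc'
      by_cases hv : S.a e = v
      · have h2 := d.ca e hv _ hc'
        have h3 : (d.ka e)⁻¹ * (d.ka e * c * (d.ka e)⁻¹) * d.ka e = c := by group
        rw [h3] at h2
        simpa [hv] using h2
      · have h2 := d.ka_one e hv
        rw [h2] at h1
        simpa [hv] using h1
  Cb e := by
    cases e with
    | none =>
      intro c hc
      simpa using d.hn.le' c hc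
    | some e =>
      intro c hc
      have hc' : d.ka e * c * (d.ka e)⁻¹ ∈ S.C e := hc
      have h1 := S.Cb e _ hc'
      have h0 : ((d.ka e)⁻¹ * S.s e * d.kb e)⁻¹ * c * ((d.ka e)⁻¹ * S.s e * d.kb e) =
          (d.kb e)⁻¹ * ((S.s e)⁻¹ * (d.ka e * c * (d.ka e)⁻¹) * S.s e) * d.kb e := by group
      change ((d.ka e)⁻¹ * S.s e * d.kb e)⁻¹ * c * ((d.ka e)⁻¹ * S.s e * d.kb e) ∈ _
      rw [h0]
      by_cases hv : S.b e = v
      · have h2 := d.cb e hv _ hc'
        simpa [hv] using h2
      · have h2 := d.kb_one e hv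
        rw [h2]
        simpa [hv] using h1

/-- Contraction of the edge `e₀` with different ends: the vertex `b e₀` disappears, the vertex `a e₀`
carries the group generated by `G (a e₀)` and `s G (b e₀) s⁻¹`. -/
def ctr (S : GG Γ) (e₀ : S.E) (h0 : S.a e₀ ≠ S.b e₀) : GG Γ where
  V := {w : S.V // w ≠ S.b e₀}
  nV := ⟨⟨S.a e₀, h0⟩⟩
  E := {e : S.E // e ≠ e₀}
  G w := if w.1 = S.a e₀ then
      S.G (S.a e₀) ⊔ (S.G (S.b e₀)).comap (MulAut.conj (S.s e₀)⁻¹).toMonoidHom
    else S.G w.1
  a e := if h : S.a e.1 = S.b e₀ then ⟨S.a e₀, h0⟩ else ⟨S.a e.1, h⟩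
  b e := if h : S.b e.1 = S.b e₀ then ⟨S.a e₀, h0⟩ else ⟨S.b e.1, h⟩
  s e := (if S.a e.1 = S.b e₀ then S.s e₀ else 1) * S.s e.1 *
    (if S.b e.1 = S.b e₀ then (S.s e₀)⁻¹ else 1)
  C e := if S.a e.1 = S.b e₀ then (S.C e.1).comap (MulAut.conj (S.s e₀)⁻¹).toMonoidHom
    else S.C e.1
  Ca e := by
    intro c hc
    by_cases hv : S.a e.1 = S.b e₀
    · simp only [hv, if_true, dif_pos] at hc ⊢
      apply (le_sup_right : _ ≤ S.G (S.a e₀) ⊔ _)
      have h1 := S.Ca e.1 (x := (S.s e₀)⁻¹ * c * (S.s e₀)⁻¹⁻¹) hc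
      rw [hv] at h1
      exact h1
    · simp only [hv, if_false, dif_neg, not_false_eq_true] at hc ⊢
      have h1 := S.Ca e.1 hc
      split_ifs with h2
      · rw [h2] at h1
        exact (le_sup_left : S.G (S.a e₀) ≤ _) h1
      · exact h1
  Cb e := by
    intro c hc
    have key : ∀ c₁ ∈ S.C e.1, ∀ z : Γ,
        z = (if S.b e.1 = S.b e₀ then (S.s e₀)⁻¹ else 1 : Γ)⁻¹ *
          ((S.s e.1)⁻¹ * c₁ * S.s e.1) * (if S.b e.1 = S.b e₀ then (S.s e₀)⁻¹ else 1) →
        z ∈
        (if (if h : S.b e.1 = S.b e₀ then (⟨S.a e₀, h0⟩ : {w : S.V // w ≠ S.b e₀})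
            else ⟨S.b e.1, h⟩).1 = S.a e₀ then
          S.G (S.a e₀) ⊔ (S.G (S.b e₀)).comap (MulAut.conj (S.s e₀)⁻¹).toMonoidHom
        else S.G (if h : S.b e.1 = S.b e₀ then (⟨S.a e₀, h0⟩ : {w : S.V // w ≠ S.b e₀})
            else ⟨S.b e.1, h⟩).1) := by
      intro c₁ hc₁ z hz
      have h1 := S.Cb e.1 c₁ hc₁
      subst hz
      generalize (S.s e.1)⁻¹ * c₁ * S.s e.1 = u at h1 ⊢
      by_cases hv : S.b e.1 = S.b e₀
      · simp only [hv, if_true, dif_pos]
        apply (le_sup_right : _ ≤ S.G (S.a e₀) ⊔ _)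
        rw [hv] at h1
        have h2 : (S.s e₀)⁻¹ * ((S.s e₀)⁻¹⁻¹ * u * (S.s e₀)⁻¹) * (S.s e₀)⁻¹⁻¹ = u := by group
        change (S.s e₀)⁻¹ * ((S.s e₀)⁻¹⁻¹ * u * (S.s e₀)⁻¹) * (S.s e₀)⁻¹⁻¹ ∈ S.G (S.b e₀)
        rw [h2]
        exact h1
      · simp only [hv, if_false, dif_neg, not_false_eq_true, inv_one, one_mul, mul_one]
        split_ifs with h2
        · rw [h2] at h1
          exact (le_sup_left : S.G (S.a e₀) ≤ _) h1
        · exact h1
    by_cases hv : S.a e.1 = S.b e₀
    · simp only [hv, if_true] at hc ⊢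
      exact key ((S.s e₀)⁻¹ * c * (S.s e₀)⁻¹⁻¹) hc _ (by group)
    · simp only [hv, if_false] at hc ⊢
      exact key c hc _ (by group)

/-- Contraction of the loop `e₀`. -/
def ctrL (S : GG Γ) (e₀ : S.E) : GG Γ where
  V := S.V
  E := {e : S.E // e ≠ e₀}
  G w := if w = S.a e₀ then S.G w ⊔ Subgroup.zpowers (S.s e₀) else S.G w
  a e := S.a e.1
  b e := S.b e.1
  s e := S.s e.1
  C e := S.C e.1
  Ca e := by
    intro c hc
    have h1 := S.Ca e.1 hc
    split_ifs with h
    · exact (le_sup_left : S.G (S.a e.1) ≤ _) h1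
    · exact h1
  Cb e := by
    intro c hc
    have h1 := S.Cb e.1 c hc
    split_ifs with h
    · exact (le_sup_left : S.G (S.b e.1) ≤ _) h1
    · exact h1

end GG

end Pool.Agent.FrS
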