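import Pool.Agent.Lib.MP_305fdd_al.Fr.S.Defs

/-!
# MP_305fdd_al, F_r project, section SP: the rank function of the algebraic matroid
-/

set_option autoImplicit false

namespace Pool.Agent.FrS

open Matrix (SpecialLinearGroup)
open Pool.Agent.FrN

section

variable {F L : Type} [Field F] [Field L] [Algebra (ZMod 2) F] [Algebra (ZMod 2) L]

/-- the rank with values in the extended natural numbers -/
noncomputable def er (X : Set F) : ℕ∞ := (AlgebraicIndependent.matroid (ZMod 2) F).eRk X

theorem rk_def (X : Set F) : rk X = (er X).toNat := rfl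

theorem er_mono {X Y : Set F} (h : X ⊆ Y) : er X ≤ er Y := Matroid.eRk_mono _ h

theorem er_submod (X Y : Set F) : er (X ∩ Y) + er (X ∪ Y) ≤ er X + er Y :=
  Matroid.eRk_inter_add_eRk_union_le _ X Y

theorem er_union_le (X Y : Set F) : er (X ∪ Y) ≤ er X + er Y :=
  Matroid.eRk_union_le_eRk_add_eRk _ X Y

/-- submodularity for a common subset -/
theorem er_submod' {X Y Z : Set F} (hX : Z ⊆ X) (hY : Z ⊆ Y) :
    er Z + er (X ∪ Y) ≤ er X + er Y :=
  le_trans (add_le_add (er_mono (Set.subset_inter hX hY)) le_rfl) (er_submod X Y)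

theorem indep_iff {X : Set F} : (AlgebraicIndependent.matroid (ZMod 2) F).Indep X ↔
    AlgebraicIndepOn (ZMod 2) id X := Iff.rfl

theorem le_er_iff {X : Set F} {n : ℕ∞} : n ≤ er X ↔
    ∃ I, I ⊆ X ∧ AlgebraicIndepOn (ZMod 2) id I ∧ I.encard = n := Matroid.le_eRk_iff

theorem er_le_iff {X : Set F} {n : ℕ∞} : er X ≤ n ↔
    ∀ I, I ⊆ X → AlgebraicIndepOn (ZMod 2) id I → I.encard ≤ n := Matroid.eRk_le_iff

/-- specialisation does not increase the rank -/
theorem er_spec {O : Subalgebra (ZMod 2) F} (φ : O →ₐ[ZMod 2] L) (X : Set O) :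
    er (φ '' X) ≤ er ((fun x : O => (x : F)) '' X) := by
  rw [er_le_iff]
  intro I hI hind
  have h1 : ∀ y : I, ∃ x : O, x ∈ X ∧ φ x = y := fun y => hI y.2
  choose g hgX hg using h1
  have h2 : AlgebraicIndependent (ZMod 2) (φ ∘ g) := by
    have h3 : (φ ∘ g) = fun y : I => (y : L) := by
      funext y
      exact hg y
    rw [h3]
    exact hind
  have h3 : AlgebraicIndependent (ZMod 2) g := AlgebraicIndependent.of_comp φ h2
  have h4 : AlgebraicIndependent (ZMod 2) (O.val ∘ g) :=
    h3.map' (f := O.val) Subtype.val_injective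
  have hinj : Function.Injective (O.val ∘ g) := h4.injective
  have h5 : AlgebraicIndepOn (ZMod 2) id (Set.range (O.val ∘ g)) := h4.coe_range
  have h6 : (Set.range (O.val ∘ g)).encard = I.encard := by
    rw [← Set.image_univ, hinj.encard_image, Set.encard_univ, Set.encard]
  rw [← h6]
  exact le_er_iff.2 ⟨_, by rintro _ ⟨y, rfl⟩; exact ⟨g y, hgX y, rfl⟩, h5, rfl⟩

/-- field extensions preserve the rank -/
theorem er_map (f : F →ₐ[ZMod 2] L) (X : Set F) : er (f '' X) = er X := by
  apply le_antisymm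
  · have h := er_spec (O := (⊤ : Subalgebra (ZMod 2) F)) (f.comp (Subalgebra.val _))
      ((fun x : F => (⟨x, Algebra.mem_top⟩ : (⊤ : Subalgebra (ZMod 2) F))) '' X)
    rw [Set.image_image, Set.image_image] at h
    simpa using h
  · rw [er_le_iff]
    intro I hI hind
    have h1 : AlgebraicIndependent (ZMod 2) (f ∘ (fun x : I => (x : F))) :=
      AlgebraicIndependent.map' (x := fun x : I => (x : F)) hind f.injective
    have h2 : AlgebraicIndepOn (ZMod 2) id (Set.range (f ∘ (fun x : I => (x : F)))) := h1.coe_range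
    have h3 : (Set.range (f ∘ (fun x : I => (x : F)))).encard = I.encard := by
      rw [← Set.image_univ, h1.injective.encard_image, Set.encard_univ, Set.encard]
    rw [← h3]
    exact le_er_iff.2 ⟨_, by rintro _ ⟨y, rfl⟩; exact ⟨y, hI y.2, rfl⟩, h2, rfl⟩

/-- adding algebraically independent elements over a larger field -/
theorem er_add {ι : Type} [Algebra F L] [IsScalarTower (ZMod 2) F L] (y : ι → L)
    (hy : AlgebraicIndependent F y) (W : Set F) :
    ENat.card ι + er W ≤ er (Set.range y ∪ algebraMap F L '' W) := by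
  obtain ⟨I, hIW, hI, hc⟩ := le_er_iff.1 (le_refl (er W))
  have h1 := AlgebraicIndependent.sumElim_comp (x := fun x : I => (x : F)) hI hy
  have h2 : AlgebraicIndepOn (ZMod 2) id (Set.range (Sum.elim y (algebraMap F L ∘
      fun x : I => (x : F)))) := h1.coe_range
  have h3 : (Set.range (Sum.elim y (algebraMap F L ∘ fun x : I => (x : F)))).encard =
      ENat.card ι + I.encard := by
    rw [← Set.image_univ, h1.injective.encard_image, Set.encard_univ, Set.encard]
    simp
  rw [← hc, ← h3]
  refine le_er_iff.2 ⟨_, ?_, h2, rfl⟩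
  rintro _ ⟨s | s, rfl⟩
  · exact Or.inl ⟨s, rfl⟩
  · exact Or.inr ⟨s, hIW s.2, rfl⟩

end

end Pool.Agent.FrS
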