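import Pool.Agent.Lib.MP_305fdd_al.Fr.S.Mat
import Pool.Agent.Lib.MP_305fdd_al.Fr.S.Rk
import Pool.Agent.Lib.MP_305fdd_al.Fr.Asm.Defs

/-!
# MP_305fdd_al, F_r project, section SP: bending

`UP.bend`, `UP.move`: representations obtained from a given one by changing one gluing element resp. the
representation of one vertex group.  `bend_edge`, `bend_loop`: a trace which is transcendental over the
traces of the vertex groups.
-/

set_option autoImplicit false

namespace Pool.Agent.FrS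

open Matrix (SpecialLinearGroup)
open Pool.Agent.FrN Pool.Agent.FrAsm

namespace GG

variable {Γ : Type} [Group Γ] {S : GG Γ}

/-- Change of one gluing element. -/
theorem UP.bend (hS : S.UP) {R : Type} [CommRing R] [Algebra (ZMod 2) R]
    (r₀ : Γ →* SpecialLinearGroup (Fin 2) R) (e : S.E) (D : SpecialLinearGroup (Fin 2) R)
    (hD : ∀ c ∈ S.C e, D * r₀ c = r₀ c * D) :
    ∃ (r : Γ →* SpecialLinearGroup (Fin 2) R) (g : S.V → SpecialLinearGroup (Fin 2) R),
      (∀ v, ∀ x ∈ S.G v, r x = g v * r₀ x * (g v)⁻¹) ∧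
      (∀ f, f ≠ e → r (S.s f) = g (S.a f) * r₀ (S.s f) * (g (S.b f))⁻¹) ∧
      r (S.s e) = g (S.a e) * (D * r₀ (S.s e)) * (g (S.b e))⁻¹ := by
  let F : Fam S (SpecialLinearGroup (Fin 2) R) :=
    { r := fun _ => r₀
      t := fun f => if f = e then D * r₀ (S.s e) else r₀ (S.s f)
      mul := fun v x _ y _ => map_mul r₀ x y
      cm := by
        intro f c hc
        by_cases hf : f = e
        · subst hf
          simp only [if_true, map_mul, map_inv]
          have h := hD c hc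
          have h1 : D * r₀ (S.s f) * ((r₀ (S.s f))⁻¹ * r₀ c * r₀ (S.s f)) * (D * r₀ (S.s f))⁻¹ =
              (D * r₀ c) * D⁻¹ := by group
          rw [h1, h]
          group
        · simp only [hf, if_false, map_mul, map_inv]
          group }
  obtain ⟨r, g, hF⟩ := hS.ext R F
  refine ⟨r, g, ?_, ?_, ?_⟩
  · intro v x hx
    have h : r₀ x = (g v)⁻¹ * r x * g v := hF.vtx v x hx
    rw [h]
    group
  · intro f hf
    have h := hF.edg f
    simp only [F, hf, if_false] at h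
    rw [h]
    group
  · have h := hF.edg e
    simp only [F, if_true] at h
    rw [h]
    group

/-- Change of the representation of one vertex group. -/
theorem UP.move (hS : S.UP) {R : Type} [CommRing R] [Algebra (ZMod 2) R]
    (r₀ : Γ →* SpecialLinearGroup (Fin 2) R) (v : S.V) (r₁ : Γ → SpecialLinearGroup (Fin 2) R)
    (h₁ : MulOn (S.G v) r₁)
    (ha : ∀ e, S.a e = v → ∃ h : SpecialLinearGroup (Fin 2) R, ∀ c ∈ S.C e,
      r₁ c = h⁻¹ * r₀ c * h)
    (hb : ∀ e, S.b e = v → ∃ h : SpecialLinearGroup (Fin 2) R, ∀ c ∈ S.C e,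
      r₁ ((S.s e)⁻¹ * c * S.s e) = h⁻¹ * r₀ ((S.s e)⁻¹ * c * S.s e) * h) :
    ∃ (r : Γ →* SpecialLinearGroup (Fin 2) R) (g : S.V → SpecialLinearGroup (Fin 2) R),
      (∀ w, w ≠ v → ∀ x ∈ S.G w, r x = g w * r₀ x * (g w)⁻¹) ∧
      (∀ x ∈ S.G v, r x = g v * r₁ x * (g v)⁻¹) := by
  have ha' : ∀ e, ∃ h : SpecialLinearGroup (Fin 2) R, ∀ c ∈ S.C e,
      (if S.a e = v then r₁ else r₀) c = h⁻¹ * r₀ c * h := by
    intro e
    by_cases he : S.a e = v
    · obtain ⟨h, hh⟩ := ha e he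
      exact ⟨h, fun c hc => by rw [if_pos he]; exact hh c hc⟩
    · exact ⟨1, fun c hc => by rw [if_neg he]; simp⟩
  have hb' : ∀ e, ∃ h : SpecialLinearGroup (Fin 2) R, ∀ c ∈ S.C e,
      (if S.b e = v then r₁ else r₀) ((S.s e)⁻¹ * c * S.s e) =
        h⁻¹ * r₀ ((S.s e)⁻¹ * c * S.s e) * h := by
    intro e
    by_cases he : S.b e = v
    · obtain ⟨h, hh⟩ := hb e he
      exact ⟨h, fun c hc => by rw [if_pos he]; exact hh c hc⟩
    · exact ⟨1, fun c hc => by rw [if_neg he]; simp⟩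
  choose α hα using ha'
  choose β hβ using hb'
  let F : Fam S (SpecialLinearGroup (Fin 2) R) :=
    { r := fun w => if w = v then r₁ else r₀
      t := fun e => (α e)⁻¹ * r₀ (S.s e) * β e
      mul := by
        intro w x hx y hy
        by_cases hw : w = v
        · subst hw
          simp only [if_true]
          exact h₁ x hx y hy
        · simp only [hw, if_false]
          exact map_mul r₀ x y
      cm := by
        intro e c hc
        change (if S.a e = v then r₁ else r₀) c = _ *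
          (if S.b e = v then r₁ else r₀) ((S.s e)⁻¹ * c * S.s e) * _
        rw [hα e c hc, hβ e c hc]
        simp only [map_mul, map_inv]
        group }
  obtain ⟨r, g, hF⟩ := hS.ext R F
  refine ⟨r, g, ?_, ?_⟩
  · intro w hw x hx
    have h := hF.vtx w x hx
    simp only [F, hw, if_false] at h
    rw [h]
    group
  · intro x hx
    have h := hF.vtx v x hx
    simp only [F, if_true] at h
    rw [h]
    group

end GG

section

variable {Γ F : Type} [Group Γ] [Field F] [Algebra (ZMod 2) F]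
  {ρ : Γ →* SpecialLinearGroup (Fin 2) F}

/-- the traces of a representation over a field have rank at most the rank of the generic traces -/
theorem er_rep (hU : Uv Γ F ρ) {L : Type} [Field L] [Algebra (ZMod 2) L]
    (r : Γ →* SpecialLinearGroup (Fin 2) L) (X : Set Γ) : er (trs r X) ≤ er (trs ρ X) := by
  obtain ⟨φ, hφ⟩ := hU.univ L r
  let T : Γ → OO 2 ρ := fun g => ⟨(ρ g).1 0 0, mem_OO ρ g 0 0⟩ + ⟨(ρ g).1 1 1, mem_OO ρ g 1 1⟩
  have h1 : ∀ g, φ (T g) = tr r g := by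
    intro g
    simp only [T, map_add, hφ]
    exact (sl_tr (r g)).symm
  have h2 : ∀ g, ((T g : OO 2 ρ) : F) = tr ρ g := fun g => (sl_tr (ρ g)).symm
  have h3 := er_spec φ (T '' X)
  rw [Set.image_image, Set.image_image] at h3
  simp only [h1, h2] at h3
  exact h3

/-- base change -/
noncomputable def bc {L : Type} [Field L] (i : F →+* L) (ρ : Γ →* SpecialLinearGroup (Fin 2) F) :
    Γ →* SpecialLinearGroup (Fin 2) L := (Matrix.SpecialLinearGroup.map i).comp ρ

theorem bc_apply {L : Type} [Field L] (i : F →+* L) (ρ : Γ →* SpecialLinearGroup (Fin 2) F)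
    (g : Γ) (a b : Fin 2) : (bc i ρ g).1 a b = i ((ρ g).1 a b) := rfl

theorem tr_bc {L : Type} [Field L] (i : F →+* L) (ρ : Γ →* SpecialLinearGroup (Fin 2) F)
    (g : Γ) : tr (bc i ρ) g = i (tr ρ g) := by
  unfold tr
  rw [sl_tr, sl_tr, bc_apply, bc_apply, map_add]

/-- Laurent polynomials `α + β θⁿ + γ θ⁻ⁿ` are transcendental. -/
theorem transc {k : Type} [Field k] [IsAlgClosed k] (n : ℕ) (hn : 1 ≤ n) (α β γ : k)
    (h : β ≠ 0 ∨ γ ≠ 0) (θ : (FractionRing (Polynomial k))ˣ)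
    (hθ : (θ : FractionRing (Polynomial k)) = algebraMap (Polynomial k) (FractionRing (Polynomial k)) Polynomial.X) :
    Transcendental k (algebraMap k (FractionRing (Polynomial k)) α +
      algebraMap k (FractionRing (Polynomial k)) β * (θ : FractionRing (Polynomial k)) ^ n +
      algebraMap k (FractionRing (Polynomial k)) γ * ((θ⁻¹ : (FractionRing (Polynomial k))ˣ) : FractionRing (Polynomial k)) ^ n) := by
  intro halg
  have hint := halg.isIntegral
  have h1 := IsAlgClosed.degree_eq_one_of_irreducible k (minpoly.irreducible hint)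
  obtain ⟨δ, hδ⟩ := minpoly.mem_range_of_degree_eq_one k _ h1
  have hinj : Function.Injective (algebraMap (Polynomial k) (FractionRing (Polynomial k))) :=
    IsFractionRing.injective _ _
  have hsc : ∀ a : k, algebraMap k (FractionRing (Polynomial k)) a =
      algebraMap (Polynomial k) (FractionRing (Polynomial k)) (Polynomial.C a) := fun a => by
    rw [IsScalarTower.algebraMap_apply k (Polynomial k) (FractionRing (Polynomial k))]
    rfl
  have hθ1 : (θ : FractionRing (Polynomial k)) * ((θ⁻¹ : (FractionRing (Polynomial k))ˣ) : FractionRing (Polynomial k)) = 1 := by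
    simp
  have h2 : (Polynomial.C β * Polynomial.X ^ (2 * n) + Polynomial.C (α - δ) * Polynomial.X ^ n + Polynomial.C γ : (Polynomial k)) = 0 := by
    apply hinj
    rw [map_zero, map_add, map_add, map_mul, map_mul, map_pow, map_pow, ← hsc, ← hsc, ← hsc, ← hθ,
      map_sub, hδ]
    have h3 : (θ : FractionRing (Polynomial k)) ^ n * ((θ⁻¹ : (FractionRing (Polynomial k))ˣ) : FractionRing (Polynomial k)) ^ n =
        1 := by rw [← mul_pow, hθ1, one_pow]
    rw [two_mul, pow_add]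
    linear_combination (-(algebraMap k (FractionRing (Polynomial k)) γ)) * h3
  rcases h with h | h
  · have h3 := congrArg (fun p : (Polynomial k) => p.coeff (2 * n)) h2
    simp only [Polynomial.coeff_add, Polynomial.coeff_C_mul, Polynomial.coeff_X_pow, Polynomial.coeff_C, Polynomial.coeff_zero, if_true, mul_one] at h3
    rw [if_neg (by omega), if_neg (by omega)] at h3
    apply h
    simpa using h3
  · have h3 := congrArg (fun p : (Polynomial k) => p.coeff 0) h2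
    simp only [Polynomial.coeff_add, Polynomial.coeff_C_mul, Polynomial.coeff_X_pow, Polynomial.coeff_C, Polynomial.coeff_zero, if_true] at h3
    rw [if_neg (by omega), if_neg (by omega)] at h3
    apply h
    simpa using h3

/-- a subgroup without elements of trace zero whose elements are triangular is commutative -/
theorem exists_nz (hT : ∀ g, tr ρ g = 0 → g = 1) {L : Type} [Field L] [CharP L 2] (i : F →+* L)
    (P : SpecialLinearGroup (Fin 2) L) (H : Subgroup Γ)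
    (hH : ¬ ∀ x ∈ H, ∀ y ∈ H, x * y = y * x) :
    (∃ x ∈ H, (P⁻¹ * bc i ρ x * P).1 0 1 ≠ 0) ∧ ∃ x ∈ H, (P⁻¹ * bc i ρ x * P).1 1 0 ≠ 0 := by
  have h2 : (2 : L) = 0 := CharTwo.two_eq_zero
  have hmul : ∀ x y, P⁻¹ * bc i ρ (x * y) * P = (P⁻¹ * bc i ρ x * P) * (P⁻¹ * bc i ρ y * P) := by
    intro x y
    rw [map_mul]
    group
  have hinv : ∀ x, P⁻¹ * bc i ρ x⁻¹ * P = (P⁻¹ * bc i ρ x * P)⁻¹ := by
    intro x
    rw [map_inv]
    group
  have key : ∀ x y, (P⁻¹ * bc i ρ (x * y * x⁻¹ * y⁻¹) * P).1.trace = 0 → x * y = y * x := by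
    intro x y h
    rw [tr_conj'] at h
    have h1 : i (tr ρ (x * y * x⁻¹ * y⁻¹)) = 0 := by
      rw [← tr_bc]
      exact h
    rw [map_eq_zero] at h1
    have h3 := hT _ h1
    have h4 : x * y = (x * y * x⁻¹ * y⁻¹) * (y * x) := by group
    rw [h4, h3, one_mul]
  constructor
  · by_contra hne
    push Not at hne
    apply hH
    intro x hx y hy
    apply key
    have hx0 := hne x hx
    have hy0 := hne y hy
    rw [hmul, hmul, hmul, hinv, hinv]
    generalize P⁻¹ * bc i ρ x * P = A at hx0 ⊢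
    generalize P⁻¹ * bc i ρ y * P = B at hy0 ⊢
    obtain ⟨a1, a2, a3, a4⟩ := sl_inv A
    obtain ⟨b1, b2, b3, b4⟩ := sl_inv B
    rw [sl_tr]
    simp only [sl_mul, a1, a2, a3, a4, b1, b2, b3, b4, hx0, hy0]
    linear_combination (A.1 0 0 * B.1 0 0 * A.1 1 1 * B.1 1 1) * h2
  · by_contra hne
    push Not at hne
    apply hH
    intro x hx y hy
    apply key
    have hx0 := hne x hx
    have hy0 := hne y hy
    rw [hmul, hmul, hmul, hinv, hinv]
    generalize P⁻¹ * bc i ρ x * P = A at hx0 ⊢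
    generalize P⁻¹ * bc i ρ y * P = B at hy0 ⊢
    obtain ⟨a1, a2, a3, a4⟩ := sl_inv A
    obtain ⟨b1, b2, b3, b4⟩ := sl_inv B
    rw [sl_tr]
    simp only [sl_mul, a1, a2, a3, a4, b1, b2, b3, b4, hx0, hy0]
    linear_combination (A.1 0 0 * B.1 0 0 * A.1 1 1 * B.1 1 1) * h2

theorem charTwo_of_alg (L : Type) [Field L] [Algebra (ZMod 2) L] : CharP L 2 :=
  charP_of_injective_algebraMap (algebraMap (ZMod 2) L).injective 2

/-- the torus of a nontrivial element -/
theorem exists_torus (hT : ∀ g, tr ρ g = 0 → g = 1) {k : Type} [Field k] [IsAlgClosed k]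
    [CharP k 2] (i : F →+* k) {c : Γ} (hc : c ≠ 1) :
    ∃ P : SpecialLinearGroup (Fin 2) k, ∀ d : Γ, d * c = c * d →
      ∃ b : kˣ, P⁻¹ * bc i ρ d * P = dg b := by
  have h1 : (bc i ρ c).1.trace ≠ 0 := by
    intro h
    apply hc
    apply hT
    have h2 : i (tr ρ c) = 0 := by
      rw [← tr_bc]
      exact h
    rwa [map_eq_zero] at h2
  obtain ⟨P, a, hP, ha⟩ := exists_diag (bc i ρ c) h1
  refine ⟨P, fun d hd => ?_⟩
  have h2 : (P⁻¹ * bc i ρ d * P) * dg a = dg a * (P⁻¹ * bc i ρ d * P) := by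
    rw [← hP]
    have h3 : bc i ρ d * bc i ρ c = bc i ρ c * bc i ρ d := by rw [← map_mul, ← map_mul, hd]
    calc (P⁻¹ * bc i ρ d * P) * (P⁻¹ * bc i ρ c * P) = P⁻¹ * (bc i ρ d * bc i ρ c) * P := by group
      _ = P⁻¹ * (bc i ρ c * bc i ρ d) * P := by rw [h3]
      _ = _ := by group
  obtain ⟨h01, h10⟩ := comm_dg ha h2
  exact eq_dg h01 h10

theorem one_add_le {k : Type} [Field k] [Algebra (ZMod 2) k] {L : Type} [Field L]
    [Algebra (ZMod 2) L] [Algebra k L] [IsScalarTower (ZMod 2) k L] {t : L}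
    (ht : Transcendental k t) (W : Set k) :
    1 + er W ≤ er (insert t (algebraMap k L '' W)) := by
  have h1 : AlgebraicIndependent k (fun _ : Unit => t) :=
    algebraicIndependent_unique_type_iff.2 ht
  have h2 := er_add (fun _ : Unit => t) h1 W
  have h3 : Set.range (fun _ : Unit => t) = {t} := by
    ext z
    simp
  rw [h3] at h2
  simpa using h2

/-- BENDING at an edge between two non-abelian vertices: there is an element in the group
generated by the two vertex groups whose trace is transcendental over the traces of all vertex groups.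
-/
theorem bend_edge (hU : Uv Γ F ρ) (hT : ∀ g, tr ρ g = 0 → g = 1) {S : GG Γ} (hS : S.UP) (e : S.E)
    (hne : S.C e ≠ ⊥) (hab : ∀ x ∈ S.C e, ∀ y ∈ S.C e, x * y = y * x)
    (ha : S.NA (S.a e)) (hb : S.NA (S.b e)) :
    ∃ x ∈ S.G (S.a e), ∃ y ∈ S.G (S.b e), ∀ Y : Set Γ, (∀ z ∈ Y, ∃ v, z ∈ S.G v) →
      1 + er (trs ρ Y) ≤ er (trs ρ (insert (x * (S.s e * y * (S.s e)⁻¹)) Y)) := by
  have _ := charTwo_of_alg F
  let k := AlgebraicClosure F
  have _ : CharP k 2 := charTwo_of_alg k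
  let L := FractionRing (Polynomial k)
  let i : F →ₐ[ZMod 2] k := IsScalarTower.toAlgHom (ZMod 2) F k
  let j : k →ₐ[ZMod 2] L := IsScalarTower.toAlgHom (ZMod 2) k L
  obtain ⟨c, hc, hc1⟩ := (S.C e).ne_bot_iff_exists_ne_one.1 hne |>.elim fun c h =>
    (⟨c.1, c.2, fun h' => h (Subtype.ext h')⟩ : ∃ c : Γ, c ∈ S.C e ∧ c ≠ 1)
  obtain ⟨P, hP⟩ := exists_torus hT (i : F →+* k) hc1
  -- the parameter
  have hX : (algebraMap (Polynomial k) L) Polynomial.X ≠ 0 := by
    rw [Ne, map_eq_zero_iff _ (IsFractionRing.injective _ _)]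
    exact Polynomial.X_ne_zero
  let θ : Lˣ := Units.mk0 _ hX
  let m := Matrix.SpecialLinearGroup.map (n := Fin 2) (j : k →+* L)
  let r₀ : Γ →* SpecialLinearGroup (Fin 2) L := m.comp (bc (i : F →+* k) ρ)
  have hr₀ : ∀ g, tr r₀ g = j (i (tr ρ g)) := by
    intro g
    have h1 := tr_bc (j : k →+* L) (bc (i : F →+* k) ρ) g
    rw [tr_bc (i : F →+* k) ρ g] at h1
    exact h1
  have hr₀m : ∀ g, r₀ g = m (bc (i : F →+* k) ρ g) := fun _ => rfl
  obtain ⟨D, hDdef⟩ : ∃ D, D = m P * dg θ * (m P)⁻¹ := ⟨_, rfl⟩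
  have hmdg : ∀ b : kˣ, ∃ b' : Lˣ, m (dg b) = dg b' := by
    intro b
    apply eq_dg
    · change j ((dg b).1 0 1) = 0
      rw [dg_01, map_zero]
    · change j ((dg b).1 1 0) = 0
      rw [dg_10, map_zero]
  have hD : ∀ d ∈ S.C e, D * r₀ d = r₀ d * D := by
    intro d hd
    obtain ⟨b, hb'⟩ := hP d (hab d hd c hc)
    obtain ⟨b', hb''⟩ := hmdg b
    have h1 : r₀ d = m P * dg b' * (m P)⁻¹ := by
      rw [← hb'', ← hb', map_mul, map_mul, map_inv, hr₀m]
      group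
    rw [h1, hDdef]
    calc m P * dg θ * (m P)⁻¹ * (m P * dg b' * (m P)⁻¹) = m P * (dg θ * dg b') * (m P)⁻¹ := by group
      _ = m P * (dg b' * dg θ) * (m P)⁻¹ := by rw [dg_comm]
      _ = _ := by group
  obtain ⟨r, g, hr1, _, hr3⟩ := hS.bend r₀ e D hD
  -- the elements
  obtain ⟨x, hx, hx10⟩ := (exists_nz hT (i : F →+* k) P (S.G (S.a e)) ha).2
  obtain ⟨y, hy, hy01⟩ := (exists_nz hT (i : F →+* k) ((bc (i : F →+* k) ρ (S.s e))⁻¹ * P)
    (S.G (S.b e)) hb).1
  refine ⟨x, hx, y, hy, fun Y hY => ?_⟩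
  set w := x * (S.s e * y * (S.s e)⁻¹) with hw
  set A := P⁻¹ * bc (i : F →+* k) ρ x * P with hA
  set B := ((bc (i : F →+* k) ρ (S.s e))⁻¹ * P)⁻¹ * bc (i : F →+* k) ρ y *
    ((bc (i : F →+* k) ρ (S.s e))⁻¹ * P) with hB
  have htr : tr r w = algebraMap k L (A.1 0 0 * B.1 0 0 + A.1 1 1 * B.1 1 1) +
      algebraMap k L (A.1 1 0 * B.1 0 1) * (θ : L) ^ 2 +
      algebraMap k L (A.1 0 1 * B.1 1 0) * ((θ⁻¹ : Lˣ) : L) ^ 2 := by
    have h1 : r w = g (S.a e) * (r₀ x * D * r₀ (S.s e) * r₀ y * (r₀ (S.s e))⁻¹ * D⁻¹) *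
        (g (S.a e))⁻¹ := by
      rw [hw, map_mul, map_mul, map_mul, map_inv, hr1 _ x hx, hr1 _ y hy, hr3]
      group
    have h2 : r₀ x * D * r₀ (S.s e) * r₀ y * (r₀ (S.s e))⁻¹ * D⁻¹ =
        m P * (m A * dg θ * m B * dg θ⁻¹) * (m P)⁻¹ := by
      rw [← dg_inv, hA, hB, hDdef, hr₀m, hr₀m, hr₀m]
      simp only [map_mul, map_inv]
      group
    unfold tr
    rw [h1, tr_conj, h2, tr_conj, sl_tr]
    simp only [sl_mul, dg_00, dg_01, dg_10, dg_11, inv_inv]
    change ((j (A.1 0 0) * (θ : L) + j (A.1 0 1) * 0) * j (B.1 0 0) +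
      (j (A.1 0 0) * 0 + j (A.1 0 1) * ((θ⁻¹ : Lˣ) : L)) * j (B.1 1 0)) * ((θ⁻¹ : Lˣ) : L) +
      ((j (A.1 0 0) * (θ : L) + j (A.1 0 1) * 0) * j (B.1 0 1) +
      (j (A.1 0 0) * 0 + j (A.1 0 1) * ((θ⁻¹ : Lˣ) : L)) * j (B.1 1 1)) * 0 +
      (((j (A.1 1 0) * (θ : L) + j (A.1 1 1) * 0) * j (B.1 0 0) +
      (j (A.1 1 0) * 0 + j (A.1 1 1) * ((θ⁻¹ : Lˣ) : L)) * j (B.1 1 0)) * 0 +
      ((j (A.1 1 0) * (θ : L) + j (A.1 1 1) * 0) * j (B.1 0 1) +
      (j (A.1 1 0) * 0 + j (A.1 1 1) * ((θ⁻¹ : Lˣ) : L)) * j (B.1 1 1)) * (θ : L)) =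
      j (A.1 0 0 * B.1 0 0 + A.1 1 1 * B.1 1 1) + j (A.1 1 0 * B.1 0 1) * (θ : L) ^ 2 +
      j (A.1 0 1 * B.1 1 0) * ((θ⁻¹ : Lˣ) : L) ^ 2
    have hθ1 : (θ : L) * ((θ⁻¹ : Lˣ) : L) = 1 := by simp
    simp only [map_add, map_mul]
    linear_combination (j (A.1 0 0) * j (B.1 0 0) + j (A.1 1 1) * j (B.1 1 1)) * hθ1
  have htrans : Transcendental k (tr r w) := by
    rw [htr]
    exact transc 2 (by norm_num) _ _ _ (Or.inl (mul_ne_zero hx10 hy01)) θ rfl
  have h3 := one_add_le htrans (i '' trs ρ Y)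
  rw [er_map i] at h3
  refine le_trans h3 (le_trans (le_of_eq ?_) (er_rep hU r (insert w Y)))
  congr 1
  unfold trs
  rw [Set.image_insert_eq]
  congr 1
  ext z
  constructor
  · rintro ⟨_, ⟨_, ⟨u, hu, rfl⟩, rfl⟩, rfl⟩
    refine ⟨u, hu, ?_⟩
    obtain ⟨v, hv⟩ := hY u hu
    unfold tr
    rw [hr1 v u hv, tr_conj]
    exact hr₀ u
  · rintro ⟨u, hu, rfl⟩
    refine ⟨_, ⟨_, ⟨u, hu, rfl⟩, rfl⟩, ?_⟩
    obtain ⟨v, hv⟩ := hY u hu
    unfold tr
    rw [hr1 v u hv, tr_conj]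
    exact (hr₀ u).symm

/-- BENDING at a loop at a non-abelian vertex -/
theorem bend_loop (hU : Uv Γ F ρ) (hT : ∀ g, tr ρ g = 0 → g = 1) {S : GG Γ} (hS : S.UP) (e : S.E)
    (hne : S.C e ≠ ⊥) (hab : ∀ x ∈ S.C e, ∀ y ∈ S.C e, x * y = y * x)
    (hl : S.b e = S.a e) (ha : S.NA (S.a e)) :
    ∃ x ∈ S.G (S.a e), ∀ Y : Set Γ, (∀ z ∈ Y, ∃ v, z ∈ S.G v) →
      1 + er (trs ρ Y) ≤ er (trs ρ (insert (x * S.s e) Y)) := by
  have _ := charTwo_of_alg F
  let k := AlgebraicClosure F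
  have _ : CharP k 2 := charTwo_of_alg k
  let L := FractionRing (Polynomial k)
  let i : F →ₐ[ZMod 2] k := IsScalarTower.toAlgHom (ZMod 2) F k
  let j : k →ₐ[ZMod 2] L := IsScalarTower.toAlgHom (ZMod 2) k L
  obtain ⟨c, hc, hc1⟩ := (S.C e).ne_bot_iff_exists_ne_one.1 hne |>.elim fun c h =>
    (⟨c.1, c.2, fun h' => h (Subtype.ext h')⟩ : ∃ c : Γ, c ∈ S.C e ∧ c ≠ 1)
  obtain ⟨P, hP⟩ := exists_torus hT (i : F →+* k) hc1
  -- the parameter
  have hX : (algebraMap (Polynomial k) L) Polynomial.X ≠ 0 := by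
    rw [Ne, map_eq_zero_iff _ (IsFractionRing.injective _ _)]
    exact Polynomial.X_ne_zero
  let θ : Lˣ := Units.mk0 _ hX
  let m := Matrix.SpecialLinearGroup.map (n := Fin 2) (j : k →+* L)
  let r₀ : Γ →* SpecialLinearGroup (Fin 2) L := m.comp (bc (i : F →+* k) ρ)
  have hr₀ : ∀ g, tr r₀ g = j (i (tr ρ g)) := by
    intro g
    have h1 := tr_bc (j : k →+* L) (bc (i : F →+* k) ρ) g
    rw [tr_bc (i : F →+* k) ρ g] at h1
    exact h1
  have hr₀m : ∀ g, r₀ g = m (bc (i : F →+* k) ρ g) := fun _ => rfl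
  obtain ⟨D, hDdef⟩ : ∃ D, D = m P * dg θ * (m P)⁻¹ := ⟨_, rfl⟩
  have hmdg : ∀ b : kˣ, ∃ b' : Lˣ, m (dg b) = dg b' := by
    intro b
    apply eq_dg
    · change j ((dg b).1 0 1) = 0
      rw [dg_01, map_zero]
    · change j ((dg b).1 1 0) = 0
      rw [dg_10, map_zero]
  have hD : ∀ d ∈ S.C e, D * r₀ d = r₀ d * D := by
    intro d hd
    obtain ⟨b, hb'⟩ := hP d (hab d hd c hc)
    obtain ⟨b', hb''⟩ := hmdg b
    have h1 : r₀ d = m P * dg b' * (m P)⁻¹ := by
      rw [← hb'', ← hb', map_mul, map_mul, map_inv, hr₀m]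
      group
    rw [h1, hDdef]
    calc m P * dg θ * (m P)⁻¹ * (m P * dg b' * (m P)⁻¹) = m P * (dg θ * dg b') * (m P)⁻¹ := by group
      _ = m P * (dg b' * dg θ) * (m P)⁻¹ := by rw [dg_comm]
      _ = _ := by group
  obtain ⟨r, g, hr1, _, hr3⟩ := hS.bend r₀ e D hD
  -- the element
  obtain ⟨x0, hx0, hx01⟩ := (exists_nz hT (i : F →+* k) P (S.G (S.a e)) ha).1
  set A := P⁻¹ * bc (i : F →+* k) ρ (S.s e) * P with hA
  have hx : ∃ x ∈ S.G (S.a e), (A * (P⁻¹ * bc (i : F →+* k) ρ x * P)).1 0 0 ≠ 0 ∨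
      (A * (P⁻¹ * bc (i : F →+* k) ρ x * P)).1 1 1 ≠ 0 := by
    by_cases h0 : A.1 0 0 = 0
    · by_cases h1 : A.1 1 1 = 0
      · refine ⟨x0, hx0, Or.inr ?_⟩
        rw [sl_mul, h1, zero_mul, add_zero]
        refine mul_ne_zero ?_ hx01
        intro h2
        have h3 := sl_det A
        rw [h0, h2] at h3
        simp at h3
      · refine ⟨1, one_mem _, Or.inr ?_⟩
        rw [map_one, mul_one, inv_mul_cancel, mul_one]
        exact h1
    · refine ⟨1, one_mem _, Or.inl ?_⟩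
      rw [map_one, mul_one, inv_mul_cancel, mul_one]
      exact h0
  obtain ⟨x, hx, hxx⟩ := hx
  refine ⟨x, hx, fun Y hY => ?_⟩
  set B := A * (P⁻¹ * bc (i : F →+* k) ρ x * P) with hB
  have htr : tr r (x * S.s e) = algebraMap k L 0 +
      algebraMap k L (B.1 0 0) * (θ : L) ^ 1 +
      algebraMap k L (B.1 1 1) * ((θ⁻¹ : Lˣ) : L) ^ 1 := by
    have h1 : r (x * S.s e) = (g (S.a e) * r₀ x * D) * (r₀ (S.s e) * r₀ x * D) *
        (g (S.a e) * r₀ x * D)⁻¹ := by
      rw [map_mul, hr1 _ x hx, hr3, hl]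
      group
    have h2 : r₀ (S.s e) * r₀ x * D = m P * (m B * dg θ) * (m P)⁻¹ := by
      rw [hB, hA, hDdef, hr₀m, hr₀m]
      simp only [map_mul, map_inv]
      group
    unfold tr
    rw [h1, tr_conj, h2, tr_conj, sl_tr]
    simp only [sl_mul, dg_00, dg_01, dg_10, dg_11]
    change j (B.1 0 0) * (θ : L) + j (B.1 0 1) * 0 + (j (B.1 1 0) * 0 +
      j (B.1 1 1) * ((θ⁻¹ : Lˣ) : L)) = j 0 + j (B.1 0 0) * (θ : L) ^ 1 +
      j (B.1 1 1) * ((θ⁻¹ : Lˣ) : L) ^ 1
    rw [map_zero]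
    ring
  have htrans : Transcendental k (tr r (x * S.s e)) := by
    rw [htr]
    exact transc 1 le_rfl _ _ _ hxx θ rfl
  have h3 := one_add_le htrans (i '' trs ρ Y)
  rw [er_map i] at h3
  refine le_trans h3 (le_trans (le_of_eq ?_) (er_rep hU r (insert (x * S.s e) Y)))
  congr 1
  unfold trs
  rw [Set.image_insert_eq]
  congr 1
  ext z
  constructor
  · rintro ⟨_, ⟨_, ⟨u, hu, rfl⟩, rfl⟩, rfl⟩
    refine ⟨u, hu, ?_⟩
    obtain ⟨v, hv⟩ := hY u hu
    unfold tr
    rw [hr1 v u hv, tr_conj]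
    exact hr₀ u
  · rintro ⟨u, hu, rfl⟩
    refine ⟨_, ⟨_, ⟨u, hu, rfl⟩, rfl⟩, ?_⟩
    obtain ⟨v, hv⟩ := hY u hu
    unfold tr
    rw [hr1 v u hv, tr_conj]
    exact (hr₀ u).symm

end

end Pool.Agent.FrS
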