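import Pool.Agent.Lib.MP_305fdd_al.Fr.S.CtrAdm
import Pool.Agent.Lib.MP_305fdd_al.Fr.S.Bend

/-!
# MP_305fdd_al, F_r project, section SP: commuting elements
-/

set_option autoImplicit false

namespace Pool.Agent.FrS

open Matrix (SpecialLinearGroup)
open Pool.Agent.FrN Pool.Agent.FrAsm

section

variable {Γ F : Type} [Group Γ] [Field F] [Algebra (ZMod 2) F]
  {ρ : Γ →* SpecialLinearGroup (Fin 2) F}

/-- commutation is transitive, and an element which conjugates `g` to an element commuting with `g`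
commutes with `g` -/
theorem tor_of (hinj : Function.Injective ρ) (hT : ∀ g, tr ρ g = 0 → g = 1) : Tor Γ := by
  have hc2 : CharP F 2 := charP_of_injective_algebraMap (algebraMap (ZMod 2) F).injective 2
  let k := AlgebraicClosure F
  have hck : CharP k 2 := charP_of_injective_algebraMap (algebraMap F k).injective 2
  let i : F →+* k := algebraMap F k
  have hbinj : Function.Injective (bc i ρ) := by
    intro x y h
    apply hinj
    apply Subtype.ext
    ext p q
    have h1 := congrArg (fun A : SpecialLinearGroup (Fin 2) k => A.1 p q) h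
    exact i.injective h1
  have hconj : ∀ (P : SpecialLinearGroup (Fin 2) k) (x y : Γ),
      (P⁻¹ * bc i ρ x * P) * (P⁻¹ * bc i ρ y * P) = (P⁻¹ * bc i ρ y * P) * (P⁻¹ * bc i ρ x * P) →
      x * y = y * x := by
    intro P x y h
    apply hbinj
    rw [map_mul, map_mul]
    have h1 : bc i ρ x * bc i ρ y =
        P * ((P⁻¹ * bc i ρ x * P) * (P⁻¹ * bc i ρ y * P)) * P⁻¹ := by group
    rw [h1, h]
    group
  constructor
  · intro x y z hy h1 h2
    obtain ⟨P, hP⟩ := exists_torus hT i hy
    obtain ⟨b, hb⟩ := hP x h1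
    obtain ⟨b', hb'⟩ := hP z h2.symm
    apply hconj P
    rw [hb, hb']
    exact dg_comm _ _
  · intro a g hg h
    by_cases ha1 : a = 1
    · rw [ha1, one_mul, mul_one]
    obtain ⟨P, hP⟩ := exists_torus hT i hg
    obtain ⟨u, hu⟩ := hP (a⁻¹ * g * a) h
    obtain ⟨w, hw⟩ := hP g rfl
    have htr : ∀ x : Γ, (P⁻¹ * bc i ρ x * P).1.trace = i (tr ρ x) := by
      intro x
      rw [tr_conj']
      exact tr_bc i ρ x
    have hg0 : i (tr ρ g) ≠ 0 := by
      rw [Ne, map_eq_zero]
      exact fun h' => hg (hT g h')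
    have ha0 : i (tr ρ a) ≠ 0 := by
      rw [Ne, map_eq_zero]
      exact fun h' => ha1 (hT a h')
    have h2 : (2 : k) = 0 := CharTwo.two_eq_zero
    have hww : (w : k) + ((w⁻¹ : kˣ) : k) = i (tr ρ g) := by
      rw [← htr g, hw, sl_tr, dg_00, dg_11]
    have huu : (u : k) + ((u⁻¹ : kˣ) : k) = i (tr ρ g) := by
      rw [← GG.tr_conj ρ a g, ← htr, hu, sl_tr, dg_00, dg_11]
    have hne : (w : k) ≠ ((w⁻¹ : kˣ) : k) := by
      intro h'
      apply hg0
      rw [← hww, ← h']
      linear_combination (w : k) * h2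
    set A := P⁻¹ * bc i ρ a * P with hA
    have h3 : A * dg u = dg w * A := by
      rw [← hu, ← hw, hA]
      have h4 : bc i ρ (a⁻¹ * g * a) = (bc i ρ a)⁻¹ * bc i ρ g * bc i ρ a := by
        rw [map_mul, map_mul, map_inv]
      rw [h4]
      group
    have h5 : ((u : k) - w) * ((u : k) - ((w⁻¹ : kˣ) : k)) = 0 := by
      have e1 : (u : k) * ((u⁻¹ : kˣ) : k) = 1 := by simp
      have e2 : (w : k) * ((w⁻¹ : kˣ) : k) = 1 := by simp
      have e3 : (w : k) + ((w⁻¹ : kˣ) : k) = (u : k) + ((u⁻¹ : kˣ) : k) := by rw [hww, huu]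
      linear_combination -(u : k) * e3 - e1 + e2
    rcases mul_eq_zero.1 h5 with h6 | h6
    · have h7 : u = w := Units.ext (sub_eq_zero.1 h6)
      rw [h7] at h3
      obtain ⟨h01, h10⟩ := comm_dg hne h3
      obtain ⟨b, hb⟩ := eq_dg h01 h10
      apply hconj P
      rw [hw, ← hA, hb]
      exact dg_comm _ _
    · exfalso
      have h7 : (u : k) = ((w⁻¹ : kˣ) : k) := sub_eq_zero.1 h6
      have h7' : ((u⁻¹ : kˣ) : k) = w := by
        have : u = w⁻¹ := Units.ext h7
        rw [this, inv_inv]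
      have h00 := congrArg (fun A : SpecialLinearGroup (Fin 2) k => A.1 0 0) h3
      have h11 := congrArg (fun A : SpecialLinearGroup (Fin 2) k => A.1 1 1) h3
      simp only [sl_mul, dg_00, dg_01, dg_10, dg_11, mul_zero, zero_mul, add_zero, zero_add] at h00 h11
      rw [h7] at h00
      rw [h7'] at h11
      have hs : (w : k) - ((w⁻¹ : kˣ) : k) ≠ 0 := sub_ne_zero.2 hne
      have e00 : A.1 0 0 = 0 := by
        have : A.1 0 0 * ((w : k) - ((w⁻¹ : kˣ) : k)) = 0 := by linear_combination -h00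
        exact (mul_eq_zero.1 this).resolve_right hs
      have e11 : A.1 1 1 = 0 := by
        have : A.1 1 1 * ((w : k) - ((w⁻¹ : kˣ) : k)) = 0 := by linear_combination h11
        exact (mul_eq_zero.1 this).resolve_right hs
      apply ha0
      rw [← htr a, ← hA, sl_tr, e00, e11, add_zero]

end

end Pool.Agent.FrS
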