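import Pool.Agent.Lib.MP_305fdd_al.Fr.S.CtrAdm
import Pool.Agent.Lib.MP_305fdd_al.Fr.S.TorOf
import Pool.Agent.Lib.MP_305fdd_al.Fr.Asm.StmT
import Pool.Agent.Lib.MP_305fdd_al.Fr.X.GG
import Pool.Agent.Lib.MP_305fdd_al.Fr.Top.Gr
import Pool.Agent.Lib.MP_305fdd_al.Fr.Top.Ab

/-!
# MP_305fdd_al, F_r project, section SP: the normal form of a minimal splitting

* `tor_cls`: commuting is transitive, an element commuting with one of its conjugates commutes
  with the conjugator (for the class `Cls`).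
* `smin_edge`: every edge has a non-abelian end; `smin_loop`: no loop at an abelian vertex.
* `root_b`, `root_a`: an abelian leaf with cyclic edge group is a root leaf.
* `smin_side_a`, `smin_side_b`: a cyclic edge which is not a root leaf: at each of its ends there is a
  non-abelian vertex which is reached without using the edge.
-/

set_option autoImplicit false

namespace Pool.Agent.FrS

open Matrix (SpecialLinearGroup)
open Pool.Agent.FrN Pool.Agent.FrAsm Pool.Agent.FrX

section tor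

variable {Γ F : Type} [Group Γ] [Field F] [Algebra (ZMod 2) F]
  {ρ : Γ →* SpecialLinearGroup (Fin 2) F}

theorem tor_cls {b : ℕ} (h : Cls b Γ F ρ) : Tor Γ :=
  tor_of h.inj fun _ hg => FrTop.div h hg

end tor

/-! ## Edges of a minimal splitting -/

section smin

variable {Γ F : Type} [Group Γ] [Field F] [Algebra (ZMod 2) F]
  {ρ : Γ →* SpecialLinearGroup (Fin 2) F}

theorem card_ctr (S : GG Γ) (e₀ : S.E) (h0 : S.a e₀ ≠ S.b e₀) :
    Fintype.card (S.ctr e₀ h0).E < Fintype.card S.E := by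
  refine Fintype.card_lt_of_injective_of_notMem (S.cF e₀ h0) ?_ (b := e₀) ?_
  · intro x y h
    exact Subtype.ext h
  · rintro ⟨e, he⟩
    exact S.cF_ne e₀ h0 e he

theorem card_ctrL (S : GG Γ) (e₀ : S.E) :
    Fintype.card (S.ctrL e₀).E < Fintype.card S.E := by
  refine Fintype.card_lt_of_injective_of_notMem (S.lF e₀) ?_ (b := e₀) ?_
  · intro x y h
    exact Subtype.ext h
  · rintro ⟨e, he⟩
    exact S.lF_ne e₀ e he

/-- In a minimal splitting every edge has a non-abelian end. -/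
theorem smin_edge (hT : Tor Γ) {S : GG Γ} (h : Smin ρ S) (e : S.E) (hne : S.a e ≠ S.b e) :
    S.NA (S.a e) ∨ S.NA (S.b e) := by
  by_contra hcon
  rw [not_or] at hcon
  rcases h.2 _ (S.ctr_adm e hne h.1 hcon.1 hcon.2) with h1 | ⟨_, h1⟩
  · rw [S.ctr_DD e hne ρ hT (h.1.ne e) hcon.1 hcon.2] at h1
    exact lt_irrefl _ h1
  · exact absurd (card_ctr S e hne) (not_lt.2 h1)

/-- In a minimal splitting there is no loop at an abelian vertex. -/
theorem smin_loop (hT : Tor Γ) {S : GG Γ} (h : Smin ρ S) (e : S.E) (h0 : S.b e = S.a e) :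
    S.NA (S.a e) := by
  by_contra hcon
  rcases h.2 _ (S.ctrL_adm e h0 h.1) with h1 | ⟨_, h1⟩
  · rw [S.ctrL_DD e h0 ρ hT (h.1.ne e) hcon] at h1
    exact lt_irrefl _ h1
  · exact absurd (card_ctrL S e) (not_lt.2 h1)

/-- In a minimal splitting every edge has a non-abelian end (loops included). -/
theorem smin_edge' (hT : Tor Γ) {S : GG Γ} (h : Smin ρ S) (e : S.E) :
    S.NA (S.a e) ∨ S.NA (S.b e) := by
  by_cases h0 : S.a e = S.b e
  · exact Or.inl (smin_loop hT h e h0.symm)
  · exact smin_edge hT h e h0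

end smin

/-! ## Root leaves -/

/-- a torsion-free commutative group with a cyclic subgroup of finite index is cyclic -/
theorem cyc_of_fin {Γ : Type} [Group Γ] (htf : ∀ (x : Γ) (n : ℕ), n ≠ 0 → x ^ n = 1 → x = 1)
    (H N : Subgroup Γ) (hH : ∀ x ∈ H, ∀ y ∈ H, x * y = y * x) (z : Γ)
    (hN : N = Subgroup.zpowers z) (hfi : (N.subgroupOf H).FiniteIndex) :
    ∃ w, H = Subgroup.zpowers w := by
  let _ : CommGroup H := { (inferInstance : Group H) with
    mul_comm := fun x y => Subtype.ext (hH x.1 x.2 y.1 y.2) }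
  have hn0 : (N.subgroupOf H).index ≠ 0 := hfi.index_ne_zero
  have hmem : ∀ x : H, (x.1 : Γ) ^ (N.subgroupOf H).index ∈ N := by
    intro x
    have h1 := Subgroup.pow_index_mem (N.subgroupOf H) x
    rw [Subgroup.mem_subgroupOf] at h1
    exact h1
  let f : H →* N :=
    { toFun := fun x => ⟨(x.1 : Γ) ^ (N.subgroupOf H).index, hmem x⟩
      map_one' := by
        apply Subtype.ext
        change (1 : Γ) ^ _ = 1
        rw [one_pow]
      map_mul' := by
        intro x y
        apply Subtype.ext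
        change (x.1 * y.1 : Γ) ^ _ = x.1 ^ _ * y.1 ^ _
        exact (show Commute x.1 y.1 from hH x.1 x.2 y.1 y.2).mul_pow _ }
  have hf : Function.Injective f := by
    rw [injective_iff_map_eq_one]
    intro x hx
    have h1 : (x.1 : Γ) ^ (N.subgroupOf H).index = 1 := congrArg Subtype.val hx
    exact Subtype.ext (htf x.1 _ hn0 h1)
  have hc : IsCyclic N := by
    rw [hN]
    infer_instance
  have hc' : IsCyclic H := isCyclic_of_injective f hf
  obtain ⟨w, hw⟩ := hc'.exists_generator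
  refine ⟨w, le_antisymm ?_ ?_⟩
  · intro x hx
    obtain ⟨n, hn⟩ := Subgroup.mem_zpowers_iff.1 (hw ⟨x, hx⟩)
    exact ⟨n, congrArg Subtype.val hn⟩
  · rw [Subgroup.zpowers_le]
    exact w.2

/-- numerical part: two generators -/
theorem root_num {Γ : Type} [Group Γ] (z' : Γ) (H : Subgroup Γ) (w : Γ)
    (hw : H = Subgroup.zpowers w) (hz : z' ∈ H) (hz1 : z' ≠ 1)
    (hlt : ∃ g ∈ H, g ∉ Subgroup.zpowers z') :
    ∃ (w : Γ) (m : ℕ), 2 ≤ m ∧ H = Subgroup.zpowers w ∧
      Subgroup.zpowers z' = Subgroup.zpowers (w ^ m) := by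
  rw [hw] at hz
  obtain ⟨k, hk⟩ := Subgroup.mem_zpowers_iff.1 hz
  have hk0 : k ≠ 0 := by
    rintro rfl
    rw [zpow_zero] at hk
    exact hz1 hk.symm
  have hk1 : k.natAbs ≠ 1 := by
    intro h
    obtain ⟨g, hg, hg'⟩ := hlt
    apply hg'
    rw [hw] at hg
    have h2 : Subgroup.zpowers w ≤ Subgroup.zpowers z' := by
      rw [Subgroup.zpowers_le, ← hk]
      rcases Int.natAbs_eq_iff.1 h with h | h
      · rw [h]
        exact ⟨1, by simp⟩
      · rw [h]
        exact ⟨-1, by simp⟩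
    exact h2 hg
  refine ⟨w, k.natAbs, ?_, hw, ?_⟩
  · have : k.natAbs ≠ 0 := Int.natAbs_ne_zero.2 hk0
    omega
  · rw [← hk]
    rcases Int.natAbs_eq k with h | h
    · rw [← zpow_natCast, ← h]
    · conv_lhs => rw [h]
      rw [zpow_neg, zpow_natCast, Subgroup.zpowers_inv]

section root

variable {b : ℕ} {Γ K F : Type} [Group Γ] [Field K] [Field F] [Algebra (ZMod 2) K]
  [Algebra (ZMod 2) F] [Algebra K F] {T : Γ → K} {ρ : Γ →* SpecialLinearGroup (Fin 2) F}

/-- An abelian leaf (at the second end of its edge) with cyclic edge group is a root leaf. -/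
theorem root_b (h : Blk b Γ K F T ρ) {S : GG Γ} (hS : S.Adm) (e : S.E) (hne : S.a e ≠ S.b e)
    (hl : S.Leaf (S.b e) e) (hab : ¬ S.NA (S.b e)) {z : Γ} (hz : S.C e = Subgroup.zpowers z) :
    ∃ w m, RL S e w m := by
  have hnc : ∃ y z : Γ, y * z ≠ z * y := by
    by_contra hcon
    push Not at hcon
    exact h.nab fun x y => hcon x y
  obtain ⟨hfi, _⟩ := lemX_adm h.hb h.cls.inj hnc S hS (S.b e) hab
  have hEG : EG S (S.b e) = Subgroup.zpowers ((S.s e)⁻¹ * z * S.s e) := by
    apply le_antisymm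
    · unfold EG
      rw [Subgroup.closure_le]
      rintro c ⟨e', ⟨h1, h2⟩ | ⟨h1, d, h2, rfl⟩⟩
      · have h3 := hl e' (Or.inl h1)
        subst h3
        exact absurd h1 hne
      · have h3 := hl e' (Or.inr h1)
        subst h3
        rw [hz] at h2
        obtain ⟨n, rfl⟩ := Subgroup.mem_zpowers_iff.1 h2
        refine Subgroup.mem_zpowers_iff.2 ⟨n, ?_⟩
        have h4 := conj_zpow (a := (S.s e')⁻¹) (b := z) (i := n)
        rw [inv_inv] at h4
        exact h4
    · rw [Subgroup.zpowers_le]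
      refine Subgroup.subset_closure ⟨e, Or.inr ⟨rfl, z, ?_, rfl⟩⟩
      rw [hz]
      exact Subgroup.mem_zpowers z
  obtain ⟨w, hw⟩ := cyc_of_fin (fun x n hn hx => FrTop.tf h.cls hn hx) (S.G (S.b e))
    (EG S (S.b e)) (not_not.1 hab) _ hEG hfi
  have hzC : z ∈ S.C e := by
    rw [hz]
    exact Subgroup.mem_zpowers z
  have hz1 : z ≠ 1 := by
    rintro rfl
    exact hS.ne e (by rw [hz, Subgroup.zpowers_one_eq_bot])
  obtain ⟨w, m, hm, hw, hzw⟩ := root_num ((S.s e)⁻¹ * z * S.s e) (S.G (S.b e)) w hw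
    (S.Cb e z hzC) (by
      intro h1
      apply hz1
      have h2 : z = S.s e * ((S.s e)⁻¹ * z * S.s e) * (S.s e)⁻¹ := by group
      rw [h2, h1]
      group) (by
      obtain ⟨g, hg, hg'⟩ := hS.ntb e hne hl
      refine ⟨g, hg, fun h1 => hg' ?_⟩
      obtain ⟨n, rfl⟩ := Subgroup.mem_zpowers_iff.1 h1
      rw [hz]
      refine Subgroup.mem_zpowers_iff.2 ⟨n, ?_⟩
      have h4 := conj_zpow (a := (S.s e)⁻¹) (b := z) (i := n)
      rw [inv_inv] at h4
      rw [h4]
      group)
  refine ⟨w, m, hm, hne, Or.inl ⟨hl, hw, ?_⟩⟩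
  apply le_antisymm
  · rw [hz, Subgroup.zpowers_le]
    have h1 : (S.s e)⁻¹ * z * S.s e ∈ Subgroup.zpowers (w ^ m) := by
      rw [← hzw]
      exact Subgroup.mem_zpowers _
    obtain ⟨n, hn⟩ := Subgroup.mem_zpowers_iff.1 h1
    refine Subgroup.mem_zpowers_iff.2 ⟨n, ?_⟩
    rw [conj_zpow, hn]
    group
  · rw [Subgroup.zpowers_le, hz]
    have h1 : w ^ m ∈ Subgroup.zpowers ((S.s e)⁻¹ * z * S.s e) := by
      rw [hzw]
      exact Subgroup.mem_zpowers _
    obtain ⟨n, hn⟩ := Subgroup.mem_zpowers_iff.1 h1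
    refine Subgroup.mem_zpowers_iff.2 ⟨n, ?_⟩
    have h4 := conj_zpow (a := (S.s e)⁻¹) (b := z) (i := n)
    rw [inv_inv] at h4
    rw [← hn, h4]
    group

/-- An abelian leaf (at the first end of its edge) with cyclic edge group is a root leaf. -/
theorem root_a (h : Blk b Γ K F T ρ) {S : GG Γ} (hS : S.Adm) (e : S.E) (hne : S.a e ≠ S.b e)
    (hl : S.Leaf (S.a e) e) (hab : ¬ S.NA (S.a e)) {z : Γ} (hz : S.C e = Subgroup.zpowers z) :
    ∃ w m, RL S e w m := by
  have hnc : ∃ y z : Γ, y * z ≠ z * y := by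
    by_contra hcon
    push Not at hcon
    exact h.nab fun x y => hcon x y
  obtain ⟨hfi, _⟩ := lemX_adm h.hb h.cls.inj hnc S hS (S.a e) hab
  have hEG : EG S (S.a e) = Subgroup.zpowers z := by
    apply le_antisymm
    · unfold EG
      rw [Subgroup.closure_le]
      rintro c ⟨e', ⟨h1, h2⟩ | ⟨h1, d, h2, rfl⟩⟩
      · have h3 := hl e' (Or.inl h1)
        subst h3
        rw [hz] at h2
        exact h2
      · have h3 := hl e' (Or.inr h1)
        subst h3
        exact absurd h1.symm hne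
    · rw [Subgroup.zpowers_le]
      refine Subgroup.subset_closure ⟨e, Or.inl ⟨rfl, ?_⟩⟩
      rw [hz]
      exact Subgroup.mem_zpowers z
  obtain ⟨w, hw⟩ := cyc_of_fin (fun x n hn hx => FrTop.tf h.cls hn hx) (S.G (S.a e))
    (EG S (S.a e)) (not_not.1 hab) _ hEG hfi
  have hzC : z ∈ S.C e := by
    rw [hz]
    exact Subgroup.mem_zpowers z
  have hz1 : z ≠ 1 := by
    rintro rfl
    exact hS.ne e (by rw [hz, Subgroup.zpowers_one_eq_bot])
  obtain ⟨w, m, hm, hw, hzw⟩ := root_num z (S.G (S.a e)) w hw (S.Ca e hzC) hz1 (by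
      obtain ⟨g, hg, hg'⟩ := hS.nta e hne hl
      exact ⟨g, hg, by rwa [hz] at hg'⟩)
  exact ⟨w, m, hm, hne, Or.inr ⟨hl, hw, by rw [hz, hzw]⟩⟩

/-- A cyclic edge of a minimal splitting which is not a root leaf: the first end is non-abelian or it is
joined to a non-abelian vertex by another edge. -/
theorem smin_side_a (h : Blk b Γ K F T ρ) {S : GG Γ} (hS : Smin ρ S) (e : S.E) (hc : Cyc S e)
    (hr : ¬ ∃ w m, RL S e w m) :
    S.NA (S.a e) ∨ ∃ e', e' ≠ e ∧ ((S.a e' = S.a e ∧ S.NA (S.b e')) ∨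
      (S.b e' = S.a e ∧ S.NA (S.a e'))) := by
  have hT := tor_cls h.cls
  by_cases ha : S.NA (S.a e)
  · exact Or.inl ha
  right
  have hne : S.a e ≠ S.b e := fun h0 => ha (smin_loop hT hS e h0.symm)
  obtain ⟨z, hz⟩ := hc
  have hl : ¬ S.Leaf (S.a e) e := fun hl => hr (root_a h hS.1 e hne hl ha hz)
  unfold GG.Leaf at hl
  push Not at hl
  obtain ⟨e', h1, h2⟩ := hl
  refine ⟨e', h2, ?_⟩
  rcases h1 with h1 | h1
  · left
    refine ⟨h1, ?_⟩
    rcases smin_edge' hT hS e' with h3 | h3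
    · rw [h1] at h3
      exact absurd h3 ha
    · exact h3
  · right
    refine ⟨h1, ?_⟩
    rcases smin_edge' hT hS e' with h3 | h3
    · exact h3
    · rw [h1] at h3
      exact absurd h3 ha

/-- A cyclic edge of a minimal splitting which is not a root leaf: the second end is non-abelian or it
is joined to a non-abelian vertex by another edge. -/
theorem smin_side_b (h : Blk b Γ K F T ρ) {S : GG Γ} (hS : Smin ρ S) (e : S.E) (hc : Cyc S e)
    (hr : ¬ ∃ w m, RL S e w m) :
    S.NA (S.b e) ∨ ∃ e', e' ≠ e ∧ ((S.a e' = S.b e ∧ S.NA (S.b e')) ∨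
      (S.b e' = S.b e ∧ S.NA (S.a e'))) := by
  have hT := tor_cls h.cls
  by_cases ha : S.NA (S.b e)
  · exact Or.inl ha
  right
  have hne : S.a e ≠ S.b e := fun h0 => ha (by
    have := smin_loop hT hS e h0.symm
    rwa [h0] at this)
  obtain ⟨z, hz⟩ := hc
  have hl : ¬ S.Leaf (S.b e) e := fun hl => hr (root_b h hS.1 e hne hl ha hz)
  unfold GG.Leaf at hl
  push Not at hl
  obtain ⟨e', h1, h2⟩ := hl
  refine ⟨e', h2, ?_⟩
  rcases h1 with h1 | h1
  · left
    refine ⟨h1, ?_⟩
    rcases smin_edge' hT hS e' with h3 | h3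
    · rw [h1] at h3
      exact absurd h3 ha
    · exact h3
  · right
    refine ⟨h1, ?_⟩
    rcases smin_edge' hT hS e' with h3 | h3
    · exact h3
    · rw [h1] at h3
      exact absurd h3 ha

end root

end Pool.Agent.FrS
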