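import Pool.Agent.Lib.MP_305fdd_al.Fr.S.NsgFin

/-!
# MP_305fdd_al, F_r project, section SP: NSG, final form (see `NsgFin.lean`)
-/
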