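import Pool.Agent.Lib.MP_305fdd_al.Fr.S.Col

/-!
# MP_305fdd_al, F_r project, section SP: contraction of an edge preserves the universal property
-/

set_option autoImplicit false

namespace Pool.Agent.FrS

open Pool.Agent.FrN Matrix

namespace GG

variable {Γ : Type} [Group Γ]

section ctr

variable (S : GG Γ) (e₀ : S.E) (h0 : S.a e₀ ≠ S.b e₀)

/-- the vertex map of the contraction of `e₀` -/
def cφ (w : S.V) : (S.ctr e₀ h0).V := if h : w = S.b e₀ then ⟨S.a e₀, h0⟩ else ⟨w, h⟩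

/-- the section of the vertex map of the contraction of `e₀` -/
def cσ (w : (S.ctr e₀ h0).V) : S.V := w.1

/-- the edge of the contraction -/
def cE (e : S.E) (h : e ≠ e₀) : (S.ctr e₀ h0).E := ⟨e, h⟩

/-- the edge of the contraction as an edge of the splitting -/
def cF (e : (S.ctr e₀ h0).E) : S.E := e.1

/-- the coordinates for the contraction of `e₀` -/
def cτ (w : S.V) : Γ := if w = S.b e₀ then S.s e₀ else 1

theorem cσ_ne (w : (S.ctr e₀ h0).V) : S.cσ e₀ h0 w ≠ S.b e₀ := w.2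

theorem cF_ne (e : (S.ctr e₀ h0).E) : S.cF e₀ h0 e ≠ e₀ := e.2

theorem cF_cE (e : S.E) (h : e ≠ e₀) : S.cF e₀ h0 (S.cE e₀ h0 e h) = e := rfl

theorem cE_cF (e : (S.ctr e₀ h0).E) : S.cE e₀ h0 (S.cF e₀ h0 e) (S.cF_ne e₀ h0 e) = e := rfl

theorem cσ_inj {w w' : (S.ctr e₀ h0).V} (h : S.cσ e₀ h0 w = S.cσ e₀ h0 w') : w = w' :=
  Subtype.ext h

theorem cσ_cφ {w : S.V} (h : w ≠ S.b e₀) : S.cσ e₀ h0 (S.cφ e₀ h0 w) = w :=
  congrArg (fun x : {w : S.V // w ≠ S.b e₀} => x.1)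
    (dif_neg h : (if h : w = S.b e₀ then (⟨S.a e₀, h0⟩ : {w : S.V // w ≠ S.b e₀}) else ⟨w, h⟩) =
      ⟨w, h⟩)

theorem cσ_cφ_b : S.cσ e₀ h0 (S.cφ e₀ h0 (S.b e₀)) = S.a e₀ :=
  congrArg (fun x : {w : S.V // w ≠ S.b e₀} => x.1)
    (dif_pos rfl : (if h : S.b e₀ = S.b e₀ then (⟨S.a e₀, h0⟩ : {w : S.V // w ≠ S.b e₀}) else
      ⟨S.b e₀, h⟩) = ⟨S.a e₀, h0⟩)

theorem cφ_cσ (w : (S.ctr e₀ h0).V) : S.cφ e₀ h0 (S.cσ e₀ h0 w) = w :=
  S.cσ_inj e₀ h0 (S.cσ_cφ e₀ h0 (S.cσ_ne e₀ h0 w))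

theorem cφ_b : S.cφ e₀ h0 (S.b e₀) = S.cφ e₀ h0 (S.a e₀) := by
  apply S.cσ_inj e₀ h0
  rw [cσ_cφ_b, cσ_cφ _ _ _ h0]

theorem cφ_eq_iff {w w' : S.V} (h : w ≠ S.b e₀) (h' : w' ≠ S.b e₀) :
    S.cφ e₀ h0 w = S.cφ e₀ h0 w' ↔ w = w' := by
  constructor
  · intro hh
    have := congrArg (S.cσ e₀ h0) hh
    rwa [cσ_cφ _ _ _ h, cσ_cφ _ _ _ h'] at this
  · rintro rfl
    rfl

theorem cτ_ne {w : S.V} (h : w ≠ S.b e₀) : S.cτ e₀ w = 1 := if_neg h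

theorem cτ_b : S.cτ e₀ (S.b e₀) = S.s e₀ := if_pos rfl

theorem ctr_a (e : (S.ctr e₀ h0).E) :
    (S.ctr e₀ h0).a e = S.cφ e₀ h0 (S.a (S.cF e₀ h0 e)) := rfl

theorem ctr_b (e : (S.ctr e₀ h0).E) :
    (S.ctr e₀ h0).b e = S.cφ e₀ h0 (S.b (S.cF e₀ h0 e)) := rfl

theorem ctr_s (e : (S.ctr e₀ h0).E) :
    (S.ctr e₀ h0).s e = S.cτ e₀ (S.a (S.cF e₀ h0 e)) * S.s (S.cF e₀ h0 e) *
      (S.cτ e₀ (S.b (S.cF e₀ h0 e)))⁻¹ := by
  change (if S.a (S.cF e₀ h0 e) = S.b e₀ then S.s e₀ else 1) * S.s (S.cF e₀ h0 e) *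
    (if S.b (S.cF e₀ h0 e) = S.b e₀ then (S.s e₀)⁻¹ else 1) = _
  unfold cτ
  split_ifs <;> simp

theorem mem_ctr_C (e : (S.ctr e₀ h0).E) (x : Γ) :
    x ∈ (S.ctr e₀ h0).C e ↔ (S.cτ e₀ (S.a (S.cF e₀ h0 e)))⁻¹ * x *
      S.cτ e₀ (S.a (S.cF e₀ h0 e)) ∈ S.C (S.cF e₀ h0 e) := by
  change x ∈ (if S.a (S.cF e₀ h0 e) = S.b e₀ then
    (S.C (S.cF e₀ h0 e)).comap (MulAut.conj (S.s e₀)⁻¹).toMonoidHom
    else S.C (S.cF e₀ h0 e)) ↔ _
  unfold cτ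
  split_ifs
  · simp
  · simp

theorem ctr_G_ne {w : S.V} (h : w ≠ S.a e₀) (h' : w ≠ S.b e₀) :
    (S.ctr e₀ h0).G (S.cφ e₀ h0 w) = S.G w := by
  have h1 : S.cσ e₀ h0 (S.cφ e₀ h0 w) = w := S.cσ_cφ e₀ h0 h'
  change (if S.cσ e₀ h0 (S.cφ e₀ h0 w) = S.a e₀ then _ else S.G (S.cσ e₀ h0 (S.cφ e₀ h0 w))) = _
  rw [h1, if_neg h]

theorem ctr_G_a : (S.ctr e₀ h0).G (S.cφ e₀ h0 (S.a e₀)) =
    S.G (S.a e₀) ⊔ (S.G (S.b e₀)).comap (MulAut.conj (S.s e₀)⁻¹).toMonoidHom := by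
  have h1 : S.cσ e₀ h0 (S.cφ e₀ h0 (S.a e₀)) = S.a e₀ := S.cσ_cφ e₀ h0 h0
  change (if S.cσ e₀ h0 (S.cφ e₀ h0 (S.a e₀)) = S.a e₀ then _ else _) = _
  rw [if_pos h1]

theorem ctr_G_b : (S.ctr e₀ h0).G (S.cφ e₀ h0 (S.b e₀)) =
    S.G (S.a e₀) ⊔ (S.G (S.b e₀)).comap (MulAut.conj (S.s e₀)⁻¹).toMonoidHom := by
  rw [cφ_b, ctr_G_a]

theorem le_ctr_G (w : S.V) (x : Γ) (hx : x ∈ S.G w) :
    S.cτ e₀ w * x * (S.cτ e₀ w)⁻¹ ∈ (S.ctr e₀ h0).G (S.cφ e₀ h0 w) := by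
  by_cases h : w = S.b e₀
  · subst h
    rw [cτ_b, ctr_G_b]
    apply (le_sup_right : _ ≤ S.G (S.a e₀) ⊔ _)
    have h2 : (S.s e₀)⁻¹ * (S.s e₀ * x * (S.s e₀)⁻¹) * (S.s e₀)⁻¹⁻¹ = x := by group
    change (S.s e₀)⁻¹ * (S.s e₀ * x * (S.s e₀)⁻¹) * (S.s e₀)⁻¹⁻¹ ∈ S.G (S.b e₀)
    rw [h2]
    exact hx
  · rw [cτ_ne _ _ h]
    rw [one_mul, inv_one, mul_one]
    by_cases h' : w = S.a e₀
    · subst h'
      rw [ctr_G_a]
      exact (le_sup_left : S.G (S.a e₀) ≤ _) hx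
    · rw [ctr_G_ne _ _ _ h' h]
      exact hx

/-- the edge map of the contraction -/
def cε (e : S.E) : Option (S.ctr e₀ h0).E := if h : e = e₀ then none else some (S.cE e₀ h0 e h)

theorem cε_none {e : S.E} (h : S.cε e₀ h0 e = none) : e = e₀ := by
  unfold cε at h
  split_ifs at h with he
  exact he

theorem cε_some {e : S.E} {e' : (S.ctr e₀ h0).E} (h : S.cε e₀ h0 e = some e') :
    S.cF e₀ h0 e' = e := by
  unfold cε at h
  split_ifs at h with he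
  cases h
  rfl

theorem cε_self : S.cε e₀ h0 e₀ = none := dif_pos rfl

theorem cε_cF (e' : (S.ctr e₀ h0).E) : S.cε e₀ h0 (S.cF e₀ h0 e') = some e' :=
  dif_neg (S.cF_ne e₀ h0 e')

/-- The contraction of an edge with different ends is a collapse. -/
def colCtr : Col S (S.ctr e₀ h0) where
  φ := S.cφ e₀ h0
  τ := S.cτ e₀
  σ := S.cσ e₀ h0
  φσ w := S.cφ_cσ e₀ h0 w
  τσ w := S.cτ_ne e₀ (S.cσ_ne e₀ h0 w)
  ε := S.cε e₀ h0
  G w x hx := S.le_ctr_G e₀ h0 w x hx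
  Ea e e' h := by rw [← S.cε_some e₀ h0 h, ctr_a]
  Eb e e' h := by rw [← S.cε_some e₀ h0 h, ctr_b]
  Es e e' h := by rw [← S.cε_some e₀ h0 h, ctr_s]
  EC e e' h c hc := by
    rw [mem_ctr_C, S.cε_some e₀ h0 h]
    have h2 : ∀ t : Γ, t⁻¹ * (t * c * t⁻¹) * t = c := fun t => by group
    rw [h2]
    exact hc
  Na e h := by rw [S.cε_none e₀ h0 h, cφ_b]
  Ns e h := by
    rw [S.cε_none e₀ h0 h]
    rw [cτ_b, cτ_ne _ _ h0, one_mul, mul_inv_cancel]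
    exact Subgroup.one_mem _
  surjE e' := ⟨S.cF e₀ h0 e', S.cε_cF e₀ h0 e'⟩
  tree w hw := by
    have hb : w = S.b e₀ := by
      by_contra h
      exact hw (S.cσ_cφ e₀ h0 h).symm
    subst hb
    refine ⟨e₀, S.cε_self e₀ h0, ?_, rfl, ?_⟩
    · rw [cσ_cφ_b]
    · rw [cτ_b, cτ_ne _ _ h0, one_mul, mul_inv_cancel]
  genG w' x hx := by
    obtain ⟨w, rfl⟩ : ∃ w, S.cφ e₀ h0 w = w' := ⟨_, S.cφ_cσ e₀ h0 w'⟩
    have main : (S.ctr e₀ h0).G (S.cφ e₀ h0 w) ≤ Subgroup.closure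
          ({y | ∃ w', S.cφ e₀ h0 w' = S.cφ e₀ h0 w ∧
            ∃ x ∈ S.G w', y = S.cτ e₀ w' * x * (S.cτ e₀ w')⁻¹}) := by
      by_cases h : w = S.a e₀ ∨ w = S.b e₀
      · have hw : S.cφ e₀ h0 w = S.cφ e₀ h0 (S.a e₀) := by
          rcases h with rfl | rfl
          · rfl
          · exact S.cφ_b e₀ h0
        rw [hw, ctr_G_a]
        refine sup_le ?_ ?_
        · intro y hy
          refine Subgroup.subset_closure ⟨S.a e₀, rfl, y, hy, ?_⟩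
          rw [cτ_ne _ _ h0]
          group
        · intro y hy
          refine Subgroup.subset_closure
            ⟨S.b e₀, S.cφ_b e₀ h0, (S.s e₀)⁻¹ * y * (S.s e₀)⁻¹⁻¹, hy, ?_⟩
          rw [cτ_b]
          group
      · push Not at h
        rw [ctr_G_ne _ _ _ h.1 h.2]
        intro y hy
        refine Subgroup.subset_closure ⟨w, rfl, y, hy, ?_⟩
        rw [cτ_ne _ _ h.2]
        group
    exact Subgroup.closure_mono Set.subset_union_left (main hx)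

/-- THEOREM: contraction of an edge with different ends preserves the universal property. -/
theorem ctr_up (h : S.UP) : (S.ctr e₀ h0).UP := (S.colCtr e₀ h0).up h

end ctr

section ctrL

variable (S : GG Γ) (e₀ : S.E) (h0 : S.b e₀ = S.a e₀)

/-- the edge of the contraction of a loop -/
def lE (e : S.E) (h : e ≠ e₀) : (S.ctrL e₀).E := ⟨e, h⟩

/-- the edge of the contraction of a loop as an edge of the splitting -/
def lF (e : (S.ctrL e₀).E) : S.E := e.1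

/-- a vertex as a vertex of the contraction of a loop -/
def lV (w : S.V) : (S.ctrL e₀).V := w

/-- a vertex of the contraction of a loop as a vertex of the splitting -/
def lW (w : (S.ctrL e₀).V) : S.V := w

theorem lF_ne (e : (S.ctrL e₀).E) : S.lF e₀ e ≠ e₀ := e.2

theorem lV_lW (w : (S.ctrL e₀).V) : S.lV e₀ (S.lW e₀ w) = w := rfl

theorem lW_lV (w : S.V) : S.lW e₀ (S.lV e₀ w) = w := rfl

theorem ctrL_a (e : (S.ctrL e₀).E) : (S.ctrL e₀).a e = S.lV e₀ (S.a (S.lF e₀ e)) := rfl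

theorem ctrL_b (e : (S.ctrL e₀).E) : (S.ctrL e₀).b e = S.lV e₀ (S.b (S.lF e₀ e)) := rfl

theorem ctrL_s (e : (S.ctrL e₀).E) : (S.ctrL e₀).s e = S.s (S.lF e₀ e) := rfl

theorem ctrL_C (e : (S.ctrL e₀).E) : (S.ctrL e₀).C e = S.C (S.lF e₀ e) := rfl

theorem ctrL_G_ne {w : S.V} (h : w ≠ S.a e₀) : (S.ctrL e₀).G (S.lV e₀ w) = S.G w := by
  change (if w = S.a e₀ then S.G w ⊔ Subgroup.zpowers (S.s e₀) else S.G w) = _
  rw [if_neg h]

theorem ctrL_G_a : (S.ctrL e₀).G (S.lV e₀ (S.a e₀)) =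
    S.G (S.a e₀) ⊔ Subgroup.zpowers (S.s e₀) := by
  change (if S.a e₀ = S.a e₀ then S.G (S.a e₀) ⊔ Subgroup.zpowers (S.s e₀) else
    S.G (S.a e₀)) = _
  rw [if_pos rfl]

theorem le_ctrL_G (w : S.V) : S.G w ≤ (S.ctrL e₀).G (S.lV e₀ w) := by
  by_cases h : w = S.a e₀
  · subst h
    rw [ctrL_G_a]
    exact le_sup_left
  · rw [ctrL_G_ne _ _ h]

/-- the edge map of the contraction of a loop -/
def lε (e : S.E) : Option (S.ctrL e₀).E := if h : e = e₀ then none else some (S.lE e₀ e h)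

theorem lε_none {e : S.E} (h : S.lε e₀ e = none) : e = e₀ := by
  unfold lε at h
  split_ifs at h with he
  exact he

theorem lε_some {e : S.E} {e' : (S.ctrL e₀).E} (h : S.lε e₀ e = some e') : S.lF e₀ e' = e := by
  unfold lε at h
  split_ifs at h with he
  cases h
  rfl

theorem lε_self : S.lε e₀ e₀ = none := dif_pos rfl

theorem lε_lF (e' : (S.ctrL e₀).E) : S.lε e₀ (S.lF e₀ e') = some e' := dif_neg (S.lF_ne e₀ e')

include h0 in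
theorem lgen (w' : (S.ctrL e₀).V) : (S.ctrL e₀).G w' ≤ Subgroup.closure
    ({y | ∃ w, S.lV e₀ w = w' ∧ ∃ x ∈ S.G w, y = 1 * x * (1 : Γ)⁻¹} ∪
      {y | ∃ e, S.lε e₀ e = none ∧ S.a e = S.b e ∧ S.lV e₀ (S.a e) = w' ∧
        y = 1 * S.s e * (1 : Γ)⁻¹}) := by
  obtain ⟨w, rfl⟩ : ∃ w, S.lV e₀ w = w' := ⟨_, S.lV_lW e₀ w'⟩
  by_cases h : w = S.a e₀
  · subst h
    rw [ctrL_G_a]
    refine sup_le ?_ ?_
    · intro y hy
      refine Subgroup.subset_closure (Or.inl ⟨_, rfl, y, hy, ?_⟩)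
      group
    · rw [Subgroup.zpowers_le]
      refine Subgroup.subset_closure (Or.inr ⟨e₀, S.lε_self e₀, h0.symm, rfl, ?_⟩)
      group
  · rw [ctrL_G_ne _ _ h]
    intro y hy
    refine Subgroup.subset_closure (Or.inl ⟨_, rfl, y, hy, ?_⟩)
    group

/-- The contraction of a loop is a collapse. -/
def colCtrL : Col S (S.ctrL e₀) where
  φ := S.lV e₀
  τ _ := 1
  σ := S.lW e₀
  φσ w := S.lV_lW e₀ w
  τσ _ := rfl
  ε := S.lε e₀
  G w x hx := by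
    rw [one_mul, inv_one, mul_one]
    exact S.le_ctrL_G e₀ w hx
  Ea e e' h := by rw [← S.lε_some e₀ h, ctrL_a]
  Eb e e' h := by rw [← S.lε_some e₀ h, ctrL_b]
  Es e e' h := by rw [← S.lε_some e₀ h, ctrL_s, one_mul, inv_one, mul_one]
  EC e e' h c hc := by
    rw [ctrL_C, S.lε_some e₀ h, one_mul, inv_one, mul_one]
    exact hc
  Na e h := by rw [S.lε_none e₀ h, h0]
  Ns e h := by
    rw [S.lε_none e₀ h, ctrL_G_a, one_mul, inv_one, mul_one]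
    exact (le_sup_right : Subgroup.zpowers (S.s e₀) ≤ _) (Subgroup.mem_zpowers _)
  surjE e' := ⟨S.lF e₀ e', S.lε_lF e₀ e'⟩
  tree w hw := absurd (S.lW_lV e₀ w).symm hw
  genG w' x hx := S.lgen e₀ h0 w' hx

include h0 in
/-- THEOREM: contraction of a loop preserves the universal property. -/
theorem ctrL_up (h : S.UP) : (S.ctrL e₀).UP := (S.colCtrL e₀ h0).up h

end ctrL

end GG

end Pool.Agent.FrS
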