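import Pool.Agent.Lib.MP_305fdd_al.Fr.S.Defs

/-!
# MP_305fdd_al, F_r project, section SP: collapses of splittings preserve the universal property

`Col S S'`: `S'` is obtained from `S` by collapsing edges (`ε e = none`), by enlarging edge groups and
by changing the coordinates of the vertices (`τ`).  Theorem `Col.up`: the universal property passes
from `S` to `S'`.
-/

set_option autoImplicit false

namespace Pool.Agent.FrS

open Pool.Agent.FrN Matrix

namespace GG

variable {Γ : Type} [Group Γ]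

section fam

variable {S : GG Γ} {Q : Type} [Group Q]

theorem Fam.one (F : Fam S Q) (v : S.V) : F.r v 1 = 1 := by
  have h := F.mul v 1 (Subgroup.one_mem _) 1 (Subgroup.one_mem _)
  rw [one_mul] at h
  exact left_eq_mul.1 h

theorem Fam.inv (F : Fam S Q) (v : S.V) {x : Γ} (hx : x ∈ S.G v) : F.r v x⁻¹ = (F.r v x)⁻¹ := by
  have h := F.mul v x hx x⁻¹ (Subgroup.inv_mem _ hx)
  rw [mul_inv_cancel, F.one] at h
  exact (inv_eq_of_mul_eq_one_right h.symm).symm

end fam

/-- `S'` is a collapse of `S`. -/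
structure Col (S S' : GG Γ) where
  /-- the map on the vertices -/
  φ : S.V → S'.V
  /-- the coordinate of a vertex -/
  τ : S.V → Γ
  /-- a section of `φ` -/
  σ : S'.V → S.V
  φσ : ∀ w, φ (σ w) = w
  τσ : ∀ w, τ (σ w) = 1
  /-- the map on the edges, `none` for the collapsed ones -/
  ε : S.E → Option S'.E
  G : ∀ w, ∀ x ∈ S.G w, τ w * x * (τ w)⁻¹ ∈ S'.G (φ w)
  Ea : ∀ e e', ε e = some e' → S'.a e' = φ (S.a e)
  Eb : ∀ e e', ε e = some e' → S'.b e' = φ (S.b e)
  Es : ∀ e e', ε e = some e' → S'.s e' = τ (S.a e) * S.s e * (τ (S.b e))⁻¹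
  EC : ∀ e e', ε e = some e' → ∀ c ∈ S.C e, τ (S.a e) * c * (τ (S.a e))⁻¹ ∈ S'.C e'
  Na : ∀ e, ε e = none → φ (S.b e) = φ (S.a e)
  Ns : ∀ e, ε e = none → τ (S.a e) * S.s e * (τ (S.b e))⁻¹ ∈ S'.G (φ (S.a e))
  surjE : ∀ e', ∃ e, ε e = some e'
  tree : ∀ w, w ≠ σ (φ w) → ∃ e, ε e = none ∧ S.a e = σ (φ w) ∧ S.b e = w ∧
    τ (S.a e) * S.s e * (τ (S.b e))⁻¹ = 1
  genG : ∀ w', ∀ x ∈ S'.G w', x ∈ Subgroup.closure
    ({y | ∃ w, φ w = w' ∧ ∃ x ∈ S.G w, y = τ w * x * (τ w)⁻¹} ∪
      {y | ∃ e, ε e = none ∧ S.a e = S.b e ∧ φ (S.a e) = w' ∧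
        y = τ (S.a e) * S.s e * (τ (S.b e))⁻¹})

namespace Col

variable {S S' : GG Γ} (c : Col S S')

theorem pth {u v : S.V} {g : Γ} (h : S.Pth u v g) :
    S'.Pth (c.φ u) (c.φ v) (c.τ u * g * (c.τ v)⁻¹) := by
  induction h with
  | one => 
    rw [mul_one, mul_inv_cancel]
    exact Pth.one _
  | @grp v g x _ hx ih =>
    have h := Pth.grp ih (c.G v x hx)
    have e : c.τ u * g * (c.τ v)⁻¹ * (c.τ v * x * (c.τ v)⁻¹) = c.τ u * (g * x) * (c.τ v)⁻¹ := by
      group
    rwa [e] at h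
  | @fwd g e _ ih =>
    rcases hε : c.ε e with _ | e'
    · have h := Pth.grp ih (c.Ns e hε)
      rw [c.Na e hε]
      have e : c.τ u * g * (c.τ (S.a e))⁻¹ * (c.τ (S.a e) * S.s e * (c.τ (S.b e))⁻¹) =
          c.τ u * (g * S.s e) * (c.τ (S.b e))⁻¹ := by group
      rwa [e] at h
    · rw [← c.Ea e e' hε] at ih
      have h := Pth.fwd e' ih
      rw [c.Es e e' hε, c.Eb e e' hε] at h
      have e : c.τ u * g * (c.τ (S.a e))⁻¹ * (c.τ (S.a e) * S.s e * (c.τ (S.b e))⁻¹) =
          c.τ u * (g * S.s e) * (c.τ (S.b e))⁻¹ := by group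
      rwa [e] at h
  | @bwd g e _ ih =>
    rcases hε : c.ε e with _ | e'
    · rw [c.Na e hε] at ih
      have h := Pth.grp ih (Subgroup.inv_mem _ (c.Ns e hε))
      have e : c.τ u * g * (c.τ (S.b e))⁻¹ * (c.τ (S.a e) * S.s e * (c.τ (S.b e))⁻¹)⁻¹ =
          c.τ u * (g * (S.s e)⁻¹) * (c.τ (S.a e))⁻¹ := by group
      rwa [e] at h
    · rw [← c.Eb e e' hε] at ih
      have h := Pth.bwd e' ih
      rw [c.Es e e' hε, c.Ea e e' hε] at h
      have e : c.τ u * g * (c.τ (S.b e))⁻¹ * (c.τ (S.a e) * S.s e * (c.τ (S.b e))⁻¹)⁻¹ =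
          c.τ u * (g * (S.s e)⁻¹) * (c.τ (S.a e))⁻¹ := by group
      rwa [e] at h

/-- the family on `S` induced by a family on `S'` -/
def pull {Q : Type} [Group Q] (F : Fam S' Q) : Fam S Q where
  r w x := F.r (c.φ w) (c.τ w * x * (c.τ w)⁻¹)
  t e := (c.ε e).elim (F.r (c.φ (S.a e)) (c.τ (S.a e) * S.s e * (c.τ (S.b e))⁻¹)) F.t
  mul v x hx y hy := by
    rw [← F.mul _ _ (c.G v x hx) _ (c.G v y hy)]
    congr 1
    group
  cm e z hz := by
    rcases hε : c.ε e with _ | e'
    · simp only [Option.elim_none]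
      have h1 := c.Ns e hε
      have h2 := c.G _ _ (S.Cb e z hz)
      rw [c.Na e hε] at h2 ⊢
      rw [← F.inv _ h1, ← F.mul _ _ h1 _ h2, ← F.mul _ _ (Subgroup.mul_mem _ h1 h2) _
        (Subgroup.inv_mem _ h1)]
      congr 1
      group
    · simp only [Option.elim_some]
      have h1 := F.cm e' _ (c.EC e e' hε z hz)
      rw [c.Ea e e' hε, c.Eb e e' hε, c.Es e e' hε] at h1
      rw [h1]
      congr 3
      group

include c in
theorem up (h : S.UP) : S'.UP where
  gen u v g := by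
    have h1 := c.pth (h.gen (c.σ u) (c.σ v) g)
    rw [c.φσ, c.φσ, c.τσ, c.τσ] at h1
    simpa using h1
  ext R _ _ F := by
    obtain ⟨r, g, hv, he⟩ := h.ext R (c.pull F)
    have key : ∀ w, r (c.τ w) * g w = g (c.σ (c.φ w)) := by
      intro w
      by_cases hw : w = c.σ (c.φ w)
      · rw [← hw]
        rw [hw, c.τσ, map_one, one_mul]
      · obtain ⟨e, hε, hea, heb, hk⟩ := c.tree w hw
        have h1 := he e
        have h2 : (c.pull F).t e = 1 := by
          change (c.ε e).elim _ _ = _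
          rw [hε, Option.elim_none, hk]
          exact F.one _
        rw [h2, hea, heb] at h1
        rw [hea, heb, c.τσ, one_mul] at hk
        have h3 : S.s e = c.τ w := by
          rw [← mul_inv_eq_one]
          exact hk
        rw [h3, mul_assoc] at h1
        exact (eq_of_inv_mul_eq_one h1.symm).symm
    refine ⟨r, fun w' => g (c.σ w'), ?_, ?_⟩
    · intro w' x hx
      have hcl := c.genG w' x hx
      have hsub : ∀ y ∈ ({y | ∃ w, c.φ w = w' ∧ ∃ x ∈ S.G w, y = c.τ w * x * (c.τ w)⁻¹} ∪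
          {y | ∃ e, c.ε e = none ∧ S.a e = S.b e ∧ c.φ (S.a e) = w' ∧
          y = c.τ (S.a e) * S.s e * (c.τ (S.b e))⁻¹} : Set Γ), y ∈ S'.G w' := by
        rintro y (⟨w, rfl, x, hx, rfl⟩ | ⟨e, h1, h2, rfl, rfl⟩)
        · exact c.G w x hx
        · exact c.Ns e h1
      have hmem : ∀ y ∈ Subgroup.closure
          ({y | ∃ w, c.φ w = w' ∧ ∃ x ∈ S.G w, y = c.τ w * x * (c.τ w)⁻¹} ∪
          {y | ∃ e, c.ε e = none ∧ S.a e = S.b e ∧ c.φ (S.a e) = w' ∧
          y = c.τ (S.a e) * S.s e * (c.τ (S.b e))⁻¹}), y ∈ S'.G w' := by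
        intro y hy
        exact (Subgroup.closure_le _).2 hsub hy
      have hr : ∀ y ∈ Subgroup.closure
          ({y | ∃ w, c.φ w = w' ∧ ∃ x ∈ S.G w, y = c.τ w * x * (c.τ w)⁻¹} ∪
          {y | ∃ e, c.ε e = none ∧ S.a e = S.b e ∧ c.φ (S.a e) = w' ∧
          y = c.τ (S.a e) * S.s e * (c.τ (S.b e))⁻¹}),
          F.r w' y = (g (c.σ w'))⁻¹ * r y * g (c.σ w') := by
        intro y hy
        induction hy using Subgroup.closure_induction with
        | mem y hy =>
          rcases hy with ⟨w, rfl, z, hz, rfl⟩ | ⟨e, h1, h2, rfl, rfl⟩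
          · have h1 : F.r (c.φ w) (c.τ w * z * (c.τ w)⁻¹) = (g w)⁻¹ * r z * g w := hv w z hz
            rw [h1, ← key w]
            simp only [map_mul, map_inv]
            group
          · have h3 := he e
            have h4 : (c.pull F).t e =
                F.r (c.φ (S.a e)) (c.τ (S.a e) * S.s e * (c.τ (S.b e))⁻¹) := by
              change (c.ε e).elim _ _ = _
              rw [h1, Option.elim_none]
            rw [← h4, h3, ← key (S.a e)]
            simp only [map_mul, map_inv]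
            have h5 : c.τ (S.b e) = c.τ (S.a e) := by rw [h2]
            have h6 : g (S.b e) = g (S.a e) := by rw [h2]
            rw [h5, h6]
            group
        | one =>
          rw [F.one, map_one]
          group
        | mul y z hy hz ihy ihz =>
          rw [F.mul _ _ (hmem y hy) _ (hmem z hz), ihy, ihz, map_mul]
          group
        | inv y hy ihy =>
          rw [F.inv _ (hmem y hy), ihy, map_inv]
          group
      exact hr x hcl
    · intro e'
      obtain ⟨e, hε⟩ := c.surjE e'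
      have h1 := he e
      have h2 : (c.pull F).t e = F.t e' := by
        change (c.ε e).elim _ _ = _
        rw [hε, Option.elim_some]
      rw [h2] at h1
      rw [h1, c.Ea e e' hε, c.Eb e e' hε, c.Es e e' hε, ← key (S.a e), ← key (S.b e)]
      simp only [map_mul, map_inv]
      group

end Col

end GG

end Pool.Agent.FrS
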