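import Pool.Agent.Lib.MP_305fdd_al.Fr.S.Up

/-!
# MP_305fdd_al, F_r project, section SP: consequences of the universal property

`UP.leaf_b`, `UP.leaf_a`: the group of an abelian leaf meets the group of the other end of its edge in
the edge group only.  `UP.loop`: the letter of a loop is not in the vertex group.
-/

set_option autoImplicit false

namespace Pool.Agent.FrS

open Matrix (SpecialLinearGroup)

section diag

/-- the diagonal matrix with entries `u`, `u⁻¹` -/
def dgu {R : Type} [CommRing R] (u v : R) (h : u * v = 1) : SpecialLinearGroup (Fin 2) R :=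
  ⟨!![u, 0; 0, v], by rw [Matrix.det_fin_two_of]; rw [h]; ring⟩

theorem dgu_mul {R : Type} [CommRing R] (u v u' v' : R) (h : u * v = 1) (h' : u' * v' = 1)
    (h'' : u * u' * (v * v') = 1) : dgu (u * u') (v * v') h'' = dgu u v h * dgu u' v' h' := by
  apply Subtype.ext
  change !![u * u', 0; 0, v * v'] = !![u, 0; 0, v] * !![u', 0; 0, v']
  rw [Matrix.mul_fin_two]
  simp

theorem dgu_congr {R : Type} [CommRing R] {u v u' v' : R} {h : u * v = 1} {h' : u' * v' = 1}
    (hu : u = u') (hv : v = v') : dgu u v h = dgu u' v' h' := by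
  subst hu
  subst hv
  rfl

/-- the diagonal representation of a commutative group over its group algebra -/
noncomputable def dguHom (A : Type) [CommGroup A] :
    A →* SpecialLinearGroup (Fin 2) (MonoidAlgebra (ZMod 2) A) where
  toFun a := dgu (MonoidAlgebra.of (ZMod 2) A a) (MonoidAlgebra.of (ZMod 2) A a⁻¹)
    (by rw [← map_mul, mul_inv_cancel, map_one])
  map_one' := by
    apply Subtype.ext
    change !![MonoidAlgebra.of (ZMod 2) A 1, 0; 0, MonoidAlgebra.of (ZMod 2) A 1⁻¹] = 1
    rw [inv_one, map_one, Matrix.one_fin_two]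
  map_mul' a b := by
    rw [← dgu_mul _ _ _ _ _ _ (by
      rw [← map_mul, ← map_mul, ← map_mul, ← mul_inv, mul_inv_cancel, map_one])]
    exact dgu_congr (map_mul _ _ _) (by rw [← map_mul, mul_inv])

theorem dguHom_injective (A : Type) [CommGroup A] : Function.Injective (dguHom A) := by
  intro a b h
  have h1 := congrArg (fun M : SpecialLinearGroup (Fin 2) (MonoidAlgebra (ZMod 2) A) => M.1 0 0) h
  have h2 : MonoidAlgebra.of (ZMod 2) A a = MonoidAlgebra.of (ZMod 2) A b := h1
  exact MonoidAlgebra.of_injective h2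

end diag

/-- A subgroup `N` of a commutative subgroup `M` is the set of the elements which are trivial in some
representation over a commutative `F_2`-algebra. -/
theorem exists_sep {Γ : Type} [Group Γ] (M N : Subgroup Γ) (hM : ∀ x ∈ M, ∀ y ∈ M, x * y = y * x) :
    ∃ (R : Type) (_ : CommRing R) (_ : Algebra (ZMod 2) R)
      (r : Γ → SpecialLinearGroup (Fin 2) R), MulOn M r ∧ ∀ x ∈ M, r x = 1 ↔ x ∈ N := by
  classical
  let _ : CommGroup M := { (inferInstance : Group M) with
    mul_comm := fun x y => Subtype.ext (hM x.1 x.2 y.1 y.2) }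
  let A := M ⧸ (N.subgroupOf M)
  refine ⟨MonoidAlgebra (ZMod 2) A, inferInstance, inferInstance,
    fun x => if h : x ∈ M then dguHom A (QuotientGroup.mk' (N.subgroupOf M) ⟨x, h⟩) else 1, ?_, ?_⟩
  · intro x hx y hy
    dsimp only
    rw [dif_pos hx, dif_pos hy, dif_pos (M.mul_mem hx hy), ← map_mul, ← map_mul]
    rfl
  · intro x hx
    dsimp only
    rw [dif_pos hx, ← map_one (dguHom A), (dguHom_injective A).eq_iff]
    rw [QuotientGroup.mk'_apply, QuotientGroup.eq_one_iff, Subgroup.mem_subgroupOf]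

namespace GG

variable {Γ : Type} [Group Γ] {S : GG Γ}

/-- an abelian leaf at the second end of an edge -/
theorem UP.leaf_b (hS : S.UP) (e : S.E) (h0 : S.a e ≠ S.b e) (hl : S.Leaf (S.b e) e)
    (hab : ¬ S.NA (S.b e)) {g : Γ} (hg : g ∈ S.G (S.b e)) (hg' : S.s e * g * (S.s e)⁻¹ ∈ S.G (S.a e)) :
    S.s e * g * (S.s e)⁻¹ ∈ S.C e := by
  classical
  have hM := not_not.1 hab
  obtain ⟨R, _, _, r₀, hr, hr1⟩ := exists_sep (S.G (S.b e))
    ((S.C e).comap (MulAut.conj (S.s e)).toMonoidHom) hM
  let F : Fam S (SpecialLinearGroup (Fin 2) R) :=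
    { r := fun w x => if w = S.b e then r₀ x else 1
      t := fun _ => 1
      mul := by
        intro w x hx y hy
        by_cases h : w = S.b e
        · subst h
          simp only [if_true]
          exact hr x hx y hy
        · simp [h]
      cm := by
        intro e' c hc
        by_cases he : e' = e
        · subst he
          rw [if_neg h0, if_pos rfl, one_mul, inv_one, mul_one]
          refine ((hr1 _ (S.Cb e' c hc)).2 ?_).symm
          have h2 : S.s e' * ((S.s e')⁻¹ * c * S.s e') * (S.s e')⁻¹ = c := by group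
          change S.s e' * ((S.s e')⁻¹ * c * S.s e') * (S.s e')⁻¹ ∈ S.C e'
          rw [h2]
          exact hc
        · have ha : S.a e' ≠ S.b e := fun h => he (hl e' (Or.inl h))
          have hb : S.b e' ≠ S.b e := fun h => he (hl e' (Or.inr h))
          rw [if_neg ha, if_neg hb, one_mul, inv_one, mul_one] }
  obtain ⟨r, γ, hv, he⟩ := hS.ext R F
  have h1 := hv (S.a e) _ hg'
  have h2 : F.r (S.a e) (S.s e * g * (S.s e)⁻¹) = 1 := if_neg h0
  have h3 := hv (S.b e) g hg
  have h4 : F.r (S.b e) g = r₀ g := if_pos rfl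
  rw [h2] at h1
  rw [h4] at h3
  have h5 : r (S.s e * g * (S.s e)⁻¹) = 1 := by
    have : r (S.s e * g * (S.s e)⁻¹) = γ (S.a e) * ((γ (S.a e))⁻¹ * r (S.s e * g * (S.s e)⁻¹) *
      γ (S.a e)) * (γ (S.a e))⁻¹ := by group
    rw [this, ← h1]
    group
  have h6 : r g = 1 := by
    have : r g = (r (S.s e))⁻¹ * r (S.s e * g * (S.s e)⁻¹) * r (S.s e) := by
      simp only [map_mul, map_inv]
      group
    rw [this, h5]
    group
  rw [h6] at h3
  have h7 : r₀ g = 1 := by
    rw [h3]
    group
  exact (hr1 g hg).1 h7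

/-- an abelian leaf at the first end of an edge -/
theorem UP.leaf_a (hS : S.UP) (e : S.E) (h0 : S.a e ≠ S.b e) (hl : S.Leaf (S.a e) e)
    (hab : ¬ S.NA (S.a e)) {g : Γ} (hg : g ∈ S.G (S.a e)) (hg' : (S.s e)⁻¹ * g * S.s e ∈ S.G (S.b e)) :
    g ∈ S.C e := by
  classical
  have hM := not_not.1 hab
  obtain ⟨R, _, _, r₀, hr, hr1⟩ := exists_sep (S.G (S.a e)) (S.C e) hM
  let F : Fam S (SpecialLinearGroup (Fin 2) R) :=
    { r := fun w x => if w = S.a e then r₀ x else 1
      t := fun _ => 1
      mul := by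
        intro w x hx y hy
        by_cases h : w = S.a e
        · subst h
          simp only [if_true]
          exact hr x hx y hy
        · simp [h]
      cm := by
        intro e' c hc
        by_cases he : e' = e
        · subst he
          rw [if_pos rfl, if_neg h0.symm, one_mul, inv_one, mul_one]
          exact (hr1 _ (S.Ca e' hc)).2 hc
        · have ha : S.a e' ≠ S.a e := fun h => he (hl e' (Or.inl h))
          have hb : S.b e' ≠ S.a e := fun h => he (hl e' (Or.inr h))
          rw [if_neg ha, if_neg hb, one_mul, inv_one, mul_one] }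
  obtain ⟨r, γ, hv, he⟩ := hS.ext R F
  have h1 := hv (S.b e) _ hg'
  have h2 : F.r (S.b e) ((S.s e)⁻¹ * g * S.s e) = 1 := if_neg h0.symm
  have h3 := hv (S.a e) g hg
  have h4 : F.r (S.a e) g = r₀ g := if_pos rfl
  rw [h2] at h1
  rw [h4] at h3
  have h5 : r ((S.s e)⁻¹ * g * S.s e) = 1 := by
    have : r ((S.s e)⁻¹ * g * S.s e) = γ (S.b e) * ((γ (S.b e))⁻¹ * r ((S.s e)⁻¹ * g * S.s e) *
      γ (S.b e)) * (γ (S.b e))⁻¹ := by group
    rw [this, ← h1]
    group
  have h6 : r g = 1 := by
    have : r g = r (S.s e) * r ((S.s e)⁻¹ * g * S.s e) * (r (S.s e))⁻¹ := by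
      simp only [map_mul, map_inv]
      group
    rw [this, h5]
    group
  rw [h6] at h3
  have h7 : r₀ g = 1 := by
    rw [h3]
    group
  exact (hr1 g hg).1 h7

/-- a nontrivial element of `SL(2, F_2)` -/
def sw : SpecialLinearGroup (Fin 2) (ZMod 2) := ⟨!![0, 1; 1, 0], by decide⟩

theorem sw_ne : sw ≠ 1 := by
  intro h
  have h1 := congrArg (fun M : SpecialLinearGroup (Fin 2) (ZMod 2) => M.1 0 0) h
  simp [sw] at h1

/-- the letter of a loop is not in the vertex group -/
theorem UP.loop (hS : S.UP) (e : S.E) (h0 : S.b e = S.a e) : S.s e ∉ S.G (S.a e) := by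
  classical
  intro hs
  let F : Fam S (SpecialLinearGroup (Fin 2) (ZMod 2)) :=
    { r := fun _ _ => 1
      t := fun e' => if e' = e then sw else 1
      mul := by
        intro w x hx y hy
        rw [one_mul]
      cm := by
        intro e' c hc
        group }
  obtain ⟨r, γ, hv, he⟩ := hS.ext (ZMod 2) F
  have h1 := hv (S.a e) _ hs
  have h2 : F.r (S.a e) (S.s e) = 1 := rfl
  have h3 := he e
  have h4 : F.t e = sw := if_pos rfl
  rw [h2] at h1
  rw [h4, h0, ← h1] at h3
  exact sw_ne h3

end GG

end Pool.Agent.FrS
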