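import Pool.Agent.Lib.MP_305fdd_al.Fr.S.Ctr
import Pool.Agent.Lib.MP_305fdd_al.Fr.S.Inj

/-!
# MP_305fdd_al, F_r project, section SP: contractions of edges between abelian vertices

`ctr_adm`, `ctrL_adm`: admissibility is preserved.  `ctr_DD`, `ctrL_DD`: the measure `D` does not change.
-/

set_option autoImplicit false

namespace Pool.Agent.FrS

open Matrix (SpecialLinearGroup)

/-- Commuting is transitive on the nontrivial elements, and an element which commutes with one of its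
conjugates commutes with the conjugator. -/
structure Tor (Γ : Type) [Group Γ] : Prop where
  trans : ∀ x y z : Γ, y ≠ 1 → x * y = y * x → y * z = z * y → x * z = z * x
  conj : ∀ a g : Γ, g ≠ 1 → a⁻¹ * g * a * g = g * (a⁻¹ * g * a) → a * g = g * a

theorem fg_comap_conj {Γ : Type} [Group Γ] {H : Subgroup Γ} (h : H.FG) (k : Γ) :
    (H.comap (MulAut.conj k).toMonoidHom).FG := by
  classical
  obtain ⟨S, hS⟩ := h
  refine ⟨S.image fun x => k⁻¹ * x * k, ?_⟩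
  have h1 : H.comap (MulAut.conj k).toMonoidHom = H.map (MulAut.conj k⁻¹).toMonoidHom := by
    ext x
    rw [Subgroup.mem_comap, Subgroup.mem_map]
    constructor
    · intro hx
      refine ⟨_, hx, ?_⟩
      change k⁻¹ * (k * x * k⁻¹) * k⁻¹⁻¹ = x
      group
    · rintro ⟨y, hy, rfl⟩
      change k * (k⁻¹ * y * k⁻¹⁻¹) * k⁻¹ ∈ H
      have h2 : k * (k⁻¹ * y * k⁻¹⁻¹) * k⁻¹ = y := by group
      rwa [h2]
  rw [h1, ← hS, MonoidHom.map_closure]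
  congr 1
  ext x
  simp

theorem comm_closure {Γ : Type} [Group Γ] (X : Set Γ) (h : ∀ x ∈ X, ∀ y ∈ X, x * y = y * x) :
    ∀ x ∈ Subgroup.closure X, ∀ y ∈ Subgroup.closure X, x * y = y * x := by
  intro x hx y hy
  induction hx, hy using Subgroup.closure_induction₂ with
  | mem x y hx hy => exact h x hx y hy
  | one_left x _ => rw [one_mul, mul_one]
  | one_right x _ => rw [one_mul, mul_one]
  | mul_left x y z _ _ _ h1 h2 => rw [mul_assoc, h2, ← mul_assoc, h1, mul_assoc]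
  | mul_right x y z _ _ _ h1 h2 => rw [← mul_assoc, h1, mul_assoc, h2, mul_assoc]
  | inv_left x y _ _ h1 =>
    rw [inv_mul_eq_iff_eq_mul, ← mul_assoc, h1, mul_assoc, mul_inv_cancel, mul_one]
  | inv_right x y _ _ h1 =>
    rw [mul_inv_eq_iff_eq_mul, mul_assoc, h1, ← mul_assoc, inv_mul_cancel, one_mul]

theorem comm_sup {Γ : Type} [Group Γ] (H K : Subgroup Γ) (hH : ∀ x ∈ H, ∀ y ∈ H, x * y = y * x)
    (hK : ∀ x ∈ K, ∀ y ∈ K, x * y = y * x) (h : ∀ x ∈ H, ∀ y ∈ K, x * y = y * x) :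
    ∀ x ∈ H ⊔ K, ∀ y ∈ H ⊔ K, x * y = y * x := by
  rw [Subgroup.sup_eq_closure]
  refine comm_closure _ ?_
  rintro x (hx | hx) y (hy | hy)
  · exact hH x hx y hy
  · exact h x hx y hy
  · exact (h y hy x hx).symm
  · exact hK x hx y hy

namespace GG

variable {Γ : Type} [Group Γ]

section ctr

variable (S : GG Γ) (e₀ : S.E) (h0 : S.a e₀ ≠ S.b e₀)

/-- the group of the new vertex is abelian -/
theorem ctr_ab (hT : Tor Γ) (hne : S.C e₀ ≠ ⊥) (ha : ¬ S.NA (S.a e₀)) (hb : ¬ S.NA (S.b e₀)) :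
    ¬ (S.ctr e₀ h0).NA (S.cφ e₀ h0 (S.a e₀)) := by
  have hA := not_not.1 ha
  have hB := not_not.1 hb
  obtain ⟨c, hc1⟩ := (Subgroup.ne_bot_iff_exists_ne_one).1 hne
  refine not_not.2 ?_
  rw [ctr_G_a]
  have hcc : (c : Γ) ≠ 1 := fun h => hc1 (Subtype.ext h)
  have hB' : ∀ x ∈ (S.G (S.b e₀)).comap (MulAut.conj (S.s e₀)⁻¹).toMonoidHom,
      ∀ y ∈ (S.G (S.b e₀)).comap (MulAut.conj (S.s e₀)⁻¹).toMonoidHom, x * y = y * x := by
    intro x hx y hy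
    have h1 := hB _ hx _ hy
    change (S.s e₀)⁻¹ * x * (S.s e₀)⁻¹⁻¹ * ((S.s e₀)⁻¹ * y * (S.s e₀)⁻¹⁻¹) =
      (S.s e₀)⁻¹ * y * (S.s e₀)⁻¹⁻¹ * ((S.s e₀)⁻¹ * x * (S.s e₀)⁻¹⁻¹) at h1
    have h2 : x * y = S.s e₀ * ((S.s e₀)⁻¹ * x * (S.s e₀)⁻¹⁻¹ *
      ((S.s e₀)⁻¹ * y * (S.s e₀)⁻¹⁻¹)) * (S.s e₀)⁻¹ := by group
    rw [h2, h1]
    group
  have hcB : (c : Γ) ∈ (S.G (S.b e₀)).comap (MulAut.conj (S.s e₀)⁻¹).toMonoidHom := by
    have h1 := S.Cb e₀ c c.2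
    change (S.s e₀)⁻¹ * c * (S.s e₀)⁻¹⁻¹ ∈ S.G (S.b e₀)
    rwa [inv_inv]
  refine comm_sup _ _ hA hB' ?_
  intro x hx y hy
  exact hT.trans x c y hcc (hA x hx c (S.Ca e₀ c.2)) (hB' c hcB y hy)

theorem ctr_leaf_ne {w : S.V} {e : S.E} {e' : (S.ctr e₀ h0).E} (he : S.cF e₀ h0 e' = e)
    (hl : (S.ctr e₀ h0).Leaf (S.cφ e₀ h0 w) e') (ha : w ≠ S.a e₀) (hb : w ≠ S.b e₀) :
    S.Leaf w e := by
  intro e'' h
  by_cases h1 : e'' = e₀
  · subst h1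
    rcases h with h | h
    · exact absurd h.symm ha
    · exact absurd h.symm hb
  · have h2 := hl (S.cE e₀ h0 e'' h1) (by
      rw [ctr_a, ctr_b, cF_cE]
      exact h.imp (fun h => by rw [h]) (fun h => by rw [h]))
    rw [← he, ← h2, cF_cE]

/-- if the new vertex is a leaf, then the end of `e₀` which is not an end of its edge is a leaf -/
theorem ctr_leaf_new {w : S.V} {e : S.E} {e' : (S.ctr e₀ h0).E} (he : S.cF e₀ h0 e' = e)
    (hl : (S.ctr e₀ h0).Leaf (S.cφ e₀ h0 (S.a e₀)) e') (hw : w = S.a e₀ ∨ w = S.b e₀)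
    (ha : S.a e ≠ w) (hb : S.b e ≠ w) :
    S.Leaf w e₀ := by
  intro e'' h
  by_contra h1
  have hφ : S.cφ e₀ h0 w = S.cφ e₀ h0 (S.a e₀) := by
    rcases hw with rfl | rfl
    · rfl
    · exact S.cφ_b e₀ h0
  have h2 := hl (S.cE e₀ h0 e'' h1) (by
      rw [ctr_a, ctr_b, cF_cE]
      exact h.imp (fun h => by rw [h, hφ]) (fun h => by rw [h, hφ]))
  have h3 : e'' = e := by rw [← he, ← h2, cF_cE]
  subst h3
  rcases h with h | h
  · exact ha h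
  · exact hb h

theorem ctr_ntb (hS : S.Adm) (ha₀ : ¬ S.NA (S.a e₀)) (hb₀ : ¬ S.NA (S.b e₀))
    (e' : (S.ctr e₀ h0).E) (hne : (S.ctr e₀ h0).a e' ≠ (S.ctr e₀ h0).b e')
    (hl : (S.ctr e₀ h0).Leaf ((S.ctr e₀ h0).b e') e') :
    ∃ g ∈ (S.ctr e₀ h0).G ((S.ctr e₀ h0).b e'),
      (S.ctr e₀ h0).s e' * g * ((S.ctr e₀ h0).s e')⁻¹ ∉ (S.ctr e₀ h0).C e' := by
  by_contra hcon
  push Not at hcon
  obtain ⟨e, he⟩ : ∃ e, S.cF e₀ h0 e' = e := ⟨_, rfl⟩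
  have hee : e ≠ e₀ := he ▸ S.cF_ne e₀ h0 e'
  rw [ctr_a, ctr_b, he] at hne
  rw [ctr_b, he] at hl hcon
  -- elements of the vertex group
  have key : ∀ w, S.cφ e₀ h0 w = S.cφ e₀ h0 (S.b e) → ∀ g ∈ S.G w,
      S.s e * ((S.cτ e₀ (S.b e))⁻¹ * (S.cτ e₀ w * g * (S.cτ e₀ w)⁻¹) * S.cτ e₀ (S.b e)) *
        (S.s e)⁻¹ ∈ S.C e := by
    intro w hw g hg
    have h1 := S.le_ctr_G e₀ h0 w g hg
    rw [hw] at h1
    have h2 := hcon _ h1
    rw [mem_ctr_C, ctr_s, he] at h2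
    have h3 : (S.cτ e₀ (S.a e))⁻¹ * (S.cτ e₀ (S.a e) * S.s e * (S.cτ e₀ (S.b e))⁻¹ *
        (S.cτ e₀ w * g * (S.cτ e₀ w)⁻¹) * (S.cτ e₀ (S.a e) * S.s e * (S.cτ e₀ (S.b e))⁻¹)⁻¹) *
        S.cτ e₀ (S.a e) =
        S.s e * ((S.cτ e₀ (S.b e))⁻¹ * (S.cτ e₀ w * g * (S.cτ e₀ w)⁻¹) * S.cτ e₀ (S.b e)) *
        (S.s e)⁻¹ := by group
    rwa [h3] at h2
  have hab : S.a e ≠ S.b e := fun h => hne (by rw [h])
  by_cases h1 : S.b e = S.a e₀
  · -- the end is `a e₀`, and `b e₀` is a leaf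
    have h4 : S.a e ≠ S.b e₀ := fun h => hne (by rw [h, h1, cφ_b])
    have h5 : S.b e ≠ S.b e₀ := fun h => h0 (by rw [← h1, h])
    rw [h1] at hl
    have h6 := S.ctr_leaf_new e₀ h0 he hl (Or.inr rfl) h4 h5
    obtain ⟨g, hg, hg'⟩ := hS.ntb e₀ h0 h6
    have h7 := key (S.b e₀) (by rw [cφ_b, h1]) g hg
    rw [cτ_b, S.cτ_ne e₀ h5, inv_one, one_mul, mul_one] at h7
    have h8 := S.Cb e _ h7
    have h9 : (S.s e)⁻¹ * (S.s e * (S.s e₀ * g * (S.s e₀)⁻¹) * (S.s e)⁻¹) * S.s e =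
        S.s e₀ * g * (S.s e₀)⁻¹ := by group
    rw [h9, h1] at h8
    exact hg' (hS.leaf_b e₀ h0 h6 hb₀ hg h8)
  · by_cases h2 : S.b e = S.b e₀
    · have h4 : S.a e ≠ S.a e₀ := fun h => hne (by rw [h, h2, cφ_b])
      rw [h2, cφ_b] at hl
      have h6 := S.ctr_leaf_new e₀ h0 he hl (Or.inl rfl) h4 h1
      obtain ⟨g, hg, hg'⟩ := hS.nta e₀ h0 h6
      have h7 := key (S.a e₀) (by rw [h2, cφ_b]) g hg
      rw [h2, cτ_b, S.cτ_ne e₀ h0, inv_one, one_mul, mul_one] at h7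
      have h8 := S.Cb e _ h7
      have h9 : (S.s e)⁻¹ * (S.s e * ((S.s e₀)⁻¹ * g * S.s e₀) * (S.s e)⁻¹) * S.s e =
          (S.s e₀)⁻¹ * g * S.s e₀ := by group
      rw [h9, h2] at h8
      exact hg' (hS.leaf_a e₀ h0 h6 ha₀ hg h8)
    · have h6 := S.ctr_leaf_ne e₀ h0 he hl h1 h2
      obtain ⟨g, hg, hg'⟩ := hS.ntb e hab h6
      have h7 := key (S.b e) rfl g hg
      have h8 : S.s e * ((S.cτ e₀ (S.b e))⁻¹ * (S.cτ e₀ (S.b e) * g * (S.cτ e₀ (S.b e))⁻¹) *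
          S.cτ e₀ (S.b e)) * (S.s e)⁻¹ = S.s e * g * (S.s e)⁻¹ := by group
      rw [h8] at h7
      exact hg' h7

theorem ctr_nta (hS : S.Adm) (ha₀ : ¬ S.NA (S.a e₀)) (hb₀ : ¬ S.NA (S.b e₀))
    (e' : (S.ctr e₀ h0).E) (hne : (S.ctr e₀ h0).a e' ≠ (S.ctr e₀ h0).b e')
    (hl : (S.ctr e₀ h0).Leaf ((S.ctr e₀ h0).a e') e') :
    ∃ g ∈ (S.ctr e₀ h0).G ((S.ctr e₀ h0).a e'), g ∉ (S.ctr e₀ h0).C e' := by
  by_contra hcon
  push Not at hcon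
  obtain ⟨e, he⟩ : ∃ e, S.cF e₀ h0 e' = e := ⟨_, rfl⟩
  have hee : e ≠ e₀ := he ▸ S.cF_ne e₀ h0 e'
  rw [ctr_a, ctr_b, he] at hne
  rw [ctr_a, he] at hl hcon
  -- elements of the vertex group
  have key : ∀ w, S.cφ e₀ h0 w = S.cφ e₀ h0 (S.a e) → ∀ g ∈ S.G w,
      (S.cτ e₀ (S.a e))⁻¹ * (S.cτ e₀ w * g * (S.cτ e₀ w)⁻¹) * S.cτ e₀ (S.a e) ∈ S.C e := by
    intro w hw g hg
    have h1 := S.le_ctr_G e₀ h0 w g hg
    rw [hw] at h1
    have h2 := hcon _ h1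
    rwa [mem_ctr_C, he] at h2
  have hab : S.a e ≠ S.b e := fun h => hne (by rw [h])
  by_cases h1 : S.a e = S.a e₀
  · -- the end is `a e₀`, and `b e₀` is a leaf
    have h4 : S.b e ≠ S.b e₀ := fun h => hne (by rw [h, h1, cφ_b])
    have h5 : S.a e ≠ S.b e₀ := fun h => h0 (by rw [← h1, h])
    rw [h1] at hl
    have h6 := S.ctr_leaf_new e₀ h0 he hl (Or.inr rfl) h5 h4
    obtain ⟨g, hg, hg'⟩ := hS.ntb e₀ h0 h6
    have h7 := key (S.b e₀) (by rw [cφ_b, h1]) g hg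
    rw [cτ_b, S.cτ_ne e₀ h5, inv_one, one_mul, mul_one] at h7
    have h8 := S.Ca e h7
    rw [h1] at h8
    exact hg' (hS.leaf_b e₀ h0 h6 hb₀ hg h8)
  · by_cases h2 : S.a e = S.b e₀
    · have h4 : S.b e ≠ S.a e₀ := fun h => hne (by rw [h, h2, cφ_b])
      rw [h2, cφ_b] at hl
      have h6 := S.ctr_leaf_new e₀ h0 he hl (Or.inl rfl) h1 h4
      obtain ⟨g, hg, hg'⟩ := hS.nta e₀ h0 h6
      have h7 := key (S.a e₀) (by rw [h2, cφ_b]) g hg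
      rw [h2, cτ_b, S.cτ_ne e₀ h0, inv_one, one_mul, mul_one] at h7
      have h8 := S.Ca e h7
      rw [h2] at h8
      exact hg' (hS.leaf_a e₀ h0 h6 ha₀ hg h8)
    · have h6 := S.ctr_leaf_ne e₀ h0 he hl h1 h2
      obtain ⟨g, hg, hg'⟩ := hS.nta e hab h6
      have h7 := key (S.a e) rfl g hg
      have h8 : (S.cτ e₀ (S.a e))⁻¹ * (S.cτ e₀ (S.a e) * g * (S.cτ e₀ (S.a e))⁻¹) *
          S.cτ e₀ (S.a e) = g := by group
      rw [h8] at h7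
      exact hg' h7

theorem ctr_C_eq (e : (S.ctr e₀ h0).E) : (S.ctr e₀ h0).C e =
    (S.C (S.cF e₀ h0 e)).comap (MulAut.conj (S.cτ e₀ (S.a (S.cF e₀ h0 e)))⁻¹).toMonoidHom := by
  ext x
  rw [mem_ctr_C, Subgroup.mem_comap]
  change _ ↔ (S.cτ e₀ (S.a (S.cF e₀ h0 e)))⁻¹ * x * (S.cτ e₀ (S.a (S.cF e₀ h0 e)))⁻¹⁻¹ ∈ _
  rw [inv_inv]

/-- THEOREM: contraction of an edge between two abelian vertices preserves admissibility. -/
theorem ctr_adm (hS : S.Adm) (ha₀ : ¬ S.NA (S.a e₀)) (hb₀ : ¬ S.NA (S.b e₀)) :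
    (S.ctr e₀ h0).Adm where
  toUP := S.ctr_up e₀ h0 hS.toUP
  fgV w := by
    obtain ⟨v, rfl⟩ : ∃ v, S.cφ e₀ h0 v = w := ⟨_, S.cφ_cσ e₀ h0 w⟩
    by_cases h : v = S.a e₀ ∨ v = S.b e₀
    · have hw : S.cφ e₀ h0 v = S.cφ e₀ h0 (S.a e₀) := by
        rcases h with rfl | rfl
        · rfl
        · exact S.cφ_b e₀ h0
      rw [hw, ctr_G_a]
      exact (hS.fgV _).sup (fg_comap_conj (hS.fgV _) _)
    · push Not at h
      rw [ctr_G_ne _ _ _ h.1 h.2]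
      exact hS.fgV v
  fgE e := by
    rw [ctr_C_eq]
    exact fg_comap_conj (hS.fgE _) _
  ne e := by
    intro h
    obtain ⟨c, hc⟩ := (Subgroup.ne_bot_iff_exists_ne_one).1 (hS.ne (S.cF e₀ h0 e))
    have h1 : S.cτ e₀ (S.a (S.cF e₀ h0 e)) * c * (S.cτ e₀ (S.a (S.cF e₀ h0 e)))⁻¹ ∈
        (S.ctr e₀ h0).C e := by
      rw [mem_ctr_C]
      have h2 : (S.cτ e₀ (S.a (S.cF e₀ h0 e)))⁻¹ * (S.cτ e₀ (S.a (S.cF e₀ h0 e)) * c *
        (S.cτ e₀ (S.a (S.cF e₀ h0 e)))⁻¹) * S.cτ e₀ (S.a (S.cF e₀ h0 e)) = c := by group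
      rw [h2]
      exact c.2
    rw [h, Subgroup.mem_bot, mul_inv_eq_one, mul_eq_left] at h1
    exact hc (Subtype.ext h1)
  ab e x hx y hy := by
    rw [mem_ctr_C] at hx hy
    have h1 := hS.ab _ _ hx _ hy
    generalize S.cτ e₀ (S.a (S.cF e₀ h0 e)) = t at h1
    have h2 : x * y = t * (t⁻¹ * x * t * (t⁻¹ * y * t)) * t⁻¹ := by group
    rw [h2, h1]
    group
  ntb e' hne hl := S.ctr_ntb e₀ h0 hS ha₀ hb₀ e' hne hl
  nta e' hne hl := S.ctr_nta e₀ h0 hS ha₀ hb₀ e' hne hl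

section DD

variable {F : Type} [Field F] [Algebra (ZMod 2) F] (ρ : Γ →* SpecialLinearGroup (Fin 2) F)

omit [Algebra (ZMod 2) F] in
theorem tr_conj (k c : Γ) : tr ρ (k⁻¹ * c * k) = tr ρ c := by
  unfold tr
  rw [map_mul, map_mul, map_inv, Matrix.SpecialLinearGroup.coe_mul,
    Matrix.SpecialLinearGroup.coe_mul, Matrix.trace_mul_cycle,
    ← Matrix.SpecialLinearGroup.coe_mul, mul_inv_cancel, Matrix.SpecialLinearGroup.coe_one,
    one_mul]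

omit [Algebra (ZMod 2) F] in
theorem ctr_dv {w : S.V} (ha : w ≠ S.a e₀) (hb : w ≠ S.b e₀) :
    dv ρ (S.ctr e₀ h0) (S.cφ e₀ h0 w) = dv ρ S w := by
  unfold dv trs
  ext t
  constructor
  · rintro ⟨c, ⟨e', he', hc⟩, rfl⟩
    rw [ctr_a, ctr_b] at he'
    rw [mem_ctr_C] at hc
    refine ⟨_, ⟨S.cF e₀ h0 e', ?_, hc⟩, tr_conj ρ _ _⟩
    have key : ∀ u, S.cφ e₀ h0 u = S.cφ e₀ h0 w → u = w := by
      intro u hu
      by_cases h : u = S.b e₀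
      · subst h
        rw [cφ_b, cφ_eq_iff _ _ _ h0 hb] at hu
        exact absurd hu.symm ha
      · exact (S.cφ_eq_iff e₀ h0 h hb).1 hu
    exact he'.imp (key _) (key _)
  · rintro ⟨c, ⟨e, he, hc⟩, rfl⟩
    have hne : e ≠ e₀ := by
      rintro rfl
      rcases he with h | h
      · exact ha h.symm
      · exact hb h.symm
    refine ⟨S.cτ e₀ (S.a e) * c * (S.cτ e₀ (S.a e))⁻¹, ⟨S.cE e₀ h0 e hne, ?_, ?_⟩, ?_⟩
    · rw [ctr_a, ctr_b, cF_cE]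
      exact he.imp (fun h => by rw [h]) (fun h => by rw [h])
    · rw [mem_ctr_C, cF_cE]
      have h2 : (S.cτ e₀ (S.a e))⁻¹ * (S.cτ e₀ (S.a e) * c * (S.cτ e₀ (S.a e))⁻¹) *
        S.cτ e₀ (S.a e) = c := by group
      rwa [h2]
    · rw [← tr_conj ρ (S.cτ e₀ (S.a e))]
      congr 1
      group

/-- the measure does not change if an edge between abelian vertices is contracted -/
theorem ctr_DD (hT : Tor Γ) (hne : S.C e₀ ≠ ⊥) (ha₀ : ¬ S.NA (S.a e₀)) (hb₀ : ¬ S.NA (S.b e₀)) :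
    DD ρ (S.ctr e₀ h0) = DD ρ S := by
  classical
  unfold DD
  refine Finset.sum_of_injOn (S.cσ e₀ h0) ?_ ?_ ?_ ?_
  · intro x _ y _ h
    exact S.cσ_inj e₀ h0 h
  · intro x _
    exact Finset.mem_coe.2 (Finset.mem_univ _)
  · intro w _ hw
    have h1 : w = S.b e₀ := by
      by_contra h
      exact hw ⟨S.cφ e₀ h0 w, Finset.mem_coe.2 (Finset.mem_univ _), S.cσ_cφ e₀ h0 h⟩
    rw [h1, if_neg hb₀]
  · intro w' _
    obtain ⟨w, hw, rfl⟩ : ∃ w, w ≠ S.b e₀ ∧ S.cφ e₀ h0 w = w' :=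
      ⟨_, S.cσ_ne e₀ h0 w', S.cφ_cσ e₀ h0 w'⟩
    rw [S.cσ_cφ e₀ h0 hw]
    by_cases h : w = S.a e₀
    · subst h
      rw [if_neg ha₀, if_neg (S.ctr_ab e₀ h0 hT hne ha₀ hb₀)]
    · have h1 : (S.ctr e₀ h0).NA (S.cφ e₀ h0 w) ↔ S.NA w := by
        unfold NA
        rw [ctr_G_ne _ _ _ h hw]
      by_cases h2 : S.NA w
      · rw [if_pos h2, if_pos (h1.2 h2), ctr_dv _ _ _ _ h hw, ctr_G_ne _ _ _ h hw]
      · rw [if_neg h2, if_neg (fun h3 => h2 (h1.1 h3))]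

end DD

end ctr

section bs

variable {F : Type} [Field F] [Algebra (ZMod 2) F] (ρ : Γ →* SpecialLinearGroup (Fin 2) F)

/-- the trace ring grows under a collapse -/
theorem Col.BS_le {S S' : GG Γ} (c : Col S S') : BS ρ S ≤ BS ρ S' := by
  unfold BS
  refine Algebra.adjoin_le ?_
  rintro t ⟨x, ⟨v, hx⟩, rfl⟩
  refine Algebra.subset_adjoin ⟨c.τ v * x * (c.τ v)⁻¹, ⟨c.φ v, c.G v x hx⟩, ?_⟩
  rw [← tr_conj ρ (c.τ v)]
  congr 1
  group

/-- if there is one vertex only and no edge, then the vertex group is everything -/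
theorem UP.eq_top {S : GG Γ} (hS : S.UP) (hE : IsEmpty S.E) (v : S.V) : S.G v = ⊤ := by
  rw [eq_top_iff]
  intro x _
  have h : ∀ {w g}, S.Pth v w g → w = v ∧ g ∈ S.G v := by
    intro w g hp
    induction hp with
    | one => exact ⟨rfl, one_mem _⟩
    | grp _ hy ih =>
      obtain ⟨h1, h2⟩ := ih
      subst h1
      exact ⟨rfl, mul_mem h2 hy⟩
    | fwd e _ _ => exact hE.elim e
    | bwd e _ _ => exact hE.elim e
  exact (h (hS.gen v v x)).2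

end bs

section ctrL

variable (S : GG Γ) (e₀ : S.E) (h0 : S.b e₀ = S.a e₀)

include h0 in
/-- the group of the vertex is still abelian -/
theorem ctrL_ab (hT : Tor Γ) (hne : S.C e₀ ≠ ⊥) (ha : ¬ S.NA (S.a e₀)) :
    ¬ (S.ctrL e₀).NA (S.lV e₀ (S.a e₀)) := by
  have hA := not_not.1 ha
  obtain ⟨c, hc1⟩ := (Subgroup.ne_bot_iff_exists_ne_one).1 hne
  have hcc : (c : Γ) ≠ 1 := fun h => hc1 (Subtype.ext h)
  refine not_not.2 ?_
  rw [ctrL_G_a]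
  have hcx := S.Ca e₀ c.2
  have hcy := S.Cb e₀ c c.2
  rw [h0] at hcy
  have hsc : S.s e₀ * c = c * S.s e₀ := hT.conj _ _ hcc (hA _ hcy _ hcx)
  have hsg : ∀ g ∈ S.G (S.a e₀), g * S.s e₀ = S.s e₀ * g := by
    intro g hg
    exact hT.trans _ _ _ hcc (hA _ hg _ hcx) hsc.symm
  refine comm_sup _ _ hA ?_ ?_
  · rintro x ⟨m, rfl⟩ y ⟨n, rfl⟩
    change S.s e₀ ^ m * S.s e₀ ^ n = S.s e₀ ^ n * S.s e₀ ^ m
    rw [← zpow_add, ← zpow_add, add_comm]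
  · rintro x hx y ⟨n, rfl⟩
    exact (Commute.zpow_right (hsg x hx) n)

include h0 in
theorem ctrL_leaf_ne {w : S.V} {e : S.E} {e' : (S.ctrL e₀).E} (he : S.lF e₀ e' = e)
    (hl : (S.ctrL e₀).Leaf (S.lV e₀ w) e') (ha : w ≠ S.a e₀) : S.Leaf w e := by
  intro e'' h
  by_cases h1 : e'' = e₀
  · subst h1
    rcases h with h | h
    · exact absurd h.symm ha
    · exact absurd (h.symm.trans h0) ha
  · have h2 := hl (S.lE e₀ e'' h1) h
    rw [← he, ← h2]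
    rfl

include h0 in
/-- THEOREM: contraction of a loop at an abelian vertex preserves admissibility. -/
theorem ctrL_adm (hS : S.Adm) : (S.ctrL e₀).Adm where
  toUP := S.ctrL_up e₀ h0 hS.toUP
  fgV w := by
    obtain ⟨v, rfl⟩ : ∃ v, S.lV e₀ v = w := ⟨_, S.lV_lW e₀ w⟩
    by_cases h : v = S.a e₀
    · subst h
      rw [ctrL_G_a]
      refine (hS.fgV _).sup ⟨{S.s e₀}, ?_⟩
      rw [Finset.coe_singleton, Subgroup.zpowers_eq_closure]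
    · rw [ctrL_G_ne _ _ h]
      exact hS.fgV v
  fgE e := by
    rw [ctrL_C]
    exact hS.fgE _
  ne e := by
    rw [ctrL_C]
    exact hS.ne _
  ab e := by
    rw [ctrL_C]
    exact hS.ab _
  ntb e' hne hl := by
    by_contra hcon
    push Not at hcon
    obtain ⟨e, he⟩ : ∃ e, S.lF e₀ e' = e := ⟨_, rfl⟩
    rw [ctrL_a, ctrL_b, he] at hne
    rw [ctrL_b, he] at hl hcon
    rw [ctrL_s, ctrL_C, he] at hcon
    have hab : S.a e ≠ S.b e := fun h => hne (by rw [h])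
    by_cases h1 : S.b e = S.a e₀
    · have h2 : S.s e₀ ∈ (S.ctrL e₀).G (S.lV e₀ (S.b e)) := by
        rw [h1, ctrL_G_a]
        exact (le_sup_right : Subgroup.zpowers (S.s e₀) ≤ _) (Subgroup.mem_zpowers _)
      have h3 := S.Cb e _ (hcon _ h2)
      have h4 : (S.s e)⁻¹ * (S.s e * S.s e₀ * (S.s e)⁻¹) * S.s e = S.s e₀ := by group
      rw [h4, h1] at h3
      exact hS.loop e₀ h0 h3
    · obtain ⟨g, hg, hg'⟩ := hS.ntb e hab (S.ctrL_leaf_ne e₀ h0 he hl h1)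
      exact hg' (hcon g (S.le_ctrL_G e₀ _ hg))
  nta e' hne hl := by
    by_contra hcon
    push Not at hcon
    obtain ⟨e, he⟩ : ∃ e, S.lF e₀ e' = e := ⟨_, rfl⟩
    rw [ctrL_a, ctrL_b, he] at hne
    rw [ctrL_a, he] at hl hcon
    rw [ctrL_C, he] at hcon
    have hab : S.a e ≠ S.b e := fun h => hne (by rw [h])
    by_cases h1 : S.a e = S.a e₀
    · have h2 : S.s e₀ ∈ (S.ctrL e₀).G (S.lV e₀ (S.a e)) := by
        rw [h1, ctrL_G_a]
        exact (le_sup_right : Subgroup.zpowers (S.s e₀) ≤ _) (Subgroup.mem_zpowers _)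
      have h3 := S.Ca e (hcon _ h2)
      rw [h1] at h3
      exact hS.loop e₀ h0 h3
    · obtain ⟨g, hg, hg'⟩ := hS.nta e hab (S.ctrL_leaf_ne e₀ h0 he hl h1)
      exact hg' (hcon g (S.le_ctrL_G e₀ _ hg))

section DD

variable {F : Type} [Field F] [Algebra (ZMod 2) F] (ρ : Γ →* SpecialLinearGroup (Fin 2) F)

omit [Algebra (ZMod 2) F] in
include h0 in
theorem ctrL_dv {w : S.V} (ha : w ≠ S.a e₀) : dv ρ (S.ctrL e₀) (S.lV e₀ w) = dv ρ S w := by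
  unfold dv trs
  congr 1
  ext c
  constructor
  · rintro ⟨e', he', hc⟩
    exact ⟨S.lF e₀ e', he', hc⟩
  · rintro ⟨e, he, hc⟩
    have hne : e ≠ e₀ := by
      rintro rfl
      rcases he with h | h
      · exact ha h.symm
      · exact ha (h.symm.trans h0)
    exact ⟨S.lE e₀ e hne, he, hc⟩

include h0 in
/-- the measure does not change if a loop at an abelian vertex is contracted -/
theorem ctrL_DD (hT : Tor Γ) (hne : S.C e₀ ≠ ⊥) (ha₀ : ¬ S.NA (S.a e₀)) :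
    DD ρ (S.ctrL e₀) = DD ρ S := by
  classical
  unfold DD
  refine Finset.sum_of_injOn (S.lW e₀) ?_ ?_ ?_ ?_
  · intro x _ y _ h
    exact h
  · intro x _
    exact Finset.mem_coe.2 (Finset.mem_univ _)
  · intro w _ hw
    exact absurd ⟨S.lV e₀ w, Finset.mem_coe.2 (Finset.mem_univ _), rfl⟩ hw
  · intro w' _
    obtain ⟨w, rfl⟩ : ∃ w, S.lV e₀ w = w' := ⟨_, S.lV_lW e₀ w'⟩
    rw [lW_lV]
    by_cases h : w = S.a e₀
    · subst h
      rw [if_neg ha₀, if_neg (S.ctrL_ab e₀ h0 hT hne ha₀)]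
    · have h1 : (S.ctrL e₀).NA (S.lV e₀ w) ↔ S.NA w := by
        unfold NA
        rw [ctrL_G_ne _ _ h]
      by_cases h2 : S.NA w
      · rw [if_pos h2, if_pos (h1.2 h2), ctrL_dv _ _ h0 _ h, ctrL_G_ne _ _ h]
      · rw [if_neg h2, if_neg (fun h3 => h2 (h1.1 h3))]

end DD

end ctrL

end GG

end Pool.Agent.FrS
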