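import Pool.Agent.Lib.MP_305fdd_al.Fr.S.Inj
import Pool.Agent.Lib.MP_305fdd_al.Fr.Asm.Defs

/-!
# MP_305fdd_al, F_r project, section SP: an edge with trivial edge group gives a free decomposition
-/

set_option autoImplicit false

namespace Pool.Agent.FrS

open Matrix (SpecialLinearGroup)
open Pool.Agent.FrAsm

/-- extension of a homomorphism of a subgroup by `1` -/
noncomputable def ext1 {Γ Q : Type} [Group Γ] [Group Q] (A : Subgroup Γ) (f : A →* Q) (x : Γ) : Q :=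
  open Classical in if h : x ∈ A then f ⟨x, h⟩ else 1

theorem ext1_mem {Γ Q : Type} [Group Γ] [Group Q] {A : Subgroup Γ} (f : A →* Q) {x : Γ}
    (h : x ∈ A) : ext1 A f x = f ⟨x, h⟩ := dif_pos h

theorem ext1_mulOn {Γ Q : Type} [Group Γ] [Group Q] {A : Subgroup Γ} (f : A →* Q) :
    MulOn A (ext1 A f) := by
  intro x hx y hy
  rw [ext1_mem f hx, ext1_mem f hy, ext1_mem f (A.mul_mem hx hy), ← map_mul]
  rfl

namespace GG

variable {Γ : Type} [Group Γ] {S : GG Γ}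

/-- paths which avoid the edge `e₀` -/
inductive Pt (S : GG Γ) (e₀ : S.E) : S.V → S.V → Γ → Prop
  | one (v : S.V) : Pt S e₀ v v 1
  | grp {u v : S.V} {g x : Γ} : Pt S e₀ u v g → x ∈ S.G v → Pt S e₀ u v (g * x)
  | fwd {u : S.V} {g : Γ} (e : S.E) (h : e ≠ e₀) :
      Pt S e₀ u (S.a e) g → Pt S e₀ u (S.b e) (g * S.s e)
  | bwd {u : S.V} {g : Γ} (e : S.E) (h : e ≠ e₀) :
      Pt S e₀ u (S.b e) g → Pt S e₀ u (S.a e) (g * (S.s e)⁻¹)

variable {e₀ : S.E}

theorem Pt.trans {u v w : S.V} {g h : Γ} (h1 : S.Pt e₀ u v g) (h2 : S.Pt e₀ v w h) :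
    S.Pt e₀ u w (g * h) := by
  induction h2 with
  | one => rw [mul_one]; exact h1
  | grp _ hx ih => rw [← mul_assoc]; exact Pt.grp ih hx
  | fwd e he _ ih => rw [← mul_assoc]; exact Pt.fwd e he ih
  | bwd e he _ ih => rw [← mul_assoc]; exact Pt.bwd e he ih

theorem Pt.ofG {v : S.V} {x : Γ} (hx : x ∈ S.G v) : S.Pt e₀ v v x := by
  have h := Pt.grp (Pt.one (e₀ := e₀) v) hx
  rwa [one_mul] at h

theorem Pt.ofE (e : S.E) (he : e ≠ e₀) : S.Pt e₀ (S.a e) (S.b e) (S.s e) := by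
  have h := Pt.fwd e he (Pt.one (e₀ := e₀) (S.a e))
  rwa [one_mul] at h

theorem Pt.ofE' (e : S.E) (he : e ≠ e₀) : S.Pt e₀ (S.b e) (S.a e) (S.s e)⁻¹ := by
  have h := Pt.bwd e he (Pt.one (e₀ := e₀) (S.b e))
  rwa [one_mul] at h

theorem Pt.symm {u v : S.V} {g : Γ} (h1 : S.Pt e₀ u v g) : S.Pt e₀ v u g⁻¹ := by
  induction h1 with
  | one => rw [inv_one]; exact Pt.one _
  | grp _ hx ih => rw [mul_inv_rev]; exact (Pt.ofG (inv_mem hx)).trans ih
  | fwd e he _ ih => rw [mul_inv_rev]; exact (Pt.ofE' e he).trans ih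
  | bwd e he _ ih => rw [mul_inv_rev, inv_inv]; exact (Pt.ofE e he).trans ih

/-- the closed paths at `u` which avoid `e₀`, conjugated by `k` -/
def loopG (S : GG Γ) (e₀ : S.E) (u : S.V) (k : Γ) : Subgroup Γ where
  carrier := {g | S.Pt e₀ u u (k⁻¹ * g * k)}
  one_mem' := by
    have h : k⁻¹ * 1 * k = 1 := by group
    change S.Pt e₀ u u (k⁻¹ * 1 * k)
    rw [h]
    exact Pt.one _
  mul_mem' := by
    intro x y hx hy
    have h := Pt.trans hx hy
    have h2 : k⁻¹ * x * k * (k⁻¹ * y * k) = k⁻¹ * (x * y) * k := by group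
    change S.Pt e₀ u u (k⁻¹ * (x * y) * k)
    rwa [h2] at h
  inv_mem' := by
    intro x hx
    have h := Pt.symm hx
    have h2 : (k⁻¹ * x * k)⁻¹ = k⁻¹ * x⁻¹ * k := by group
    change S.Pt e₀ u u (k⁻¹ * x⁻¹ * k)
    rwa [h2] at h

theorem mem_loopG {u : S.V} {k g : Γ} : g ∈ S.loopG e₀ u k ↔ S.Pt e₀ u u (k⁻¹ * g * k) := Iff.rfl

/-- `k p q⁻¹ k⁻¹` for two paths with the same end -/
theorem loopG_mk {u v : S.V} {k p q : Γ} (hp : S.Pt e₀ u v p) (hq : S.Pt e₀ u v q) :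
    k * p * q⁻¹ * k⁻¹ ∈ S.loopG e₀ u k := by
  rw [mem_loopG]
  have h := hp.trans hq.symm
  have h2 : k⁻¹ * (k * p * q⁻¹ * k⁻¹) * k = p * q⁻¹ := by group
  rwa [h2]

/-- the family on the part of `S` which is reached from `u` without using `e₀`: value of the
representation on `x ∈ G v` -/
theorem fam_mul {Q : Type} [Group Q] {u v : S.V} {k h : Γ} (hh : S.Pt e₀ u v h) {α : Γ → Q}
    (hα : MulOn (S.loopG e₀ u k) α) {x y : Γ} (hx : x ∈ S.G v) (hy : y ∈ S.G v) :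
    α (k * h * (x * y) * h⁻¹ * k⁻¹) = α (k * h * x * h⁻¹ * k⁻¹) * α (k * h * y * h⁻¹ * k⁻¹) := by
  have m1 : k * h * x * h⁻¹ * k⁻¹ ∈ S.loopG e₀ u k := by
    have := loopG_mk (k := k) (hh.trans (Pt.ofG hx)) hh
    rwa [← mul_assoc] at this
  have m2 : k * h * y * h⁻¹ * k⁻¹ ∈ S.loopG e₀ u k := by
    have := loopG_mk (k := k) (hh.trans (Pt.ofG hy)) hh
    rwa [← mul_assoc] at this
  rw [← hα _ m1 _ m2]
  congr 1
  group

theorem loopG_x {u v : S.V} {k h : Γ} (hh : S.Pt e₀ u v h) {x : Γ} (hx : x ∈ S.G v) :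
    k * h * x * h⁻¹ * k⁻¹ ∈ S.loopG e₀ u k := by
  have := loopG_mk (k := k) (hh.trans (Pt.ofG hx)) hh
  rwa [← mul_assoc] at this

theorem loopG_s {u : S.V} {k h h' : Γ} {e : S.E} (he : e ≠ e₀) (hh : S.Pt e₀ u (S.a e) h)
    (hh' : S.Pt e₀ u (S.b e) h') : k * h * S.s e * h'⁻¹ * k⁻¹ ∈ S.loopG e₀ u k := by
  have := loopG_mk (k := k) (hh.trans (Pt.ofE e he)) hh'
  rwa [← mul_assoc] at this

theorem fam_cm {Q : Type} [Group Q] {u : S.V} {k h h' : Γ} {e : S.E} (he : e ≠ e₀)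
    (hh : S.Pt e₀ u (S.a e) h) (hh' : S.Pt e₀ u (S.b e) h') {α : Γ → Q}
    (hα : MulOn (S.loopG e₀ u k) α) {c : Γ} (hc : c ∈ S.C e) :
    α (k * h * c * h⁻¹ * k⁻¹) = α (k * h * S.s e * h'⁻¹ * k⁻¹) *
      α (k * h' * ((S.s e)⁻¹ * c * S.s e) * h'⁻¹ * k⁻¹) * (α (k * h * S.s e * h'⁻¹ * k⁻¹))⁻¹ := by
  have m1 := loopG_s (k := k) he hh hh'
  have m2 := loopG_x (k := k) hh' (S.Cb e c hc)
  rw [← hα.inv m1, ← hα _ m1 _ m2, ← hα _ (Subgroup.mul_mem _ m1 m2) _ (Subgroup.inv_mem _ m1)]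
  congr 1
  group

/-- the representation along a path which avoids `e₀` -/
theorem rep_path {Q : Type} [Group Q] {u : S.V} {k : Γ} {h : S.V → Γ} {P : S.V → Prop}
    (hP : ∀ v, P v → S.Pt e₀ u v (h v)) (hPe : ∀ e, e ≠ e₀ → (P (S.a e) ↔ P (S.b e)))
    {α : Γ → Q} (hα : MulOn (S.loopG e₀ u k) α) {r : Γ →* Q} {γ : S.V → Q}
    (hr : ∀ v, P v → ∀ x ∈ S.G v, r x = γ v * α (k * h v * x * (h v)⁻¹ * k⁻¹) * (γ v)⁻¹)
    (ht : ∀ e, e ≠ e₀ → P (S.a e) → r (S.s e) =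
      γ (S.a e) * α (k * h (S.a e) * S.s e * (h (S.b e))⁻¹ * k⁻¹) * (γ (S.b e))⁻¹)
    {v : S.V} {p : Γ} (hu : P u) (hk : r k = (γ u)⁻¹) (hhu : h u = 1) (hp : S.Pt e₀ u v p) :
    P v ∧ r (k * p) = α (k * p * (h v)⁻¹ * k⁻¹) * (γ v)⁻¹ := by
  induction hp with
  | one =>
    refine ⟨hu, ?_⟩
    have h1 : k * 1 * (h u)⁻¹ * k⁻¹ = 1 := by
      rw [hhu]
      group
    rw [h1, hα.one, one_mul, mul_one, hk]
  | @grp v p x hp hx ih =>
    refine ⟨ih.1, ?_⟩
    have m0 := loopG_mk (k := k) hp (hP v ih.1)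
    have m1 := loopG_x (k := k) (hP v ih.1) hx
    have e1 : k * (p * x) * (h v)⁻¹ * k⁻¹ =
        (k * p * (h v)⁻¹ * k⁻¹) * (k * h v * x * (h v)⁻¹ * k⁻¹) := by group
    rw [← mul_assoc, map_mul, ih.2, hr v ih.1 x hx, mul_assoc k p x, e1, hα _ m0 _ m1]
    group
  | @fwd p e he hp ih =>
    have hb := (hPe e he).1 ih.1
    refine ⟨hb, ?_⟩
    have m0 := loopG_mk (k := k) hp (hP _ ih.1)
    have m1 := loopG_s (k := k) he (hP _ ih.1) (hP _ hb)
    have e1 : k * p * S.s e * (h (S.b e))⁻¹ * k⁻¹ =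
        (k * p * (h (S.a e))⁻¹ * k⁻¹) * (k * h (S.a e) * S.s e * (h (S.b e))⁻¹ * k⁻¹) := by group
    rw [← mul_assoc, map_mul, ih.2, ht e he ih.1, e1, hα _ m0 _ m1]
    group
  | @bwd p e he hp ih =>
    have ha := (hPe e he).2 ih.1
    refine ⟨ha, ?_⟩
    have m0 := loopG_mk (k := k) hp (hP _ ih.1)
    have m1 := loopG_s (k := k) he (hP _ ha) (hP _ ih.1)
    have e1 : k * p * (S.s e)⁻¹ * (h (S.a e))⁻¹ * k⁻¹ =
        (k * p * (h (S.b e))⁻¹ * k⁻¹) * (k * h (S.a e) * S.s e * (h (S.b e))⁻¹ * k⁻¹)⁻¹ := by group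
    rw [← mul_assoc, map_mul, map_inv, ih.2, ht e he ha, e1,
      hα _ m0 _ (Subgroup.inv_mem _ m1), hα.inv m1]
    group

/-- the connected case -/
theorem dec_conn (hS : S.UP) (hC : S.C e₀ = ⊥) (hc : ∃ k, S.Pt e₀ (S.a e₀) (S.b e₀) k) :
    ∃ k, S.Pt e₀ (S.a e₀) (S.b e₀) k ∧
    FD Γ (S.loopG e₀ (S.a e₀) 1) (Subgroup.zpowers (S.s e₀ * k⁻¹)) ∧ S.s e₀ * k⁻¹ ≠ 1 := by
  classical
  obtain ⟨k, hk⟩ := hc
  have hall : ∀ v g, S.Pth (S.a e₀) v g → ∃ h, S.Pt e₀ (S.a e₀) v h := by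
    intro v g hp
    induction hp with
    | one => exact ⟨1, Pt.one _⟩
    | grp _ _ ih => exact ih
    | fwd e _ ih =>
      by_cases he : e = e₀
      · subst he
        exact ⟨k, hk⟩
      · obtain ⟨h, hh⟩ := ih
        exact ⟨_, Pt.fwd e he hh⟩
    | bwd e _ ih =>
      by_cases he : e = e₀
      · subst he
        exact ⟨1, Pt.one _⟩
      · obtain ⟨h, hh⟩ := ih
        exact ⟨_, Pt.bwd e he hh⟩
  have hall' : ∀ v, ∃ h, S.Pt e₀ (S.a e₀) v h := fun v => hall v 1 (hS.gen _ _ _)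
  choose h₁ hh₁ using hall'
  let h : S.V → Γ := fun v => if v = S.a e₀ then 1 else h₁ v
  have hh : ∀ v, S.Pt e₀ (S.a e₀) v (h v) := by
    intro v
    by_cases hv : v = S.a e₀
    · subst hv
      simp only [h, if_true]
      exact Pt.one _
    · simp only [h, if_neg hv]
      exact hh₁ v
  have ha1 : h (S.a e₀) = 1 := if_pos rfl
  clear_value h
  have gen : ∀ v g, S.Pth (S.a e₀) v g → g * (h v)⁻¹ ∈
      S.loopG e₀ (S.a e₀) 1 ⊔ Subgroup.zpowers (S.s e₀ * (h (S.b e₀))⁻¹) := by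
    intro v g hp
    induction hp with
    | one =>
      rw [ha1, inv_one, one_mul]
      exact Subgroup.one_mem _
    | @grp v p x _ hx ih =>
      have m1 := loopG_x (k := 1) (hh v) hx
      have e1 : p * x * (h v)⁻¹ = p * (h v)⁻¹ * (1 * h v * x * (h v)⁻¹ * 1⁻¹) := by group
      rw [e1]
      exact Subgroup.mul_mem _ ih ((le_sup_left : S.loopG e₀ (S.a e₀) 1 ≤ _) m1)
    | @fwd p e _ ih =>
      by_cases he : e = e₀
      · subst he
        rw [ha1, inv_one, mul_one] at ih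
        rw [mul_assoc]
        exact Subgroup.mul_mem _ ih
          ((le_sup_right : Subgroup.zpowers (S.s e * (h (S.b e))⁻¹) ≤ _) (Subgroup.mem_zpowers _))
      · have m1 := loopG_s (k := 1) he (hh _) (hh _)
        have e1 : p * S.s e * (h (S.b e))⁻¹ =
            p * (h (S.a e))⁻¹ * (1 * h (S.a e) * S.s e * (h (S.b e))⁻¹ * 1⁻¹) := by group
        rw [e1]
        exact Subgroup.mul_mem _ ih ((le_sup_left : S.loopG e₀ (S.a e₀) 1 ≤ _) m1)
    | @bwd p e _ ih =>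
      by_cases he : e = e₀
      · subst he
        rw [ha1, inv_one, mul_one]
        have e1 : p * (S.s e)⁻¹ = p * (h (S.b e))⁻¹ * (S.s e * (h (S.b e))⁻¹)⁻¹ := by group
        rw [e1]
        exact Subgroup.mul_mem _ ih (Subgroup.inv_mem _
          ((le_sup_right : Subgroup.zpowers (S.s e * (h (S.b e))⁻¹) ≤ _) (Subgroup.mem_zpowers _)))
      · have m1 := loopG_s (k := 1) he (hh _) (hh _)
        have e1 : p * (S.s e)⁻¹ * (h (S.a e))⁻¹ =
            p * (h (S.b e))⁻¹ * (1 * h (S.a e) * S.s e * (h (S.b e))⁻¹ * 1⁻¹)⁻¹ := by group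
        rw [e1]
        exact Subgroup.mul_mem _ ih (Subgroup.inv_mem _
          ((le_sup_left : S.loopG e₀ (S.a e₀) 1 ≤ _) m1))
  -- the main construction
  have main : ∀ (R : Type) [CommRing R] [Algebra (ZMod 2) R]
      (α : Γ → SpecialLinearGroup (Fin 2) R) (τ : SpecialLinearGroup (Fin 2) R),
      MulOn (S.loopG e₀ (S.a e₀) 1) α →
      ∃ r : Γ →* SpecialLinearGroup (Fin 2) R, (∀ x ∈ S.loopG e₀ (S.a e₀) 1, r x = α x) ∧
        r (S.s e₀ * (h (S.b e₀))⁻¹) = τ := by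
    intro R _ _ α τ hα
    let F : Fam S (SpecialLinearGroup (Fin 2) R) :=
      { r := fun v x => α (1 * h v * x * (h v)⁻¹ * 1⁻¹)
        t := fun e => if e = e₀ then τ else α (1 * h (S.a e) * S.s e * (h (S.b e))⁻¹ * 1⁻¹)
        mul := by
          intro v x hx y hy
          exact fam_mul (hh v) hα hx hy
        cm := by
          intro e c hc
          by_cases he : e = e₀
          · subst he
            rw [hC, Subgroup.mem_bot] at hc
            subst hc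
            have e1 : (1 : Γ) * h (S.a e) * 1 * (h (S.a e))⁻¹ * 1⁻¹ = 1 := by group
            have e2 : (1 : Γ) * h (S.b e) * ((S.s e)⁻¹ * 1 * S.s e) * (h (S.b e))⁻¹ * 1⁻¹ = 1 := by
              group
            rw [e1, e2, hα.one]
            group
          · rw [if_neg he]
            exact fam_cm he (hh _) (hh _) hα hc }
    obtain ⟨r, g, hv, he⟩ := hS.ext R F
    let r' : Γ →* SpecialLinearGroup (Fin 2) R :=
      (MulAut.conj (g (S.a e₀))⁻¹).toMonoidHom.comp r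
    have hr' : ∀ x, r' x = (g (S.a e₀))⁻¹ * r x * g (S.a e₀) := by
      intro x
      simp [r']
    let γ : S.V → SpecialLinearGroup (Fin 2) R := fun v => (g (S.a e₀))⁻¹ * g v
    have h1 : ∀ v, ∀ x ∈ S.G v, r' x = γ v * α (1 * h v * x * (h v)⁻¹ * 1⁻¹) * (γ v)⁻¹ := by
      intro v x hx
      have h2 : α (1 * h v * x * (h v)⁻¹ * 1⁻¹) = (g v)⁻¹ * r x * g v := hv v x hx
      rw [h2, hr']
      simp only [γ]
      group
    have h3 : ∀ e, e ≠ e₀ → r' (S.s e) =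
        γ (S.a e) * α (1 * h (S.a e) * S.s e * (h (S.b e))⁻¹ * 1⁻¹) * (γ (S.b e))⁻¹ := by
      intro e hee
      have h2 := he e
      have h4 : F.t e = α (1 * h (S.a e) * S.s e * (h (S.b e))⁻¹ * 1⁻¹) := if_neg hee
      rw [← h4, h2, hr']
      simp only [γ]
      group
    have hg : γ (S.a e₀) = 1 := by
      simp [γ]
    have path : ∀ v p, S.Pt e₀ (S.a e₀) v p →
        r' (1 * p) = α (1 * p * (h v)⁻¹ * 1⁻¹) * (γ v)⁻¹ := by
      intro v p hp
      exact (rep_path (k := 1) (P := fun _ => True) (h := h) (γ := γ) (r := r')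
        (fun v _ => hh v) (fun _ _ => Iff.rfl) hα (fun v _ => h1 v) (fun e hee _ => h3 e hee)
        trivial (by rw [map_one, hg, inv_one]) ha1 hp).2
    refine ⟨r', ?_, ?_⟩
    · intro x hx
      rw [mem_loopG, inv_one, one_mul, mul_one] at hx
      have h5 := path _ x hx
      simpa [ha1, hg] using h5
    · have h5 := path _ _ (hh (S.b e₀))
      have e1 : 1 * h (S.b e₀) * (h (S.b e₀))⁻¹ * 1⁻¹ = 1 := by group
      rw [e1, hα.one, one_mul, one_mul] at h5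
      have h6 := he e₀
      have h7 : F.t e₀ = τ := if_pos rfl
      rw [h7] at h6
      rw [map_mul, map_inv, h5, hr', h6]
      simp only [γ]
      group
  refine ⟨h (S.b e₀), hh _, ⟨?_, ?_⟩, ?_⟩
  · rw [eq_top_iff]
    intro x _
    have h1 := gen (S.a e₀) x (hS.gen _ _ _)
    rwa [ha1, inv_one, mul_one] at h1
  · intro R _ _ a c
    obtain ⟨r, h1, h2⟩ := main R (ext1 _ a) (c ⟨S.s e₀ * (h (S.b e₀))⁻¹, Subgroup.mem_zpowers _⟩)
      (ext1_mulOn a)
    refine ⟨r, ?_, ?_⟩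
    · intro x
      rw [h1 x.1 x.2, ext1_mem a x.2]
    · rintro ⟨x, n, rfl⟩
      change r ((S.s e₀ * (h (S.b e₀))⁻¹) ^ n) = _
      rw [map_zpow, h2, ← map_zpow]
      rfl
  · intro h1
    obtain ⟨r, _, h2⟩ := main (ZMod 2) (fun _ => 1) sw (fun _ _ _ _ => by rw [one_mul])
    rw [h1, map_one] at h2
    exact sw_ne h2.symm

/-- the disconnected case -/
theorem dec_disc (hS : S.UP) (hC : S.C e₀ = ⊥) (hc : ¬ ∃ k, S.Pt e₀ (S.a e₀) (S.b e₀) k) :
    FD Γ (S.loopG e₀ (S.a e₀) 1) (S.loopG e₀ (S.b e₀) (S.s e₀)) := by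
  classical
  let P1 : S.V → Prop := fun v => ∃ h, S.Pt e₀ (S.a e₀) v h
  let P2 : S.V → Prop := fun v => ∃ h, S.Pt e₀ (S.b e₀) v h
  have hP1 : ∀ e, e ≠ e₀ → (P1 (S.a e) ↔ P1 (S.b e)) := by
    intro e he
    exact ⟨fun ⟨h, hh⟩ => ⟨_, Pt.fwd e he hh⟩, fun ⟨h, hh⟩ => ⟨_, Pt.bwd e he hh⟩⟩
  have hP2 : ∀ e, e ≠ e₀ → (P2 (S.a e) ↔ P2 (S.b e)) := by
    intro e he
    exact ⟨fun ⟨h, hh⟩ => ⟨_, Pt.fwd e he hh⟩, fun ⟨h, hh⟩ => ⟨_, Pt.bwd e he hh⟩⟩
  have hall : ∀ v g, S.Pth (S.a e₀) v g → P1 v ∨ P2 v := by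
    intro v g hp
    induction hp with
    | one => exact Or.inl ⟨1, Pt.one _⟩
    | grp _ _ ih => exact ih
    | fwd e _ ih =>
      by_cases he : e = e₀
      · subst he
        exact Or.inr ⟨1, Pt.one _⟩
      · exact ih.imp (hP1 e he).1 (hP2 e he).1
    | bwd e _ ih =>
      by_cases he : e = e₀
      · subst he
        exact Or.inl ⟨1, Pt.one _⟩
      · exact ih.imp (hP1 e he).2 (hP2 e he).2
  have hall' : ∀ v, P1 v ∨ P2 v := fun v => hall v 1 (hS.gen _ _ _)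
  have hno : ∀ v, ¬ (P1 v ∧ P2 v) := by
    rintro v ⟨⟨h, hh⟩, ⟨h', hh'⟩⟩
    exact hc ⟨_, hh.trans hh'.symm⟩
  have h12 : ∀ v, ¬ P1 v ↔ P2 v := by
    intro v
    refine ⟨fun h => (hall' v).resolve_left h, fun h h' => hno v ⟨h', h⟩⟩
  have hex : ∀ v, ∃ h, (P1 v → S.Pt e₀ (S.a e₀) v h) ∧ (P2 v → S.Pt e₀ (S.b e₀) v h) ∧
      (v = S.a e₀ → h = 1) ∧ (v = S.b e₀ → h = 1) := by
    intro v
    by_cases hv : v = S.a e₀
    · subst hv
      have h1 : P1 (S.a e₀) := ⟨1, Pt.one _⟩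
      refine ⟨1, fun _ => Pt.one _, fun h2 => absurd ⟨h1, h2⟩ (hno _), fun _ => rfl, fun _ => rfl⟩
    · by_cases hv' : v = S.b e₀
      · subst hv'
        have h1 : P2 (S.b e₀) := ⟨1, Pt.one _⟩
        refine ⟨1, fun h2 => absurd ⟨h2, h1⟩ (hno _), fun _ => Pt.one _, fun _ => rfl, fun _ => rfl⟩
      · rcases hall' v with ⟨h, hh⟩ | ⟨h, hh⟩
        · exact ⟨h, fun _ => hh, fun h2 => absurd ⟨⟨h, hh⟩, h2⟩ (hno _), fun h => absurd h hv,
            fun h => absurd h hv'⟩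
        · exact ⟨h, fun h2 => absurd ⟨h2, ⟨h, hh⟩⟩ (hno _), fun _ => hh, fun h => absurd h hv,
            fun h => absurd h hv'⟩
  choose h h1 h2 h3 h4 using hex
  have ha1 : h (S.a e₀) = 1 := h3 _ rfl
  have hb1 : h (S.b e₀) = 1 := h4 _ rfl
  have p1a : P1 (S.a e₀) := ⟨1, Pt.one _⟩
  have p2b : P2 (S.b e₀) := ⟨1, Pt.one _⟩
  have gen : ∀ v g, S.Pth (S.a e₀) v g → (P1 v → g * (h v)⁻¹ ∈
      S.loopG e₀ (S.a e₀) 1 ⊔ S.loopG e₀ (S.b e₀) (S.s e₀)) ∧
      (P2 v → g * (h v)⁻¹ * (S.s e₀)⁻¹ ∈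
        S.loopG e₀ (S.a e₀) 1 ⊔ S.loopG e₀ (S.b e₀) (S.s e₀)) := by
    intro v g hp
    induction hp with
    | one =>
      refine ⟨fun _ => ?_, fun h5 => absurd ⟨p1a, h5⟩ (hno _)⟩
      rw [ha1, inv_one, one_mul]
      exact Subgroup.one_mem _
    | @grp v p x _ hx ih =>
      refine ⟨fun hv => ?_, fun hv => ?_⟩
      · have m1 := loopG_x (k := 1) (h1 v hv) hx
        have e1 : p * x * (h v)⁻¹ = p * (h v)⁻¹ * (1 * h v * x * (h v)⁻¹ * 1⁻¹) := by group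
        rw [e1]
        exact Subgroup.mul_mem _ (ih.1 hv)
          ((le_sup_left : S.loopG e₀ (S.a e₀) 1 ≤ S.loopG e₀ (S.a e₀) 1 ⊔ _) m1)
      · have m1 := loopG_x (k := S.s e₀) (h2 v hv) hx
        have e1 : p * x * (h v)⁻¹ * (S.s e₀)⁻¹ =
            p * (h v)⁻¹ * (S.s e₀)⁻¹ * (S.s e₀ * h v * x * (h v)⁻¹ * (S.s e₀)⁻¹) := by group
        rw [e1]
        exact Subgroup.mul_mem _ (ih.2 hv)
          ((le_sup_right : S.loopG e₀ (S.b e₀) (S.s e₀) ≤ _ ⊔ S.loopG e₀ (S.b e₀) (S.s e₀)) m1)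
    | @fwd p e _ ih =>
      by_cases he : e = e₀
      · subst he
        refine ⟨fun h5 => absurd ⟨h5, p2b⟩ (hno _), fun _ => ?_⟩
        have := ih.1 p1a
        rw [ha1, inv_one, mul_one] at this
        rw [hb1]
        have e1 : p * S.s e * 1⁻¹ * (S.s e)⁻¹ = p := by group
        rwa [e1]
      · refine ⟨fun hv => ?_, fun hv => ?_⟩
        · have hv' := (hP1 e he).2 hv
          have m1 := loopG_s (k := 1) he (h1 _ hv') (h1 _ hv)
          have e1 : p * S.s e * (h (S.b e))⁻¹ =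
              p * (h (S.a e))⁻¹ * (1 * h (S.a e) * S.s e * (h (S.b e))⁻¹ * 1⁻¹) := by group
          rw [e1]
          exact Subgroup.mul_mem _ (ih.1 hv')
            ((le_sup_left : S.loopG e₀ (S.a e₀) 1 ≤ S.loopG e₀ (S.a e₀) 1 ⊔ _) m1)
        · have hv' := (hP2 e he).2 hv
          have m1 := loopG_s (k := S.s e₀) he (h2 _ hv') (h2 _ hv)
          have e1 : p * S.s e * (h (S.b e))⁻¹ * (S.s e₀)⁻¹ = p * (h (S.a e))⁻¹ * (S.s e₀)⁻¹ *
              (S.s e₀ * h (S.a e) * S.s e * (h (S.b e))⁻¹ * (S.s e₀)⁻¹) := by group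
          rw [e1]
          exact Subgroup.mul_mem _ (ih.2 hv')
            ((le_sup_right : S.loopG e₀ (S.b e₀) (S.s e₀) ≤ _ ⊔ S.loopG e₀ (S.b e₀) (S.s e₀)) m1)
    | @bwd p e _ ih =>
      by_cases he : e = e₀
      · subst he
        refine ⟨fun _ => ?_, fun h5 => absurd ⟨p1a, h5⟩ (hno _)⟩
        have := ih.2 p2b
        rw [hb1, inv_one, mul_one] at this
        rwa [ha1, inv_one, mul_one]
      · refine ⟨fun hv => ?_, fun hv => ?_⟩
        · have hv' := (hP1 e he).1 hv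
          have m1 := loopG_s (k := 1) he (h1 _ hv) (h1 _ hv')
          have e1 : p * (S.s e)⁻¹ * (h (S.a e))⁻¹ =
              p * (h (S.b e))⁻¹ * (1 * h (S.a e) * S.s e * (h (S.b e))⁻¹ * 1⁻¹)⁻¹ := by group
          rw [e1]
          exact Subgroup.mul_mem _ (ih.1 hv') (Subgroup.inv_mem _
            ((le_sup_left : S.loopG e₀ (S.a e₀) 1 ≤ S.loopG e₀ (S.a e₀) 1 ⊔ _) m1))
        · have hv' := (hP2 e he).1 hv
          have m1 := loopG_s (k := S.s e₀) he (h2 _ hv) (h2 _ hv')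
          have e1 : p * (S.s e)⁻¹ * (h (S.a e))⁻¹ * (S.s e₀)⁻¹ = p * (h (S.b e))⁻¹ * (S.s e₀)⁻¹ *
              (S.s e₀ * h (S.a e) * S.s e * (h (S.b e))⁻¹ * (S.s e₀)⁻¹)⁻¹ := by group
          rw [e1]
          exact Subgroup.mul_mem _ (ih.2 hv') (Subgroup.inv_mem _
            ((le_sup_right : S.loopG e₀ (S.b e₀) (S.s e₀) ≤ _ ⊔ S.loopG e₀ (S.b e₀) (S.s e₀)) m1))
  refine ⟨?_, ?_⟩
  · rw [eq_top_iff]
    intro x _
    have h5 := (gen (S.a e₀) x (hS.gen _ _ _)).1 p1a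
    rwa [ha1, inv_one, mul_one] at h5
  · intro R _ _ a c
    have hα := ext1_mulOn a
    have hβ := ext1_mulOn c
    generalize hae : ext1 _ a = α at hα
    generalize hce : ext1 _ c = β at hβ
    let F : Fam S (SpecialLinearGroup (Fin 2) R) :=
      { r := fun v x => if P1 v then α (1 * h v * x * (h v)⁻¹ * 1⁻¹) else
          β (S.s e₀ * h v * x * (h v)⁻¹ * (S.s e₀)⁻¹)
        t := fun e => if e = e₀ then 1 else
          if P1 (S.a e) then α (1 * h (S.a e) * S.s e * (h (S.b e))⁻¹ * 1⁻¹) else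
            β (S.s e₀ * h (S.a e) * S.s e * (h (S.b e))⁻¹ * (S.s e₀)⁻¹)
        mul := by
          intro v x hx y hy
          by_cases hv : P1 v
          · simp only [if_pos hv]
            exact fam_mul (h1 v hv) hα hx hy
          · simp only [if_neg hv]
            exact fam_mul (h2 v ((h12 v).1 hv)) hβ hx hy
        cm := by
          intro e x hx
          by_cases he : e = e₀
          · subst he
            rw [hC, Subgroup.mem_bot] at hx
            subst hx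
            have q1 : P1 (S.a e) := p1a
            have q2 : ¬ P1 (S.b e) := (h12 _).2 p2b
            have e1 : (1 : Γ) * h (S.a e) * 1 * (h (S.a e))⁻¹ * 1⁻¹ = 1 := by group
            have e2 : S.s e * h (S.b e) * ((S.s e)⁻¹ * 1 * S.s e) * (h (S.b e))⁻¹ * (S.s e)⁻¹ = 1 := by
              group
            rw [if_pos q1, if_neg q2, e1, e2, hα.one, hβ.one]
            group
          · rw [if_neg he]
            by_cases hv : P1 (S.a e)
            · have hv' := (hP1 e he).1 hv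
              simp only [if_pos hv, if_pos hv']
              exact fam_cm he (h1 _ hv) (h1 _ hv') hα hx
            · have hv' : ¬ P1 (S.b e) := fun q => hv ((hP1 e he).2 q)
              simp only [if_neg hv, if_neg hv']
              exact fam_cm he (h2 _ ((h12 _).1 hv)) (h2 _ ((h12 _).1 hv')) hβ hx }
    obtain ⟨r, g, hv, he⟩ := hS.ext R F
    let r' : Γ →* SpecialLinearGroup (Fin 2) R :=
      (MulAut.conj (g (S.a e₀))⁻¹).toMonoidHom.comp r
    have hr' : ∀ x, r' x = (g (S.a e₀))⁻¹ * r x * g (S.a e₀) := by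
      intro x
      simp [r']
    let γ : S.V → SpecialLinearGroup (Fin 2) R := fun v => (g (S.a e₀))⁻¹ * g v
    have hg : γ (S.a e₀) = 1 := by
      simp [γ]
    have v1 : ∀ v, P1 v → ∀ x ∈ S.G v, r' x =
        γ v * α (1 * h v * x * (h v)⁻¹ * 1⁻¹) * (γ v)⁻¹ := by
      intro v q x hx
      have h5 : F.r v x = α (1 * h v * x * (h v)⁻¹ * 1⁻¹) := if_pos q
      rw [← h5, hv v x hx, hr']
      simp only [γ]
      group
    have v2 : ∀ v, P2 v → ∀ x ∈ S.G v, r' x =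
        γ v * β (S.s e₀ * h v * x * (h v)⁻¹ * (S.s e₀)⁻¹) * (γ v)⁻¹ := by
      intro v q x hx
      have h5 : F.r v x = β (S.s e₀ * h v * x * (h v)⁻¹ * (S.s e₀)⁻¹) := if_neg ((h12 v).2 q)
      rw [← h5, hv v x hx, hr']
      simp only [γ]
      group
    have t1 : ∀ e, e ≠ e₀ → P1 (S.a e) → r' (S.s e) =
        γ (S.a e) * α (1 * h (S.a e) * S.s e * (h (S.b e))⁻¹ * 1⁻¹) * (γ (S.b e))⁻¹ := by
      intro e hee q
      have h5 : F.t e = α (1 * h (S.a e) * S.s e * (h (S.b e))⁻¹ * 1⁻¹) := by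
        change (if e = e₀ then _ else if P1 (S.a e) then _ else _) = _
        rw [if_neg hee, if_pos q]
      rw [← h5, he e, hr']
      simp only [γ]
      group
    have t2 : ∀ e, e ≠ e₀ → P2 (S.a e) → r' (S.s e) =
        γ (S.a e) * β (S.s e₀ * h (S.a e) * S.s e * (h (S.b e))⁻¹ * (S.s e₀)⁻¹) *
          (γ (S.b e))⁻¹ := by
      intro e hee q
      have h5 : F.t e = β (S.s e₀ * h (S.a e) * S.s e * (h (S.b e))⁻¹ * (S.s e₀)⁻¹) := by
        change (if e = e₀ then _ else if P1 (S.a e) then _ else _) = _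
        rw [if_neg hee, if_neg ((h12 _).2 q)]
      rw [← h5, he e, hr']
      simp only [γ]
      group
    have t0 : r' (S.s e₀) = (γ (S.b e₀))⁻¹ := by
      have h5 : F.t e₀ = 1 := if_pos rfl
      have h6 := he e₀
      rw [h5] at h6
      rw [hr']
      simp only [γ]
      have h7 : (g (S.a e₀))⁻¹ * r (S.s e₀) = (g (S.b e₀))⁻¹ := eq_inv_of_mul_eq_one_left h6.symm
      rw [h7, mul_inv_rev, inv_inv]
    refine ⟨r', ?_, ?_⟩
    · rintro ⟨x, hx⟩
      have hx0 := hx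
      rw [mem_loopG, inv_one, one_mul, mul_one] at hx
      have h5 := (rep_path (k := 1) (P := P1) (h := h) (γ := γ) (r := r')
        h1 hP1 hα v1 t1 p1a (by rw [map_one, hg, inv_one]) ha1 hx).2
      rw [ha1, hg] at h5
      have h6 : ext1 _ a x = a ⟨x, hx0⟩ := ext1_mem a hx0
      rw [← h6, hae]
      simpa using h5
    · rintro ⟨x, hx⟩
      have hx0 := hx
      rw [mem_loopG] at hx
      have h5 := (rep_path (k := S.s e₀) (P := P2) (h := h) (γ := γ) (r := r')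
        h2 hP2 hβ v2 t2 p2b t0 hb1 hx).2
      have h6 : ext1 _ c x = c ⟨x, hx0⟩ := ext1_mem c hx0
      have e1 : S.s e₀ * ((S.s e₀)⁻¹ * x * S.s e₀) = x * S.s e₀ := by group
      rw [e1, hb1] at h5
      have e2 : x * S.s e₀ * 1⁻¹ * (S.s e₀)⁻¹ = x := by group
      rw [e2, map_mul, ← t0] at h5
      rw [← h6, hce]
      exact mul_right_cancel h5

/-- THEOREM (DEC): if an edge group is trivial and the groups at its ends are not, then `Γ` has a
nontrivial free decomposition (as far as representations are concerned). -/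
theorem UP.dec (hS : S.UP) (hC : S.C e₀ = ⊥) (ha : S.G (S.a e₀) ≠ ⊥) (hb : S.G (S.b e₀) ≠ ⊥) :
    ∃ A C : Subgroup Γ, FD Γ A C ∧ A ≠ ⊥ ∧ C ≠ ⊥ := by
  have hA : S.loopG e₀ (S.a e₀) 1 ≠ ⊥ := by
    intro h
    apply ha
    rw [eq_bot_iff, ← h]
    intro x hx
    rw [mem_loopG]
    have e1 : (1 : Γ)⁻¹ * x * 1 = x := by group
    rw [e1]
    exact Pt.ofG hx
  by_cases hc : ∃ k, S.Pt e₀ (S.a e₀) (S.b e₀) k
  · obtain ⟨k, _, h1, h2⟩ := dec_conn hS hC hc
    refine ⟨_, _, h1, hA, ?_⟩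
    intro h
    exact h2 (Subgroup.zpowers_eq_bot.1 h)
  · refine ⟨_, _, dec_disc hS hC hc, hA, ?_⟩
    intro h
    apply hb
    rw [eq_bot_iff]
    intro x hx
    have h1 : S.s e₀ * x * (S.s e₀)⁻¹ ∈ S.loopG e₀ (S.b e₀) (S.s e₀) := by
      rw [mem_loopG]
      have e1 : (S.s e₀)⁻¹ * (S.s e₀ * x * (S.s e₀)⁻¹) * S.s e₀ = x := by group
      rw [e1]
      exact Pt.ofG hx
    rw [h, Subgroup.mem_bot] at h1
    rw [Subgroup.mem_bot]
    have e2 : x = (S.s e₀)⁻¹ * (S.s e₀ * x * (S.s e₀)⁻¹) * S.s e₀ := by group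
    rw [e2, h1]
    group

/-- the free indecomposability excludes trivial edge groups -/
theorem UP.ne_bot (hS : S.UP) (hF : FI Γ) (e : S.E) (ha : S.G (S.a e) ≠ ⊥)
    (hb : S.G (S.b e) ≠ ⊥) : S.C e ≠ ⊥ := by
  intro hC
  obtain ⟨A, C, h1, h2, h3⟩ := hS.dec hC ha hb
  rcases hF A C h1 with h | h
  · exact h2 h
  · exact h3 h

end GG

end Pool.Agent.FrS
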