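import Pool.Agent.Lib.MP_305fdd_al.Fr.S.Move

/-!
# MP_305fdd_al, F_r project, section SP: the measure drops
-/

set_option autoImplicit false

namespace Pool.Agent.FrS

open Matrix (SpecialLinearGroup)
open Pool.Agent.FrN Pool.Agent.FrAsm

section

variable {Γ F : Type} [Group Γ] [Field F] [Algebra (ZMod 2) F]
  {ρ : Γ →* SpecialLinearGroup (Fin 2) F}

/-- the edge traces at the other vertices do not change -/
theorem dv_refA_some {S : GG Γ} {v : S.V} (d : S.RefA v) {w : S.V} (hw : w ≠ v) :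
    dv ρ (S.refA v d) (some w) = dv ρ S w := by
  ext z
  constructor
  · rintro ⟨c, ⟨e, he, hc⟩, rfl⟩
    cases e with
    | none =>
      exfalso
      rcases he with he | he
      · exact hw (Option.some_injective _ he).symm
      · exact Option.some_ne_none _ he.symm
    | some e =>
      have hc' : d.ka e * c * (d.ka e)⁻¹ ∈ S.C e := hc
      refine ⟨_, ⟨e, ?_, hc'⟩, tr_cj' _ _⟩
      rcases he with he | he
      · left
        change (if S.a e = v ∧ d.pa e = true then none else some (S.a e)) = some w at he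
        split_ifs at he with h1
        exact Option.some_injective _ he
      · right
        change (if S.b e = v ∧ d.pb e = true then none else some (S.b e)) = some w at he
        split_ifs at he with h1
        exact Option.some_injective _ he
  · rintro ⟨c, ⟨e, he, hc⟩, rfl⟩
    refine ⟨(d.ka e)⁻¹ * c * d.ka e, ⟨some e, ?_, ?_⟩, tr_cj _ _⟩
    · rcases he with he | he
      · left
        change (if S.a e = v ∧ d.pa e = true then none else some (S.a e)) = some w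
        rw [if_neg (fun h => hw (he ▸ h.1)), he]
      · right
        change (if S.b e = v ∧ d.pb e = true then none else some (S.b e)) = some w
        rw [if_neg (fun h => hw (he ▸ h.1)), he]
    · change d.ka e * ((d.ka e)⁻¹ * c * d.ka e) * (d.ka e)⁻¹ ∈ S.C e
      have h : d.ka e * ((d.ka e)⁻¹ * c * d.ka e) * (d.ka e)⁻¹ = c := by group
      rw [h]
      exact hc

/-- every edge at `v` is attached to one of the two new vertices -/
theorem dv_refA_le {S : GG Γ} {v : S.V} (d : S.RefA v) :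
    dv ρ S v ⊆ dv ρ (S.refA v d) (some v) ∪ dv ρ (S.refA v d) none := by
  rintro _ ⟨c, ⟨e, he, hc⟩, rfl⟩
  have hc' : (d.ka e)⁻¹ * c * d.ka e ∈ (S.refA v d).C (some e) := by
    change d.ka e * ((d.ka e)⁻¹ * c * d.ka e) * (d.ka e)⁻¹ ∈ S.C e
    have h : d.ka e * ((d.ka e)⁻¹ * c * d.ka e) * (d.ka e)⁻¹ = c := by group
    rw [h]
    exact hc
  have h1 : tr ρ ((d.ka e)⁻¹ * c * d.ka e) = tr ρ c := tr_cj _ _
  rcases he with he | he
  · by_cases hp : d.pa e = true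
    · right
      exact ⟨_, ⟨some e, Or.inl (if_pos ⟨he, hp⟩), hc'⟩, h1⟩
    · left
      exact ⟨_, ⟨some e, Or.inl ((if_neg (fun h => hp h.2)).trans (by rw [he])), hc'⟩, h1⟩
  · by_cases hp : d.pb e = true
    · right
      exact ⟨_, ⟨some e, Or.inr (if_pos ⟨he, hp⟩), hc'⟩, h1⟩
    · left
      exact ⟨_, ⟨some e, Or.inr ((if_neg (fun h => hp h.2)).trans (by rw [he])), hc'⟩, h1⟩

theorem refA_ne {S : GG Γ} (hne : ∀ e, S.C e ≠ ⊥) {v : S.V} (d : S.RefA v) (hD : d.D ≠ ⊥)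
    (e : (S.refA v d).E) : (S.refA v d).C e ≠ ⊥ := by
  cases e with
  | none => exact hD
  | some e =>
    obtain ⟨c, hc⟩ := (S.C e).ne_bot_iff_exists_ne_one.1 (hne e)
    refine Subgroup.ne_bot_iff_exists_ne_one.2 ⟨⟨(d.ka e)⁻¹ * c * d.ka e, ?_⟩, ?_⟩
    · change d.ka e * ((d.ka e)⁻¹ * c * d.ka e) * (d.ka e)⁻¹ ∈ S.C e
      have h : d.ka e * ((d.ka e)⁻¹ * c * d.ka e) * (d.ka e)⁻¹ = c := by group
      rw [h]
      exact c.2
    · intro h
      apply hc
      apply Subtype.ext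
      have h1 : (d.ka e)⁻¹ * c * d.ka e = 1 := congrArg Subtype.val h
      have h2 : (c : Γ) = d.ka e * ((d.ka e)⁻¹ * c * d.ka e) * (d.ka e)⁻¹ := by group
      rw [h2, h1]
      simp

theorem refA_ab {S : GG Γ} (hab : ∀ e, ∀ x ∈ S.C e, ∀ y ∈ S.C e, x * y = y * x) {v : S.V}
    (d : S.RefA v) (hD : ∀ x ∈ d.D, ∀ y ∈ d.D, x * y = y * x) (e : (S.refA v d).E) :
    ∀ x ∈ (S.refA v d).C e, ∀ y ∈ (S.refA v d).C e, x * y = y * x := by
  cases e with
  | none => exact hD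
  | some e =>
    intro x hx y hy
    have h1 := hab e (d.ka e * x * (d.ka e)⁻¹) hx (d.ka e * y * (d.ka e)⁻¹) hy
    have h2 : x * y = (d.ka e)⁻¹ * ((d.ka e * x * (d.ka e)⁻¹) * (d.ka e * y * (d.ka e)⁻¹)) *
        d.ka e := by group
    rw [h2, h1]
    group

/-- the inequality behind the drop of the measure in the amalgam case -/
theorem drop_aux (hU : Uv Γ F ρ) (hT : ∀ g, tr ρ g = 0 → g = 1) {S : GG Γ} (hS : S.UP)
    (hne : ∀ e, S.C e ≠ ⊥) (hab : ∀ e, ∀ x ∈ S.C e, ∀ y ∈ S.C e, x * y = y * x) {v : S.V}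
    (d : S.RefA v) (hD : d.D ≠ ⊥) (hDab : ∀ x ∈ d.D, ∀ y ∈ d.D, x * y = y * x) :
    er (trs ρ (d.A' : Set Γ)) + er (dv ρ (S.refA v d) none ∪ trs ρ (d.A : Set Γ)) ≤
        er (dv ρ (S.refA v d) none) + er (trs ρ (d.A' : Set Γ) ∪ trs ρ (d.A : Set Γ)) ∧
      er (trs ρ (d.A : Set Γ)) + er (dv ρ (S.refA v d) (some v) ∪ dv ρ (S.refA v d) none) ≤
        er (dv ρ (S.refA v d) (some v)) + er (dv ρ (S.refA v d) none ∪ trs ρ (d.A : Set Γ)) := by
  have hS' := GG.refA_up hS d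
  have hne' := refA_ne hne d hD
  have hab' := refA_ab hab d hDab
  have hGv : (S.refA v d).G (some v) = d.A := if_pos rfl
  constructor
  · have h := move_vertex hU hT hS' hne' hab' none (d.A : Set Γ) (by
      intro z hz
      left
      refine ⟨some v, Option.some_ne_none _, ?_⟩
      rw [hGv]
      exact hz)
    exact h
  · have h := move_vertex hU hT hS' hne' hab' (some v)
      {c | ∃ e, ((S.refA v d).a e = none ∨ (S.refA v d).b e = none) ∧ c ∈ (S.refA v d).C e} (by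
      rintro z ⟨e, he, hz⟩
      by_cases hae : (S.refA v d).a e = some v
      · right
        exact ⟨e, Or.inl hae, hz⟩
      · left
        exact ⟨_, hae, (S.refA v d).Ca e hz⟩)
    rw [hGv] at h
    rw [Set.union_comm (dv ρ (S.refA v d) none)]
    exact h

/-- the arithmetic of the drop -/
theorem arith1 {a a' z z' u t q g p : ℕ∞} (hg : g ≠ ⊤) (hz : z ≤ a) (hz' : z' ≤ a') (hu : 1 + u ≤ g)
    (hp : p ≤ q) (hq : q ≤ t) (ht : t ≤ u) (ha : a ≤ u) (ha' : a' ≤ u) (h1 : a' + t ≤ z' + u)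
    (h2 : a + q ≤ z + t) :
    (a.toNat - z.toNat) + (a'.toNat - z'.toNat) + 1 ≤ g.toNat - p.toNat := by
  have hle : ∀ {x : ℕ∞}, x ≤ g → ∃ n : ℕ, x = n := fun {x} hx =>
    ENat.ne_top_iff_exists.1 (ne_top_of_le_ne_top hg hx) |>.imp fun n hn => hn.symm
  have hug : u ≤ g := le_trans le_add_self hu
  obtain ⟨g', rfl⟩ := hle le_rfl
  obtain ⟨u', rfl⟩ := hle hug
  obtain ⟨t', rfl⟩ := hle (ht.trans hug)
  obtain ⟨q', rfl⟩ := hle (hq.trans (ht.trans hug))
  obtain ⟨p', rfl⟩ := hle (hp.trans (hq.trans (ht.trans hug)))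
  obtain ⟨a1, rfl⟩ := hle (ha.trans hug)
  obtain ⟨a2, rfl⟩ := hle (ha'.trans hug)
  obtain ⟨z1, rfl⟩ := hle (hz.trans (ha.trans hug))
  obtain ⟨z2, rfl⟩ := hle (hz'.trans (ha'.trans hug))
  simp only [ENat.toNat_natCast]
  norm_cast at *
  omega

open Classical in
/-- the contribution of a vertex to the measure -/
noncomputable def dl (ρ : Γ →* SpecialLinearGroup (Fin 2) F) (S : GG Γ) (v : S.V) : ℕ :=
  if S.NA v then rk (trs ρ (S.G v : Set Γ)) - rk (dv ρ S v) else 0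

theorem DD_eq (S : GG Γ) : DD ρ S = ∑ v : S.V, dl ρ S v := rfl

theorem dl_le (S : GG Γ) (v : S.V) :
    dl ρ S v ≤ (er (trs ρ (S.G v : Set Γ))).toNat - (er (dv ρ S v)).toNat := by
  unfold dl
  split_ifs
  · exact le_rfl
  · exact Nat.zero_le _

theorem dl_na {S : GG Γ} {v : S.V} (h : S.NA v) :
    dl ρ S v = (er (trs ρ (S.G v : Set Γ))).toNat - (er (dv ρ S v)).toNat := by
  unfold dl
  rw [if_pos h]
  rfl

theorem dl_ab {S : GG Γ} {v : S.V} (h : ¬ S.NA v) : dl ρ S v = 0 := by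
  unfold dl
  rw [if_neg h]

theorem DD_refA {S : GG Γ} {v : S.V} (d : S.RefA v) :
    DD ρ (S.refA v d) + dl ρ S v =
      DD ρ S + dl ρ (S.refA v d) (some v) + dl ρ (S.refA v d) none := by
  have h1 : DD ρ (S.refA v d) = dl ρ (S.refA v d) none +
      ∑ w : S.V, dl ρ (S.refA v d) (some w) := by
    rw [DD_eq]
    exact Fintype.sum_option (fun o : Option S.V => dl ρ (S.refA v d) o)
  have h2 : ∀ w : S.V, w ≠ v → dl ρ (S.refA v d) (some w) = dl ρ S w := by
    intro w hw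
    have hG : (S.refA v d).G (some w) = S.G w := if_neg hw
    unfold dl
    have hNA : (S.refA v d).NA (some w) ↔ S.NA w := by
      unfold GG.NA
      rw [hG]
    rw [dv_refA_some d hw, hG]
    by_cases h : S.NA w
    · rw [if_pos h, if_pos (hNA.2 h)]
    · rw [if_neg h, if_neg (fun h' => h (hNA.1 h'))]
  have h3 : ∑ w : S.V, dl ρ (S.refA v d) (some w) + dl ρ S v =
      DD ρ S + dl ρ (S.refA v d) (some v) := by
    rw [DD_eq, ← Finset.add_sum_erase _ (fun w => dl ρ (S.refA v d) (some w))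
      (Finset.mem_univ v), ← Finset.add_sum_erase _ (fun w => dl ρ S w) (Finset.mem_univ v)]
    have h4 : ∑ w ∈ Finset.univ.erase v, dl ρ (S.refA v d) (some w) =
        ∑ w ∈ Finset.univ.erase v, dl ρ S w :=
      Finset.sum_congr rfl fun w hw => h2 w (Finset.ne_of_mem_erase hw)
    rw [h4]
    ring
  rw [h1]
  omega

/-- all inequalities for the amalgam refinement -/
theorem drop_ineq (hU : Uv Γ F ρ) (hT : ∀ g, tr ρ g = 0 → g = 1) {S : GG Γ} (hS : S.UP)
    (hne : ∀ e, S.C e ≠ ⊥) (hab : ∀ e, ∀ x ∈ S.C e, ∀ y ∈ S.C e, x * y = y * x) {v : S.V}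
    (d : S.RefA v) (hD : d.D ≠ ⊥) (hDab : ∀ x ∈ d.D, ∀ y ∈ d.D, x * y = y * x)
    (hfin : er (Set.univ : Set F) ≠ ⊤)
    (hA : (S.refA v d).NA (some v)) (hA' : (S.refA v d).NA none) :
    dl ρ (S.refA v d) (some v) + dl ρ (S.refA v d) none + 1 ≤
      (er (trs ρ (S.G v : Set Γ))).toNat - (er (dv ρ S v)).toNat := by
  have hS' := GG.refA_up hS d
  have hne' := refA_ne hne d hD
  have hab' := refA_ab hab d hDab
  have hGv : (S.refA v d).G (some v) = d.A := if_pos rfl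
  have hGn : (S.refA v d).G none = d.A' := rfl
  obtain ⟨h1, h2⟩ := drop_aux (ρ := ρ) hU hT hS hne hab d hD hDab
  have hAv : d.A ≤ S.G v := by rw [d.am.sup]; exact le_sup_left
  have hA'v : d.A' ≤ S.G v := by rw [d.am.sup]; exact le_sup_right
  obtain ⟨x, hx, y, hy, hb⟩ := bend_edge (ρ := ρ) hU hT hS' (none : Option S.E) (hne' none)
    (hab' none) hA hA'
  have hb1 := hb ((d.A' : Set Γ) ∪ d.A) (by
    rintro z (hz | hz)
    · exact ⟨none, hz⟩
    · refine ⟨some v, ?_⟩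
      rw [hGv]
      exact hz)
  rw [dl_na hA, dl_na hA', hGv, hGn]
  have hx' : x ∈ d.A := by
    have h := hx
    change x ∈ (S.refA v d).G (some v) at h
    rwa [hGv] at h
  have hy' : y ∈ d.A' := hy
  have hsub1 : dv ρ (S.refA v d) none ⊆ trs ρ (d.A' : Set Γ) := dv_sub (S.refA v d) none
  have hsub2 : dv ρ (S.refA v d) (some v) ⊆ trs ρ (d.A : Set Γ) := by
    have h := dv_sub (ρ := ρ) (S.refA v d) (some v)
    rwa [hGv] at h
  refine arith1 (t := er (dv ρ (S.refA v d) none ∪ trs ρ (d.A : Set Γ)))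
    (q := er (dv ρ (S.refA v d) (some v) ∪ dv ρ (S.refA v d) none))
    (u := er (trs ρ (d.A' : Set Γ) ∪ trs ρ (d.A : Set Γ)))
    (ne_top_of_le_ne_top hfin (er_mono (Set.subset_univ _))) (er_mono hsub2) (er_mono hsub1) ?_
    (er_mono (dv_refA_le d)) ?_ ?_ (er_mono Set.subset_union_right) (er_mono Set.subset_union_left)
    h1 h2
  · have h3 : trs ρ ((d.A' : Set Γ) ∪ d.A) = trs ρ (d.A' : Set Γ) ∪ trs ρ (d.A : Set Γ) :=
      Set.image_union _ _ _
    rw [h3] at hb1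
    refine le_trans hb1 (er_mono (Set.image_mono ?_))
    rintro z (rfl | hz | hz)
    · have h4 : (S.refA v d).s (none : Option S.E) = 1 := rfl
      change x * ((S.refA v d).s (none : Option S.E) * y * ((S.refA v d).s
        (none : Option S.E))⁻¹) ∈ S.G v
      rw [h4, one_mul, inv_one, mul_one]
      exact mul_mem (hAv hx') (hA'v hy')
    · exact hA'v hz
    · exact hAv hz
  · refine er_mono ?_
    rintro z (hz | hz)
    · exact Or.inr (hsub2 hz)
    · exact Or.inl hz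
  · refine er_mono ?_
    rintro z (hz | hz)
    · exact Or.inl (hsub1 hz)
    · exact Or.inr hz

/-- D DROPS, case (a): both groups are non-abelian. -/
theorem drop_A (hU : Uv Γ F ρ) (hT : ∀ g, tr ρ g = 0 → g = 1) {S : GG Γ} (hS : S.UP)
    (hne : ∀ e, S.C e ≠ ⊥) (hab : ∀ e, ∀ x ∈ S.C e, ∀ y ∈ S.C e, x * y = y * x) {v : S.V}
    (hv : S.NA v) (d : S.RefA v) (hD : d.D ≠ ⊥) (hDab : ∀ x ∈ d.D, ∀ y ∈ d.D, x * y = y * x)
    (hfin : er (Set.univ : Set F) ≠ ⊤)
    (hA : (S.refA v d).NA (some v)) (hA' : (S.refA v d).NA none) :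
    DD ρ (S.refA v d) < DD ρ S := by
  have h1 := drop_ineq (ρ := ρ) hU hT hS hne hab d hD hDab hfin hA hA'
  rw [← dl_na hv] at h1
  have h2 := DD_refA (ρ := ρ) d
  omega

/-- D DROPS, case (c): the second group is abelian and contains an element whose trace is transcendental
over the edge traces at `v`. -/
theorem drop_M (hU : Uv Γ F ρ) (hT : ∀ g, tr ρ g = 0 → g = 1) {S : GG Γ} (hS : S.UP)
    (hne : ∀ e, S.C e ≠ ⊥) (hab : ∀ e, ∀ x ∈ S.C e, ∀ y ∈ S.C e, x * y = y * x) {v : S.V}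
    (hv : S.NA v) (d : S.RefA v) (hD : d.D ≠ ⊥) (hDab : ∀ x ∈ d.D, ∀ y ∈ d.D, x * y = y * x)
    (hfin : er (Set.univ : Set F) ≠ ⊤) (hA' : ¬ (S.refA v d).NA none)
    {b : Γ} (hb : b ∈ d.A') (hbt : ¬ IsAlgebraic (Algebra.adjoin (ZMod 2) (dv ρ S v)) (tr ρ b)) :
    DD ρ (S.refA v d) < DD ρ S := by
  have hGv : (S.refA v d).G (some v) = d.A := if_pos rfl
  obtain ⟨h1, h2⟩ := drop_aux (ρ := ρ) hU hT hS hne hab d hD hDab
  have hAv : d.A ≤ S.G v := by rw [d.am.sup]; exact le_sup_left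
  have hA'v : d.A' ≤ S.G v := by rw [d.am.sup]; exact le_sup_right
  have hsub1 : dv ρ (S.refA v d) none ⊆ trs ρ (d.A' : Set Γ) := dv_sub (S.refA v d) none
  have hsub2 : dv ρ (S.refA v d) (some v) ⊆ trs ρ (d.A : Set Γ) := by
    have h := dv_sub (ρ := ρ) (S.refA v d) (some v)
    rwa [hGv] at h
  -- the transcendental element
  have h3 : er (insert (tr ρ b) (dv ρ S v)) = er (dv ρ S v) + 1 := by
    apply Matroid.eRk_insert_eq_add_one
    refine ⟨Set.mem_univ _, ?_⟩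
    rw [AlgebraicIndependent.matroid_closure_eq]
    exact hbt
  have h4 : er (dv ρ S v) + 1 ≤
      er (trs ρ (d.A' : Set Γ) ∪ (dv ρ (S.refA v d) (some v) ∪ dv ρ (S.refA v d) none)) := by
    rw [← h3]
    refine er_mono ?_
    rintro z (rfl | hz)
    · exact Or.inl ⟨b, hb, rfl⟩
    · exact Or.inr (dv_refA_le d hz)
  have h5 := er_submod' (Z := dv ρ (S.refA v d) none) hsub1
    (Set.subset_union_right (s := dv ρ (S.refA v d) (some v)))
  have h6 : er (trs ρ (d.A' : Set Γ) ∪ trs ρ (d.A : Set Γ)) ≤ er (trs ρ (S.G v : Set Γ)) := by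
    refine er_mono ?_
    rintro z (⟨x, hx, rfl⟩ | ⟨x, hx, rfl⟩)
    · exact ⟨x, hA'v hx, rfl⟩
    · exact ⟨x, hAv hx, rfl⟩
  have h7 := dl_le (ρ := ρ) (S.refA v d) (some v)
  rw [hGv] at h7
  have h8 := DD_refA (ρ := ρ) d
  rw [dl_ab hA', dl_na hv] at h8
  have hle : ∀ X : Set F, ∃ n : ℕ, er X = n := fun X =>
    ENat.ne_top_iff_exists.1 (ne_top_of_le_ne_top hfin (er_mono (Set.subset_univ X))) |>.imp
      fun n hn => hn.symm
  have hz1 := er_mono hsub1
  have hz2 := er_mono hsub2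
  obtain ⟨n1, e1⟩ := hle (trs ρ (d.A' : Set Γ))
  obtain ⟨n2, e2⟩ := hle (dv ρ (S.refA v d) none ∪ trs ρ (d.A : Set Γ))
  obtain ⟨n3, e3⟩ := hle (dv ρ (S.refA v d) none)
  obtain ⟨n4, e4⟩ := hle (trs ρ (d.A' : Set Γ) ∪ trs ρ (d.A : Set Γ))
  obtain ⟨n5, e5⟩ := hle (trs ρ (d.A : Set Γ))
  obtain ⟨n6, e6⟩ := hle (dv ρ (S.refA v d) (some v) ∪ dv ρ (S.refA v d) none)
  obtain ⟨n7, e7⟩ := hle (dv ρ (S.refA v d) (some v))
  obtain ⟨n8, e8⟩ := hle (dv ρ S v)
  obtain ⟨n9, e9⟩ := hle (trs ρ (d.A' : Set Γ) ∪ (dv ρ (S.refA v d) (some v) ∪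
    dv ρ (S.refA v d) none))
  obtain ⟨n10, e10⟩ := hle (trs ρ (S.G v : Set Γ))
  rw [e1, e2, e3, e4] at h1
  rw [e5, e6, e7, e2] at h2
  rw [e8, e9] at h4
  rw [e3, e9, e1, e6] at h5
  rw [e4, e10] at h6
  rw [e5, e7] at h7
  rw [e10, e8] at h8
  rw [e3, e1] at hz1
  rw [e7, e5] at hz2
  simp only [ENat.toNat_natCast] at h7 h8
  norm_cast at h1 h2 h4 h5 h6 hz1 hz2
  omega

end

end Pool.Agent.FrS
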