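import Pool.Agent.Lib.MP_305fdd_al.Fr.S.Drop
import Pool.Agent.Lib.MP_305fdd_al.Fr.S.TorOf

/-!
# MP_305fdd_al, F_r project, section SP: the measure drops, case (b) (HNN extension)
-/

set_option autoImplicit false

namespace Pool.Agent.FrS

open Matrix (SpecialLinearGroup)
open Pool.Agent.FrN Pool.Agent.FrAsm

section

variable {Γ F : Type} [Group Γ] [Field F] [Algebra (ZMod 2) F]
  {ρ : Γ →* SpecialLinearGroup (Fin 2) F}

theorem refH_ne {S : GG Γ} (hne : ∀ e, S.C e ≠ ⊥) {v : S.V} (d : S.RefH v) (hD : d.D ≠ ⊥)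
    (e : (S.refH v d).E) : (S.refH v d).C e ≠ ⊥ := by
  cases e with
  | none => exact hD
  | some e =>
    obtain ⟨c, hc⟩ := (S.C e).ne_bot_iff_exists_ne_one.1 (hne e)
    refine Subgroup.ne_bot_iff_exists_ne_one.2 ⟨⟨(d.ka e)⁻¹ * c * d.ka e, ?_⟩, ?_⟩
    · change d.ka e * ((d.ka e)⁻¹ * c * d.ka e) * (d.ka e)⁻¹ ∈ S.C e
      have h : d.ka e * ((d.ka e)⁻¹ * c * d.ka e) * (d.ka e)⁻¹ = c := by group
      rw [h]
      exact c.2
    · intro h
      apply hc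
      apply Subtype.ext
      have h1 : (d.ka e)⁻¹ * c * d.ka e = 1 := congrArg Subtype.val h
      have h2 : (c : Γ) = d.ka e * ((d.ka e)⁻¹ * c * d.ka e) * (d.ka e)⁻¹ := by group
      rw [h2, h1]
      simp

theorem refH_ab {S : GG Γ} (hab : ∀ e, ∀ x ∈ S.C e, ∀ y ∈ S.C e, x * y = y * x) {v : S.V}
    (d : S.RefH v) (hD : ∀ x ∈ d.D, ∀ y ∈ d.D, x * y = y * x) (e : (S.refH v d).E) :
    ∀ x ∈ (S.refH v d).C e, ∀ y ∈ (S.refH v d).C e, x * y = y * x := by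
  cases e with
  | none => exact hD
  | some e =>
    intro x hx y hy
    have h1 := hab e (d.ka e * x * (d.ka e)⁻¹) hx (d.ka e * y * (d.ka e)⁻¹) hy
    have h2 : x * y = (d.ka e)⁻¹ * ((d.ka e * x * (d.ka e)⁻¹) * (d.ka e * y * (d.ka e)⁻¹)) *
        d.ka e := by group
    rw [h2, h1]
    group

/-- the edge traces at the other vertices do not change -/
theorem dv_refH_ne {S : GG Γ} {v : S.V} (d : S.RefH v) {w : S.V} (hw : w ≠ v) :
    dv ρ (S.refH v d) w = dv ρ S w := by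
  ext z
  constructor
  · rintro ⟨c, ⟨e, he, hc⟩, rfl⟩
    cases e with
    | none =>
      exfalso
      rcases he with he | he
      · exact hw he.symm
      · exact hw he.symm
    | some e =>
      have hc' : d.ka e * c * (d.ka e)⁻¹ ∈ S.C e := hc
      exact ⟨_, ⟨e, he, hc'⟩, tr_cj' _ _⟩
  · rintro ⟨c, ⟨e, he, hc⟩, rfl⟩
    refine ⟨(d.ka e)⁻¹ * c * d.ka e, ⟨some e, he, ?_⟩, tr_cj _ _⟩
    change d.ka e * ((d.ka e)⁻¹ * c * d.ka e) * (d.ka e)⁻¹ ∈ S.C e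
    have h : d.ka e * ((d.ka e)⁻¹ * c * d.ka e) * (d.ka e)⁻¹ = c := by group
    rw [h]
    exact hc

/-- the edges at `v` remain at `v` -/
theorem dv_refH_le {S : GG Γ} {v : S.V} (d : S.RefH v) (w : S.V) :
    dv ρ S w ⊆ dv ρ (S.refH v d) w := by
  rintro _ ⟨c, ⟨e, he, hc⟩, rfl⟩
  refine ⟨(d.ka e)⁻¹ * c * d.ka e, ⟨some e, he, ?_⟩, tr_cj _ _⟩
  change d.ka e * ((d.ka e)⁻¹ * c * d.ka e) * (d.ka e)⁻¹ ∈ S.C e
  have h : d.ka e * ((d.ka e)⁻¹ * c * d.ka e) * (d.ka e)⁻¹ = c := by group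
  rw [h]
  exact hc

theorem DD_refH {S : GG Γ} {v : S.V} (d : S.RefH v) :
    DD ρ (S.refH v d) + dl ρ S v = DD ρ S + dl ρ (S.refH v d) v := by
  have h2 : ∀ w : S.V, w ≠ v → dl ρ (S.refH v d) w = dl ρ S w := by
    intro w hw
    have hG : (S.refH v d).G w = S.G w := if_neg hw
    have hNA : (S.refH v d).NA w ↔ S.NA w := by
      unfold GG.NA
      rw [hG]
    by_cases h : S.NA w
    · rw [dl_na h, dl_na (hNA.2 h), dv_refH_ne d hw, hG]
    · rw [dl_ab h, dl_ab (fun h' => h (hNA.1 h'))]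
  have h1 : DD ρ (S.refH v d) = ∑ w : S.V, dl ρ (S.refH v d) w := DD_eq (ρ := ρ) (S.refH v d)
  rw [h1, DD_eq, ← Finset.add_sum_erase _ (fun w : S.V => dl ρ (S.refH v d) w)
      (Finset.mem_univ v), ← Finset.add_sum_erase _ (fun w => dl ρ S w) (Finset.mem_univ v)]
  have h4 : ∑ w ∈ Finset.univ.erase v, dl ρ (S.refH v d) w =
      ∑ w ∈ Finset.univ.erase v, dl ρ S w :=
    Finset.sum_congr rfl fun w hw => h2 w (Finset.ne_of_mem_erase hw)
  rw [h4]
  ring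

/-- an HNN extension of an abelian group along a non-trivial group is abelian in `Γ` -/
theorem refH_na (hTor : Tor Γ) {S : GG Γ} {v : S.V} (hv : S.NA v) (d : S.RefH v) (hD : d.D ≠ ⊥) :
    (S.refH v d).NA v := by
  intro h
  have hGv : (S.refH v d).G v = d.A := if_pos rfl
  rw [hGv] at h
  obtain ⟨g, hg⟩ := Subgroup.ne_bot_iff_exists_ne_one.1 hD
  have hg1 : (g : Γ) ≠ 1 := fun h' => hg (Subtype.ext h')
  have hgA : (g : Γ) ∈ d.A := d.hn.le g.2
  have hgA' : d.s⁻¹ * g * d.s ∈ d.A := d.hn.le' _ g.2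
  have hs : d.s * g = g * d.s := hTor.conj _ _ hg1 (h _ hgA' _ hgA)
  have hcomm : ∀ x ∈ d.A, x * g = g * x := fun x hx => h x hx _ hgA
  apply hv
  rw [d.hn.sup]
  refine comm_sup _ _ h ?_ ?_
  · intro x hx y hy
    obtain ⟨m, rfl⟩ := Subgroup.mem_zpowers_iff.1 hx
    obtain ⟨n, rfl⟩ := Subgroup.mem_zpowers_iff.1 hy
    rw [← zpow_add, ← zpow_add, add_comm]
  · intro x hx y hy
    obtain ⟨n, rfl⟩ := Subgroup.mem_zpowers_iff.1 hy
    have h1 : x * d.s = d.s * x := hTor.trans x g d.s hg1 (hcomm x hx) hs.symm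
    exact (Commute.zpow_right (show Commute x d.s from h1) n)

/-- D DROPS, case (b): HNN extension. -/
theorem drop_H (hU : Uv Γ F ρ) (hT : ∀ g, tr ρ g = 0 → g = 1) {S : GG Γ} (hS : S.UP) {v : S.V}
    (hv : S.NA v) (d : S.RefH v) (hD : d.D ≠ ⊥) (hDab : ∀ x ∈ d.D, ∀ y ∈ d.D, x * y = y * x)
    (hfin : er (Set.univ : Set F) ≠ ⊤) :
    DD ρ (S.refH v d) < DD ρ S := by
  have hTor := tor_of hU.inj hT
  have hA := refH_na hTor hv d hD
  have hGv : (S.refH v d).G v = d.A := if_pos rfl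
  have hS' := GG.refH_up hS d
  have hAv : d.A ≤ S.G v := by rw [d.hn.sup]; exact le_sup_left
  have hsv : d.s ∈ S.G v := by
    rw [d.hn.sup]
    exact (le_sup_right : _ ≤ d.A ⊔ Subgroup.zpowers d.s) (Subgroup.mem_zpowers _)
  obtain ⟨x, hx, hb⟩ := bend_loop (ρ := ρ) hU hT hS' (none : Option S.E) hD hDab rfl hA
  have hb1 := hb (d.A : Set Γ) (fun z hz => ⟨v, by rw [hGv]; exact hz⟩)
  have hx' : x ∈ d.A := by
    have h := hx
    change x ∈ (S.refH v d).G v at h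
    rwa [hGv] at h
  have h3 : er (trs ρ (insert (x * (S.refH v d).s (none : Option S.E)) (d.A : Set Γ))) ≤
      er (trs ρ (S.G v : Set Γ)) := by
    refine er_mono (Set.image_mono ?_)
    rintro z (rfl | hz)
    · exact mul_mem (hAv hx') hsv
    · exact hAv hz
  have h4 : er (dv ρ S v) ≤ er (dv ρ (S.refH v d) v) := er_mono (dv_refH_le d v)
  have h5 : er (dv ρ (S.refH v d) v) ≤ er (trs ρ (d.A : Set Γ)) := by
    have h := dv_sub (ρ := ρ) (S.refH v d) v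
    rw [hGv] at h
    exact er_mono h
  have h6 := hb1.trans h3
  have h7 := DD_refH (ρ := ρ) d
  rw [dl_na hv, dl_na hA, hGv] at h7
  have hle : ∀ X : Set F, ∃ n : ℕ, er X = n := fun X =>
    ENat.ne_top_iff_exists.1 (ne_top_of_le_ne_top hfin (er_mono (Set.subset_univ X))) |>.imp
      fun n hn => hn.symm
  obtain ⟨n1, e1⟩ := hle (trs ρ (d.A : Set Γ))
  obtain ⟨n2, e2⟩ := hle (trs ρ (S.G v : Set Γ))
  obtain ⟨n3, e3⟩ := hle (dv ρ S v)
  obtain ⟨n4, e4⟩ := hle (dv ρ (S.refH v d) v)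
  rw [e1, e2] at h6
  rw [e3, e4] at h4
  rw [e4, e1] at h5
  rw [e1, e2, e3, e4] at h7
  simp only [ENat.toNat_natCast] at h7
  norm_cast at h4 h5 h6
  omega

end

end Pool.Agent.FrS
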