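import Pool.Agent.Lib.MP_305fdd_al.Fr.P.Ext
import Pool.Agent.Lib.MP_305fdd_al.Fr.P.Gauss
import Pool.Agent.Lib.MP_305fdd_al.Fr.N.Defs

/-!
# MP_305fdd_al, F_r project, section SP: extension of real valuations to finitely generated fields
-/

set_option autoImplicit false

namespace Pool.Agent.FrS

open Pool.Agent.F2Ch Polynomial IntermediateField

/-- extension to a simple extension -/
theorem exists_ext_simple {K₀ F : Type} [Field K₀] [Field F] [Algebra K₀ F] (t : F) {x : K₀ → ℝ}
    (hx : IsV x) : ∃ x' : K₀⟮t⟯ → ℝ, IsV x' ∧ ∀ a, x' (algebraMap K₀ K₀⟮t⟯ a) = x a := by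
  by_cases ht : IsAlgebraic K₀ t
  · have h1 : Algebra.IsAlgebraic K₀ K₀⟮t⟯ := isAlgebraic_adjoin_simple ht.isIntegral
    exact FrP.exists_ext hx
  · have h5 : ∀ p : K₀[X], ((aeval (AdjoinSimple.gen K₀ t) p : K₀⟮t⟯) : F) = aeval t p := by
      intro p
      rw [← AdjoinSimple.algebraMap_gen K₀ t, aeval_algebraMap_apply]
      rfl
    have ht' : Transcendental K₀ (AdjoinSimple.gen K₀ t) := by
      rintro ⟨p, hp0, hp⟩
      refine ht ⟨p, hp0, ?_⟩
      rw [← h5, hp]
      rfl
    obtain ⟨x', hx', h1, _⟩ := FrP.exists_gauss hx 0 ht' (by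
      rintro ⟨z, hz⟩
      obtain ⟨r, s, hrs⟩ := mem_adjoin_simple_iff K₀ z |>.1 hz
      by_cases hs : aeval t s = 0
      · refine ⟨0, 1, ?_, ?_⟩
        · simp
        · have h3 : z = 0 := by rw [hrs, hs, div_zero]
          apply Subtype.ext
          simp [h3]
      · refine ⟨r, s, ?_, ?_⟩
        · intro h
          apply hs
          rw [← h5, h]
          rfl
        · apply Subtype.ext
          change z * ((aeval (AdjoinSimple.gen K₀ t) s : K₀⟮t⟯) : F) = _
          rw [h5, h5, hrs, div_mul_cancel₀ _ hs])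
    exact ⟨x', hx', h1⟩

/-- extension to a finitely generated extension -/
theorem exists_ext_fin (n : ℕ) : ∀ {K₀ F : Type} [Field K₀] [Field F] [Algebra K₀ F]
    (t : Fin n → F) (_ : adjoin K₀ (Set.range t) = ⊤) {x : K₀ → ℝ} (_ : IsV x),
    ∃ x' : F → ℝ, IsV x' ∧ ∀ a, x' (algebraMap K₀ F a) = x a := by
  induction n with
  | zero =>
    intro K₀ F _ _ _ t ht x hx
    have h1 : Algebra.IsAlgebraic K₀ F := by
      refine ⟨fun z => ?_⟩
      have hz : z ∈ adjoin K₀ (Set.range t) := by rw [ht]; exact mem_top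
      have h2 : Set.range t = ∅ := Set.range_eq_empty t
      rw [h2, adjoin_empty, mem_bot] at hz
      obtain ⟨y, rfl⟩ := hz
      exact isAlgebraic_algebraMap y
    exact FrP.exists_ext hx
  | succ n ih =>
    intro K₀ F _ _ _ t ht x hx
    obtain ⟨x₁, hx₁, h1⟩ := exists_ext_simple (t 0) hx
    have h2 : adjoin K₀⟮t 0⟯ (Set.range fun i : Fin n => t i.succ) = ⊤ := by
      rw [eq_top_iff]
      intro z _
      have hz : z ∈ adjoin K₀ (Set.range t) := by rw [ht]; exact mem_top
      have h3 : adjoin K₀ (Set.range t) ≤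
          (adjoin K₀⟮t 0⟯ (Set.range fun i : Fin n => t i.succ)).restrictScalars K₀ := by
        rw [adjoin_le_iff]
        rintro _ ⟨i, rfl⟩
        rw [SetLike.mem_coe, mem_restrictScalars]
        rcases Fin.eq_zero_or_eq_succ i with h0 | ⟨j, h0⟩
        · have h4 : algebraMap K₀⟮t 0⟯ F (AdjoinSimple.gen K₀ (t 0)) ∈
              adjoin K₀⟮t 0⟯ (Set.range fun i : Fin n => t i.succ) :=
            IntermediateField.algebraMap_mem _ _
          rw [AdjoinSimple.algebraMap_gen] at h4
          rw [h0]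
          exact h4
        · have h4 : t j.succ ∈ Set.range fun i : Fin n => t i.succ := ⟨j, rfl⟩
          rw [h0]
          exact subset_adjoin _ _ h4
      exact h3 hz
    obtain ⟨x₂, hx₂, h3⟩ := ih (fun i : Fin n => t i.succ) h2 hx₁
    refine ⟨x₂, hx₂, fun a => ?_⟩
    rw [IsScalarTower.algebraMap_apply K₀ K₀⟮t 0⟯ F, h3, h1]

/-- extension to the field of fractions of a finitely generated `F_2`-algebra -/
theorem exists_ext_frc {K₀ F : Type} [Field K₀] [Field F] [Algebra K₀ F] [Algebra (ZMod 2) F]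
    {O : Subalgebra (ZMod 2) F} (hfg : O.FG) (hfr : FrN.Frc O) {x : K₀ → ℝ} (hx : IsV x) :
    ∃ x' : F → ℝ, IsV x' ∧ ∀ a, x' (algebraMap K₀ F a) = x a := by
  obtain ⟨s, hs⟩ := hfg
  refine exists_ext_fin s.card (fun i => ((s.equivFin.symm i : s) : F)) ?_ hx
  have h1 : Set.range (fun i => ((s.equivFin.symm i : s) : F)) = (s : Set F) := by
    ext z
    constructor
    · rintro ⟨i, rfl⟩
      exact (s.equivFin.symm i).2
    · intro hz
      exact ⟨s.equivFin ⟨z, hz⟩, by simp⟩
  rw [h1, eq_top_iff]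
  have h2 : ∀ z ∈ O, z ∈ adjoin K₀ (s : Set F) := by
    intro z hz
    rw [← hs] at hz
    induction hz using Algebra.adjoin_induction with
    | mem z hz => exact subset_adjoin _ _ hz
    | algebraMap r =>
      have h3 : algebraMap (ZMod 2) F r = ((r.val : ℕ) : F) := by
        rw [← map_natCast (algebraMap (ZMod 2) F), ZMod.natCast_val, ZMod.cast_id]
      rw [h3]
      exact IntermediateField.natCast_mem _ _
    | add a b _ _ ha hb => exact add_mem ha hb
    | mul a b _ _ ha hb => exact mul_mem ha hb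
  intro z _
  obtain ⟨a, ha, b, hb, hb0, hab⟩ := hfr z
  have h3 : z = a / b := by rw [← hab, mul_div_cancel_right₀ _ hb0]
  rw [h3]
  exact IntermediateField.div_mem _ (h2 a ha) (h2 b hb)

end Pool.Agent.FrS
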