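import Pool.Agent.Lib.MP_305fdd_al.Fr.S.StepA
import Pool.Agent.Lib.MP_305fdd_al.Fr.S.ExtV
import Pool.Agent.Lib.MP_305fdd_al.Fr.S.Norm
import Pool.Agent.Lib.MP_305fdd_al.Fr.X.GG
import Pool.Agent.Lib.MP_305fdd_al.Fr.Asm.AsmT
import Pool.Agent.Lib.MP_305fdd_al.Fr.V.Defs

/-!
# MP_305fdd_al, F_r project, section SP: elements with traces of non-negative value
-/

set_option autoImplicit false

namespace Pool.Agent.FrS

open Matrix (SpecialLinearGroup)
open Pool.Agent.FrN Pool.Agent.FrAsm Pool.Agent.F2Ch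

section

variable {K : Type} [Field K] {x : K → ℝ}

/-- a value which is integral over the ring of the valuation: quadratic equation -/
theorem nonneg_quad (hx : IsV x) {p s q : K} (h : p * p = s * p + q) (hs : s = 0 ∨ 0 ≤ x s)
    (hq : q = 0 ∨ 0 ≤ x q) : 0 ≤ x p := by
  by_contra hlt
  push Not at hlt
  have hp0 : p ≠ 0 := by
    rintro rfl
    rw [hx.zero] at hlt
    exact lt_irrefl _ hlt
  have h1 : x (p * p) = x p + x p := hx.mul p p hp0 hp0
  have hpp : p * p ≠ 0 := mul_ne_zero hp0 hp0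
  have h2 : x p ≤ x (p * p) := by
    rw [h]
    rw [h] at hpp
    by_cases hs0 : s = 0
    · rw [hs0, zero_mul, zero_add] at hpp ⊢
      exact hlt.le.trans (hq.resolve_left hpp)
    · have hsp : s * p ≠ 0 := mul_ne_zero hs0 hp0
      have h3 : x (s * p) = x s + x p := hx.mul s p hs0 hp0
      have h4 := hs.resolve_left hs0
      by_cases hq0 : q = 0
      · rw [hq0, add_zero, h3]
        linarith
      · have h5 := hx.add _ _ hsp hq0 hpp
        have h6 := hq.resolve_left hq0
        refine le_trans (le_min ?_ ?_) h5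
        · rw [h3]
          linarith
        · linarith
  linarith

/-- the value of a sum if one value is smaller -/
theorem add_eq (hx : IsV x) {a b : K} (ha : a ≠ 0) (hb : b = 0 ∨ x a < x b) :
    a + b ≠ 0 ∧ x (a + b) = x a := by
  by_cases hb0 : b = 0
  · rw [hb0, add_zero]
    exact ⟨ha, rfl⟩
  have hlt := hb.resolve_left hb0
  have hab : a + b ≠ 0 := by
    intro h
    have h1 : b = -a := (neg_eq_of_add_eq_zero_right h).symm
    rw [h1, FrP.V_neg hx] at hlt
    exact lt_irrefl _ hlt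
  refine ⟨hab, le_antisymm ?_ ?_⟩
  · by_contra h
    push Not at h
    have h1 : a + b + -b = a := by ring
    have h2 := hx.add (a + b) (-b) hab (neg_ne_zero.2 hb0) (by rw [h1]; exact ha)
    rw [h1, FrP.V_neg hx] at h2
    exact absurd (lt_min h hlt) (not_lt.2 h2)
  · exact (le_min le_rfl hlt.le).trans (hx.add a b ha hb0 hab)

end

section

variable {b : ℕ} {Γ K F : Type} [Group Γ] [Field K] [Field F] [Algebra (ZMod 2) K]
  [Algebra (ZMod 2) F] [Algebra K F] {T : Γ → K} {ρ : Γ →* SpecialLinearGroup (Fin 2) F}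
  {x : K → ℝ}

/-- the traces of the powers of an element whose trace has a negative value -/
theorem pow_neg (H : HB 2 b Γ K F T ρ) (hx : IsV x) {g : Γ} (hg : x (T g) < 0) (n : ℕ) :
    T (g ^ (n + 1)) ≠ 0 ∧ x (T (g ^ (n + 1))) = ((n + 1 : ℕ) : ℝ) * x (T g) := by
  have h0 : T g ≠ 0 := by
    intro h
    rw [h, hx.zero] at hg
    exact lt_irrefl _ hg
  have h2 : (2 : K) = 0 := FrV.two_eq_zero K
  have hrec : ∀ m : ℕ, T (g ^ (m + 2)) = T g * T (g ^ (m + 1)) + T (g ^ m) := by
    intro m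
    have h3 := H.rel (g ^ (m + 1)) g
    have h4 : g ^ (m + 1) * g = g ^ (m + 2) := (pow_succ g (m + 1)).symm
    have h5 : g ^ (m + 1) * g⁻¹ = g ^ m := by rw [pow_succ, mul_inv_cancel_right]
    rw [h4, h5] at h3
    linear_combination h3 - T (g ^ m) * h2
  induction n using Nat.twoStepInduction with
  | zero =>
    rw [zero_add, pow_one, Nat.cast_one, one_mul]
    exact ⟨h0, rfl⟩
  | one =>
    rw [hrec 0, pow_zero, H.one, h2, add_zero, zero_add, pow_one]
    refine ⟨mul_ne_zero h0 h0, ?_⟩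
    rw [hx.mul _ _ h0 h0]
    push_cast
    ring
  | more n ih1 ih2 =>
    rw [hrec (n + 1)]
    have h3 : x (T g * T (g ^ (n + 1 + 1))) = x (T g) + x (T (g ^ (n + 1 + 1))) :=
      hx.mul _ _ h0 ih2.1
    obtain ⟨h4, h5⟩ := add_eq hx (mul_ne_zero h0 ih2.1) (b := T (g ^ (n + 1))) (by
      right
      rw [h3, ih2.2, ih1.2]
      push_cast
      nlinarith)
    refine ⟨h4, ?_⟩
    rw [h5, h3, ih2.2]
    push_cast
    ring

theorem pow_nonneg' (H : HB 2 b Γ K F T ρ) (hx : IsV x) {g : Γ} {n : ℕ} (hn : 0 < n)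
    (hg : 0 ≤ x (T (g ^ n))) : 0 ≤ x (T g) := by
  by_contra hlt
  push Not at hlt
  obtain ⟨m, rfl⟩ : ∃ m, n = m + 1 := ⟨n - 1, by omega⟩
  have h1 := (pow_neg H hx hlt m).2
  rw [h1] at hg
  push_cast at hg
  have h2 : (0 : ℝ) ≤ m := Nat.cast_nonneg m
  nlinarith

theorem tr_sq (H : HB 2 b Γ K F T ρ) (g h : Γ) (hgh : g * h = h * g) :
    T (g * h) * T (g * h) = (T g * T h) * T (g * h) + (T g * T g + T h * T h) := by
  have key : ∀ A B : SpecialLinearGroup (Fin 2) F, A * B = B * A →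
      (A * B).1.trace * (A * B).1.trace = (A.1.trace * B.1.trace) * (A * B).1.trace -
        (A.1.trace * A.1.trace + B.1.trace * B.1.trace) + 4 := by
    intro A B hAB
    have h1 : A * B * (A⁻¹ * B⁻¹) = 1 := by
      rw [hAB]
      group
    have h2 := congrArg (fun M : SpecialLinearGroup (Fin 2) F => M.1.trace) h1
    have hA := sl_det A
    have hB := sl_det B
    obtain ⟨a1, a2, a3, a4⟩ := sl_inv A
    obtain ⟨b1, b2, b3, b4⟩ := sl_inv B
    simp only [sl_tr, sl_mul, a1, a2, a3, a4, b1, b2, b3, b4] at h2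
    have e1 : (1 : SpecialLinearGroup (Fin 2) F).1 0 0 = 1 := rfl
    have e2 : (1 : SpecialLinearGroup (Fin 2) F).1 1 1 = 1 := rfl
    rw [e1, e2] at h2
    simp only [sl_tr, sl_mul]
    generalize A.1 0 0 = a at *
    generalize A.1 0 1 = b at *
    generalize A.1 1 0 = c at *
    generalize A.1 1 1 = d at *
    generalize B.1 0 0 = e at *
    generalize B.1 0 1 = f at *
    generalize B.1 1 0 = g at *
    generalize B.1 1 1 = h at *
    linear_combination h2 - (a + d) ^ 2 * hB - (e + h) ^ 2 * hA + 2 * (e * h - f * g) * hA + 2 * hB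
  apply (algebraMap K F).injective
  have h2 : (2 : F) = 0 := FrV.two_eq_zero F
  have h1 := key (ρ g) (ρ h) (by rw [← map_mul, ← map_mul, hgh])
  rw [← map_mul, H.tr, H.tr, H.tr] at h1
  simp only [map_add, map_mul]
  linear_combination h1 - (algebraMap K F (T g) * algebraMap K F (T g) +
    algebraMap K F (T h) * algebraMap K F (T h) - 2) * h2

/-- in an abelian group the elements with traces of non-negative value form a subgroup -/
theorem mul_nonneg' (H : HB 2 b Γ K F T ρ) (hx : IsV x) {g h : Γ} (hgh : g * h = h * g)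
    (hg : 0 ≤ x (T g)) (hh : 0 ≤ x (T h)) : 0 ≤ x (T (g * h)) := by
  refine nonneg_quad hx (tr_sq H g h hgh) ?_ ?_
  · by_cases h0 : T g = 0
    · left
      rw [h0, zero_mul]
    by_cases h0' : T h = 0
    · left
      rw [h0', mul_zero]
    right
    rw [hx.mul _ _ h0 h0']
    exact add_nonneg hg hh
  · have hsq : ∀ a : K, 0 ≤ x a → a * a = 0 ∨ 0 ≤ x (a * a) := by
      intro a ha
      by_cases h0 : a = 0
      · left
        rw [h0, mul_zero]
      · right
        rw [hx.mul _ _ h0 h0]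
        exact add_nonneg ha ha
    by_cases h1 : T g * T g = 0
    · rw [h1, zero_add]
      exact hsq _ hh
    by_cases h2 : T h * T h = 0
    · rw [h2, add_zero]
      exact hsq _ hg
    by_cases h3 : T g * T g + T h * T h = 0
    · exact Or.inl h3
    · exact Or.inr ((le_min ((hsq _ hg).resolve_left h1) ((hsq _ hh).resolve_left h2)).trans
        (hx.add _ _ h1 h2 h3))

theorem inv_tr (H : HB 2 b Γ K F T ρ) (g : Γ) : T g⁻¹ = T g := by
  have h1 := H.rel 1 g
  have h2 : (2 : K) = 0 := FrV.two_eq_zero K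
  rw [one_mul, one_mul, H.one, h2, zero_mul] at h1
  rw [eq_neg_of_add_eq_zero_right h1, FrV.neg_eq]

theorem one_nonneg (H : HB 2 b Γ K F T ρ) (hx : IsV x) : 0 ≤ x (T 1) := by
  rw [H.one, FrV.two_eq_zero K, hx.zero]

theorem closure_nonneg (H : HB 2 b Γ K F T ρ) (hx : IsV x) {G : Subgroup Γ}
    (hG : ∀ a ∈ G, ∀ b ∈ G, a * b = b * a) {X : Set Γ} (hXG : X ⊆ G) (hX : ∀ c ∈ X, 0 ≤ x (T c))
    {g : Γ} (hg : g ∈ Subgroup.closure X) : 0 ≤ x (T g) := by
  have hle : Subgroup.closure X ≤ G := (Subgroup.closure_le G).2 hXG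
  induction hg using Subgroup.closure_induction with
  | mem c hc => exact hX c hc
  | one => exact one_nonneg H hx
  | mul a b ha hb ih1 ih2 => exact mul_nonneg' H hx (hG a (hle ha) b (hle hb)) ih1 ih2
  | inv a _ ih =>
    rw [inv_tr H]
    exact ih

/-- LEMMA X: at an abelian vertex with incident groups of non-negative value all traces have
non-negative value -/
theorem ab_vertex (H : Blk b Γ K F T ρ) {S : GG Γ} (hS : S.Adm) (hx : IsV x)
    (hel : ∀ e, ∀ c ∈ S.C e, 0 ≤ x (T c)) {v : S.V} (hv : ¬ S.NA v) {g : Γ} (hg : g ∈ S.G v) :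
    0 ≤ x (T g) := by
  have hnc : ∃ y z : Γ, y * z ≠ z * y := by
    by_contra hcon
    push Not at hcon
    exact H.nab fun x y => hcon x y
  obtain ⟨n, hn, hgn⟩ := (FrX.lemX_adm H.hb H.cls.inj hnc S hS v hv).2 g hg
  refine pow_nonneg' H.hb hx hn ?_
  refine closure_nonneg H.hb hx (G := S.G v) (not_not.1 hv) ?_ ?_ hgn
  · rintro c ⟨e, ⟨rfl, hc⟩ | ⟨rfl, d, hd, rfl⟩⟩
    · exact S.Ca e hc
    · exact S.Cb e d hd
  · rintro c ⟨e, ⟨rfl, hc⟩ | ⟨rfl, d, hd, rfl⟩⟩
    · exact hel e c hc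
    · have h1 : T ((S.s e)⁻¹ * d * S.s e) = T d := by
        rw [mul_assoc, H.hb.comm]
        group
      rw [h1]
      exact hel e d hd

end

end Pool.Agent.FrS
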