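import Pool.Agent.Lib.MP_305fdd_al.Fr.S.Rk

/-!
# MP_305fdd_al, F_r project, section SP: two copies of a field which are independent over a subfield
-/

set_option autoImplicit false

namespace Pool.Agent.FrS

open Algebra

/-- an extension of a `k₁`-algebra map defined by a transcendence basis -/
theorem exists_ext_tb {R k L ι : Type} [CommRing R] [IsDomain R] [Field k] [Algebra R k] [Field L]
    [IsAlgClosed L] [Algebra R L] (x : ι → k) (hx : IsTranscendenceBasis R x) (y : ι → L)
    (hy : AlgebraicIndependent R y) :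
    ∃ τ : k →ₐ[R] L, ∀ i, τ (x i) = y i := by
  let A := adjoin R (Set.range x)
  let φ : A →ₐ[R] L := (MvPolynomial.aeval y).comp hx.1.aevalEquiv.symm.toAlgHom
  have hφ : Function.Injective φ := by
    intro a b hab
    have h1 : hx.1.aevalEquiv.symm a = hx.1.aevalEquiv.symm b := hy hab
    exact hx.1.aevalEquiv.symm.injective h1
  let _ : Algebra A L := φ.toRingHom.toAlgebra
  have hmap : ∀ a : A, algebraMap A L a = φ a := fun _ => rfl
  have h2 : FaithfulSMul A L := (faithfulSMul_iff_algebraMap_injective A L).2 hφ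
  have h3 : Algebra.IsAlgebraic A k := hx.isAlgebraic
  let τ : k →ₐ[A] L := IsAlgClosed.lift
  have hτ : ∀ a : A, τ (a : k) = φ a := fun a => τ.commutes a
  refine ⟨{ τ.toRingHom with
    commutes' := fun r => ?_ }, fun i => ?_⟩
  · have h4 := hτ (algebraMap R A r)
    rw [φ.commutes] at h4
    exact h4
  · have h4 := hτ ⟨x i, subset_adjoin ⟨i, rfl⟩⟩
    refine h4.trans ?_
    have h5 : hx.1.aevalEquiv (MvPolynomial.X i) = ⟨x i, subset_adjoin ⟨i, rfl⟩⟩ := by
      apply Subtype.ext
      have h6 := hx.1.algebraMap_aevalEquiv (MvPolynomial.X i)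
      rw [MvPolynomial.aeval_X] at h6
      exact h6
    rw [← h5]
    change MvPolynomial.aeval y (hx.1.aevalEquiv.symm (hx.1.aevalEquiv (MvPolynomial.X i))) = y i
    rw [AlgEquiv.symm_apply_apply, MvPolynomial.aeval_X]

/-- Two embeddings of `k` which agree on the elements algebraic over `Z` and are otherwise
independent. -/
theorem exists_generic {k : Type} [Field k] [Algebra (ZMod 2) k] (Z X : Set k) (hZX : Z ⊆ X) :
    ∃ (L : Type) (_ : Field L) (_ : Algebra (ZMod 2) L) (j τ : k →ₐ[ZMod 2] L),
      (∀ a : k, IsAlgebraic (adjoin (ZMod 2) Z) a → j a = τ a) ∧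
      ∀ W : Set k, er X + er (Z ∪ W) ≤ er Z + er (τ '' X ∪ j '' (Z ∪ W)) := by
  classical
  let M := AlgebraicIndependent.matroid (ZMod 2) k
  obtain ⟨BZ, hBZ⟩ := M.exists_isBasis Z
  obtain ⟨BX, hBX, hZB⟩ := hBZ.indep.subset_isBasis_of_subset (hBZ.subset.trans hZX)
  -- the independent part
  have hind : AlgebraicIndependent (ZMod 2) (fun i : BX => (i : k)) := hBX.indep
  let R₁ := adjoin (ZMod 2) BZ
  let k₁ := Subalgebra.algebraicClosure R₁ k
  have h1 : AlgebraicIndependent R₁ (fun i : (BX \ BZ : Set k) => (i : k)) := by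
    have h2 := hind.adjoin_of_disjoint (s := {i : BX | (i : k) ∈ BZ})
      (t := {i : BX | (i : k) ∉ BZ}) (by
        rw [Set.disjoint_left]
        intro i hi hi'
        exact hi' hi)
    have h3 : (fun i : BX => (i : k)) '' {i : BX | (i : k) ∈ BZ} = BZ := by
      ext z
      constructor
      · rintro ⟨i, hi, rfl⟩
        exact hi
      · intro hz
        exact ⟨⟨z, hZB hz⟩, hz, rfl⟩
    rw [h3] at h2
    exact h2.comp (fun i : (BX \ BZ : Set k) => (⟨⟨i, i.2.1⟩, i.2.2⟩ :
      {i : BX | (i : k) ∉ BZ})) (by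
        intro a b hab
        apply Subtype.ext
        exact congrArg (fun c : {i : BX | (i : k) ∉ BZ} => ((c : BX) : k)) hab)
  have h2 : AlgebraicIndependent k₁ (fun i : (BX \ BZ : Set k) => (i : k)) :=
    h1.subalgebraAlgebraicClosure
  obtain ⟨B, hB, hBt⟩ := exists_isTranscendenceBasis_superset (R := k₁) (s := BX \ BZ) h2
  -- the big field
  let L := AlgebraicClosure (FractionRing (MvPolynomial B k))
  let j : k →ₐ[ZMod 2] L := IsScalarTower.toAlgHom (ZMod 2) k L
  let y : B → L := fun b => algebraMap (MvPolynomial B k) L (MvPolynomial.X b)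
  have hinj : Function.Injective (algebraMap (MvPolynomial B k) L) := by
    have h3 : algebraMap (MvPolynomial B k) L =
        (algebraMap (FractionRing (MvPolynomial B k)) L).comp
          (algebraMap (MvPolynomial B k) (FractionRing (MvPolynomial B k))) :=
      IsScalarTower.algebraMap_eq _ _ _
    rw [h3]
    exact (algebraMap (FractionRing (MvPolynomial B k)) L).injective.comp
      (IsFractionRing.injective _ _)
  have hy : AlgebraicIndependent k y := by
    have h3 := (MvPolynomial.algebraicIndependent_X B k).map'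
      (f := IsScalarTower.toAlgHom k (MvPolynomial B k) L) hinj
    exact h3
  have hy1 : AlgebraicIndependent k₁ y :=
    hy.restrictScalars (R := k₁) (FaithfulSMul.algebraMap_injective k₁ k)
  obtain ⟨τ, hτ⟩ := exists_ext_tb (R := k₁) (fun b : B => (b : k)) hBt y hy1
  refine ⟨L, inferInstance, inferInstance, j, τ.restrictScalars (ZMod 2), ?_, ?_⟩
  · intro a ha
    have h3 : IsAlgebraic (adjoin (ZMod 2) BZ) a :=
      (AlgebraicIndependent.isAlgebraic_adjoin_iff_of_matroid_isBasis hBZ).2 ha
    have h4 := τ.commutes ⟨a, h3⟩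
    exact h4.symm
  · intro W
    have h3 : AlgebraicIndependent k (fun b : (BX \ BZ : Set k) => y ⟨b, hB b.2⟩) :=
      hy.comp (fun b : (BX \ BZ : Set k) => (⟨b, hB b.2⟩ : B)) (by
        intro a b hab
        apply Subtype.ext
        exact congrArg (fun c : B => (c : k)) hab)
    have h4 := er_add _ h3 (Z ∪ W)
    have h5 : er X = er Z + (BX \ BZ).encard := by
      have h6 : er X = BX.encard := hBX.encard_eq_eRk.symm
      have h7 : er Z = BZ.encard := hBZ.encard_eq_eRk.symm
      rw [h6, h7, add_comm, Set.encard_diff_add_encard_of_subset hZB]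
    rw [h5, add_assoc]
    refine add_le_add le_rfl (le_trans h4 (er_mono ?_))
    rintro z (⟨b, rfl⟩ | hz)
    · left
      exact ⟨b, hBX.subset b.2.1, hτ ⟨b, hB b.2⟩⟩
    · right
      exact hz

end Pool.Agent.FrS
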