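import Pool.Agent.Lib.MP_305fdd_al.Fr.S.Up

/-!
# MP_305fdd_al, F_r project, section SP: diagonalisation in characteristic two
-/

set_option autoImplicit false

namespace Pool.Agent.FrS

open Matrix (SpecialLinearGroup)

section

variable {F : Type} [Field F]

/-- the diagonal matrix with entries `a`, `a⁻¹` -/
def dg (a : Fˣ) : SpecialLinearGroup (Fin 2) F :=
  ⟨!![(a : F), 0; 0, ((a⁻¹ : Fˣ) : F)], by rw [Matrix.det_fin_two_of]; simp⟩

theorem dg_00 (a : Fˣ) : (dg a).1 0 0 = a := rfl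
theorem dg_01 (a : Fˣ) : (dg a).1 0 1 = 0 := rfl
theorem dg_10 (a : Fˣ) : (dg a).1 1 0 = 0 := rfl
theorem dg_11 (a : Fˣ) : (dg a).1 1 1 = ((a⁻¹ : Fˣ) : F) := rfl

theorem sl_ext {A B : SpecialLinearGroup (Fin 2) F} (h00 : A.1 0 0 = B.1 0 0)
    (h01 : A.1 0 1 = B.1 0 1) (h10 : A.1 1 0 = B.1 1 0) (h11 : A.1 1 1 = B.1 1 1) : A = B := by
  apply Subtype.ext
  ext i j
  fin_cases i <;> fin_cases j
  · exact h00
  · exact h01
  · exact h10
  · exact h11

theorem sl_mul (A B : SpecialLinearGroup (Fin 2) F) (i j : Fin 2) :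
    (A * B).1 i j = A.1 i 0 * B.1 0 j + A.1 i 1 * B.1 1 j := by
  change (A.1 * B.1) i j = _
  rw [Matrix.mul_apply, Fin.sum_univ_two]

theorem sl_det (A : SpecialLinearGroup (Fin 2) F) : A.1 0 0 * A.1 1 1 - A.1 0 1 * A.1 1 0 = 1 := by
  have h := A.2
  rwa [Matrix.det_fin_two] at h

theorem sl_inv (A : SpecialLinearGroup (Fin 2) F) : (A⁻¹).1 0 0 = A.1 1 1 ∧
    (A⁻¹).1 0 1 = - A.1 0 1 ∧ (A⁻¹).1 1 0 = - A.1 1 0 ∧ (A⁻¹).1 1 1 = A.1 0 0 := by
  rw [Matrix.SpecialLinearGroup.coe_inv, Matrix.adjugate_fin_two]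
  simp

theorem sl_tr (A : SpecialLinearGroup (Fin 2) F) : A.1.trace = A.1 0 0 + A.1 1 1 :=
  Matrix.trace_fin_two _

theorem tr_conj (P A : SpecialLinearGroup (Fin 2) F) : (P * A * P⁻¹).1.trace = A.1.trace := by
  change ((P.1 * A.1) * (P⁻¹).1).trace = _
  rw [Matrix.trace_mul_comm, ← Matrix.mul_assoc]
  change (((P⁻¹ * P) * A : SpecialLinearGroup (Fin 2) F)).1.trace = _
  rw [inv_mul_cancel, one_mul]

theorem tr_conj' (P A : SpecialLinearGroup (Fin 2) F) : (P⁻¹ * A * P).1.trace = A.1.trace := by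
  have h := tr_conj P⁻¹ A
  rwa [inv_inv] at h

/-- eigenvectors -/
theorem exists_eig (M : SpecialLinearGroup (Fin 2) F) (z : F)
    (hz : z ^ 2 - M.1.trace * z + 1 = 0) : ∃ u v : F, (u ≠ 0 ∨ v ≠ 0) ∧
      M.1 0 0 * u + M.1 0 1 * v = z * u ∧ M.1 1 0 * u + M.1 1 1 * v = z * v := by
  have hdet := sl_det M
  rw [sl_tr] at hz
  have h1 : (M.1 - z • (1 : Matrix (Fin 2) (Fin 2) F)).det = 0 := by
    rw [Matrix.det_fin_two]
    simp only [Matrix.sub_apply, Matrix.smul_apply, Matrix.one_apply_eq, smul_eq_mul, mul_one,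
      Matrix.one_apply_ne (show (0 : Fin 2) ≠ 1 by decide),
      Matrix.one_apply_ne (show (1 : Fin 2) ≠ 0 by decide), mul_zero, sub_zero]
    linear_combination hdet + hz
  obtain ⟨x, hx, hx'⟩ := Matrix.exists_mulVec_eq_zero_iff.2 h1
  have h2 := congrFun hx' 0
  have h3 := congrFun hx' 1
  simp only [Matrix.mulVec, dotProduct, Fin.sum_univ_two, Matrix.sub_apply, Matrix.smul_apply,
    Matrix.one_apply_eq, smul_eq_mul, mul_one, Matrix.one_apply_ne (show (0 : Fin 2) ≠ 1 by decide),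
    Matrix.one_apply_ne (show (1 : Fin 2) ≠ 0 by decide), mul_zero, sub_zero, Pi.zero_apply]
    at h2 h3
  refine ⟨x 0, x 1, ?_, by linear_combination h2, by linear_combination h3⟩
  by_contra hne
  push Not at hne
  apply hx
  funext i
  fin_cases i
  · exact hne.1
  · exact hne.2

/-- diagonalisation of matrices with different eigenvalues -/
theorem exists_diag [IsAlgClosed F] [CharP F 2] (M : SpecialLinearGroup (Fin 2) F)
    (hM : M.1.trace ≠ 0) : ∃ (P : SpecialLinearGroup (Fin 2) F) (a : Fˣ),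
      P⁻¹ * M * P = dg a ∧ (a : F) ≠ ((a⁻¹ : Fˣ) : F) := by
  have h2 : (2 : F) = 0 := CharTwo.two_eq_zero
  obtain ⟨z, hz⟩ := IsAlgClosed.exists_root (Polynomial.X ^ 2 + (Polynomial.C (-M.1.trace) *
    Polynomial.X + Polynomial.C 1) : Polynomial F) (by
      have h1 : (Polynomial.C (-M.1.trace) * Polynomial.X + Polynomial.C 1 :
          Polynomial F).degree < (Polynomial.X ^ 2 : Polynomial F).degree := by
        rw [Polynomial.degree_X_pow]
        exact lt_of_le_of_lt Polynomial.degree_linear_le (by norm_num)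
      rw [Polynomial.degree_add_eq_left_of_degree_lt h1, Polynomial.degree_X_pow]
      norm_num)
  simp only [Polynomial.IsRoot.def, Polynomial.eval_add, Polynomial.eval_pow, Polynomial.eval_X,
    Polynomial.eval_mul, Polynomial.eval_C] at hz
  set T := M.1.trace with hT
  have hz0 : z ≠ 0 := by
    rintro rfl
    simp at hz
  have hz1 : z ^ 2 - T * z + 1 = 0 := by linear_combination hz
  have hw1 : (T - z) ^ 2 - T * (T - z) + 1 = 0 := by linear_combination hz
  have hzw : z * (T - z) = 1 := by linear_combination -hz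
  have hw0 : T - z ≠ 0 := right_ne_zero_of_mul_eq_one hzw
  have hne : z ≠ T - z := by
    intro h
    apply hM
    linear_combination -h + z * h2
  obtain ⟨u0, u1, hu, hu0, hu1⟩ := exists_eig M z hz1
  obtain ⟨v0, v1, hv, hv0, hv1⟩ := exists_eig M (T - z) hw1
  generalize T - z = w at *
  have hd : u0 * v1 - v0 * u1 ≠ 0 := by
    intro h
    have h3 : (z - w) * (u0 * v0) = 0 := by
      linear_combination (-v0) * hu0 + u0 * hv0 - M.1 0 1 * h
    have h4 : (z - w) * (u1 * v1) = 0 := by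
      linear_combination (-v1) * hu1 + u1 * hv1 + M.1 1 0 * h
    have h5 : (z - w) * (u0 * v1) = 0 := by
      linear_combination (z - M.1 1 1) * h + u0 * hv1 - v0 * hu1
    have h6 : (z - w) * (u1 * v0) = 0 := by
      linear_combination (M.1 0 0 - z) * h + u1 * hv0 - v1 * hu0
    have hzw' : z - w ≠ 0 := sub_ne_zero.2 hne
    have g3 := (mul_eq_zero.1 h3).resolve_left hzw'
    have g4 := (mul_eq_zero.1 h4).resolve_left hzw'
    have g5 := (mul_eq_zero.1 h5).resolve_left hzw'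
    have g6 := (mul_eq_zero.1 h6).resolve_left hzw'
    rcases hu with hu | hu
    · rcases hv with hv | hv
      · exact mul_ne_zero hu hv g3
      · exact mul_ne_zero hu hv g5
    · rcases hv with hv | hv
      · exact mul_ne_zero hu hv g6
      · exact mul_ne_zero hu hv g4
  set D := u0 * v1 - v0 * u1 with hD
  let P : SpecialLinearGroup (Fin 2) F := ⟨!![u0, v0 / D; u1, v1 / D], by
    rw [Matrix.det_fin_two_of]
    field_simp
    rw [hD]⟩
  have hP00 : P.1 0 0 = u0 := rfl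
  have hP01 : P.1 0 1 = v0 / D := rfl
  have hP10 : P.1 1 0 = u1 := rfl
  have hP11 : P.1 1 1 = v1 / D := rfl
  let a : Fˣ := ⟨z, w, hzw, by rw [mul_comm]; exact hzw⟩
  refine ⟨P, a, ?_, hne⟩
  have key : M * P = P * dg a := by
    apply sl_ext
    · rw [sl_mul, sl_mul, hP00, hP01, hP10, dg_00, dg_10, hu0]
      change z * u0 = u0 * z + v0 / D * 0
      ring
    · rw [sl_mul, sl_mul, hP00, hP01, hP11, dg_01, dg_11]
      change M.1 0 0 * (v0 / D) + M.1 0 1 * (v1 / D) = u0 * 0 + v0 / D * w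
      have : M.1 0 0 * (v0 / D) + M.1 0 1 * (v1 / D) = (M.1 0 0 * v0 + M.1 0 1 * v1) / D := by ring
      rw [this, hv0]
      ring
    · rw [sl_mul, sl_mul, hP00, hP11, hP10, dg_00, dg_10, hu1]
      change z * u1 = u1 * z + v1 / D * 0
      ring
    · rw [sl_mul, sl_mul, hP10, hP01, hP11, dg_01, dg_11]
      change M.1 1 0 * (v0 / D) + M.1 1 1 * (v1 / D) = u1 * 0 + v1 / D * w
      have : M.1 1 0 * (v0 / D) + M.1 1 1 * (v1 / D) = (M.1 1 0 * v0 + M.1 1 1 * v1) / D := by ring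
      rw [this, hv1]
      ring
  rw [mul_assoc, key, ← mul_assoc, inv_mul_cancel, one_mul]

/-- matrices which commute with a diagonal matrix with different entries -/
theorem comm_dg {N : SpecialLinearGroup (Fin 2) F} {a : Fˣ} (ha : (a : F) ≠ ((a⁻¹ : Fˣ) : F))
    (h : N * dg a = dg a * N) : N.1 0 1 = 0 ∧ N.1 1 0 = 0 := by
  have h01 := congrArg (fun A : SpecialLinearGroup (Fin 2) F => A.1 0 1) h
  have h10 := congrArg (fun A : SpecialLinearGroup (Fin 2) F => A.1 1 0) h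
  simp only [sl_mul, dg_00, dg_01, dg_10, dg_11] at h01 h10
  have hs : (a : F) - ((a⁻¹ : Fˣ) : F) ≠ 0 := sub_ne_zero.2 ha
  constructor
  · have h1 : ((a : F) - ((a⁻¹ : Fˣ) : F)) * N.1 0 1 = 0 := by linear_combination -h01
    exact (mul_eq_zero.1 h1).resolve_left hs
  · have h1 : ((a : F) - ((a⁻¹ : Fˣ) : F)) * N.1 1 0 = 0 := by linear_combination h10
    exact (mul_eq_zero.1 h1).resolve_left hs

/-- a matrix with vanishing off-diagonal entries -/
theorem eq_dg {N : SpecialLinearGroup (Fin 2) F} (h01 : N.1 0 1 = 0) (h10 : N.1 1 0 = 0) :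
    ∃ b : Fˣ, N = dg b := by
  have h := sl_det N
  rw [h01, zero_mul, sub_zero] at h
  refine ⟨⟨N.1 0 0, N.1 1 1, h, by rw [mul_comm]; exact h⟩, ?_⟩
  apply sl_ext
  · rfl
  · rw [h01]; rfl
  · rw [h10]; rfl
  · rfl

theorem dg_comm (a b : Fˣ) : dg a * dg b = dg b * dg a := by
  apply sl_ext <;> simp only [sl_mul, dg_00, dg_01, dg_10, dg_11] <;> ring

theorem dg_mul (a b : Fˣ) : dg a * dg b = dg (a * b) := by
  apply sl_ext <;> simp only [sl_mul, dg_00, dg_01, dg_10, dg_11, mul_inv, Units.val_mul] <;> ring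

theorem dg_inv (a : Fˣ) : (dg a)⁻¹ = dg a⁻¹ := by
  rw [inv_eq_iff_mul_eq_one, dg_mul, mul_inv_cancel]
  apply sl_ext <;> simp only [dg_00, dg_01, dg_10, dg_11] <;> simp

end

end Pool.Agent.FrS
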