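import Pool.Agent.Lib.MP_305fdd_al.Fr.S.Bend
import Pool.Agent.Lib.MP_305fdd_al.Fr.S.Gen

/-!
# MP_305fdd_al, F_r project, section SP: the moving lemma
-/

set_option autoImplicit false

namespace Pool.Agent.FrS

open Matrix (SpecialLinearGroup)
open Pool.Agent.FrN Pool.Agent.FrAsm

section

variable {Γ F : Type} [Group Γ] [Field F] [Algebra (ZMod 2) F]
  {ρ : Γ →* SpecialLinearGroup (Fin 2) F}

theorem tr_cj (s c : Γ) : tr ρ (s⁻¹ * c * s) = tr ρ c := by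
  unfold tr
  rw [map_mul, map_mul, map_inv]
  exact tr_conj' _ _

theorem tr_cj' (s c : Γ) : tr ρ (s * c * s⁻¹) = tr ρ c := by
  unfold tr
  rw [map_mul, map_mul, map_inv]
  exact tr_conj _ _

theorem dv_sub (S : GG Γ) (v : S.V) : dv ρ S v ⊆ trs ρ (S.G v : Set Γ) := by
  rintro _ ⟨c, ⟨e, he, hc⟩, rfl⟩
  rcases he with he | he
  · exact ⟨c, he ▸ S.Ca e hc, rfl⟩
  · exact ⟨_, he ▸ S.Cb e c hc, tr_cj _ _⟩

/-- Two base changes which agree on the traces of a set of elements commuting with a nontrivial element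
are conjugate on this set. -/
theorem exists_conj (hT : ∀ g, tr ρ g = 0 → g = 1) {k : Type} [Field k] [IsAlgClosed k]
    [Algebra (ZMod 2) k] (i : F →ₐ[ZMod 2] k) {L : Type} [Field L] [Algebra (ZMod 2) L]
    (j τ : k →ₐ[ZMod 2] L) (Z : Set k)
    (hZ : ∀ a : k, IsAlgebraic (Algebra.adjoin (ZMod 2) Z) a → j a = τ a) {c : Γ} (hc : c ≠ 1)
    (H : Set Γ) (hH : ∀ d ∈ H, d * c = c * d) (hHZ : ∀ d ∈ H, i (tr ρ d) ∈ Z) :
    ∃ h : SpecialLinearGroup (Fin 2) L, ∀ d ∈ H,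
      Matrix.SpecialLinearGroup.map (τ : k →+* L) (bc (i : F →+* k) ρ d) =
        h⁻¹ * Matrix.SpecialLinearGroup.map (j : k →+* L) (bc (i : F →+* k) ρ d) * h := by
  have _ := charTwo_of_alg k
  obtain ⟨P, hP⟩ := exists_torus hT (i : F →+* k) hc
  set mj := Matrix.SpecialLinearGroup.map (n := Fin 2) (j : k →+* L) with hmj
  set mτ := Matrix.SpecialLinearGroup.map (n := Fin 2) (τ : k →+* L) with hmτ
  refine ⟨mj P * (mτ P)⁻¹, fun d hd => ?_⟩
  obtain ⟨b, hb⟩ := hP d (hH d hd)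
  have hd' : bc (i : F →+* k) ρ d = P * dg b * P⁻¹ := by
    rw [← hb]
    group
  -- the eigenvalue is algebraic
  have htr : i (tr ρ d) = (b : k) + ((b⁻¹ : kˣ) : k) := by
    have h1 := tr_bc (i : F →+* k) ρ d
    have h2 : tr (bc (i : F →+* k) ρ) d = (b : k) + ((b⁻¹ : kˣ) : k) := by
      unfold tr
      rw [hd', tr_conj, sl_tr, dg_00, dg_11]
    rw [← h2, h1]
    rfl
  have halg : IsAlgebraic (Algebra.adjoin (ZMod 2) Z) (b : k) := by
    let t : Algebra.adjoin (ZMod 2) Z := ⟨i (tr ρ d), Algebra.subset_adjoin (hHZ d hd)⟩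
    refine ⟨Polynomial.X ^ 2 - Polynomial.C t * Polynomial.X + Polynomial.C 1, ?_, ?_⟩
    · intro h0
      have h1 := congrArg (fun p => Polynomial.coeff p 2) h0
      simp [Polynomial.coeff_X, Polynomial.coeff_C, Polynomial.coeff_one] at h1
    · have h1 : (algebraMap (Algebra.adjoin (ZMod 2) Z) k) t = (b : k) + ((b⁻¹ : kˣ) : k) := htr
      simp only [map_add, map_sub, map_mul, map_pow, Polynomial.aeval_X, Polynomial.aeval_C, h1,
        map_one]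
      have h2 : (b : k) * ((b⁻¹ : kˣ) : k) = 1 := by simp
      linear_combination -h2
  have hjb := hZ _ halg
  have hdg : mj (dg b) = mτ (dg b) := by
    apply sl_ext
    · exact hjb
    · change j ((dg b).1 0 1) = τ ((dg b).1 0 1)
      rw [dg_01, map_zero, map_zero]
    · change j ((dg b).1 1 0) = τ ((dg b).1 1 0)
      rw [dg_10, map_zero, map_zero]
    · change j ((b⁻¹ : kˣ) : k) = τ ((b⁻¹ : kˣ) : k)
      rw [Units.val_inv_eq_inv_val, map_inv₀, map_inv₀, hjb]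
  rw [hd']
  simp only [map_mul, map_inv]
  rw [hdg]
  group

/-- MOVING LEMMA: the traces of one vertex group and the traces of the other vertex groups are
independent over the traces of the edge groups. -/
theorem move_vertex (hU : Uv Γ F ρ) (hT : ∀ g, tr ρ g = 0 → g = 1) {S : GG Γ} (hS : S.UP)
    (hne : ∀ e, S.C e ≠ ⊥) (hab : ∀ e, ∀ x ∈ S.C e, ∀ y ∈ S.C e, x * y = y * x) (v : S.V)
    (Y : Set Γ) (hY : ∀ z ∈ Y, (∃ w, w ≠ v ∧ z ∈ S.G w) ∨
      ∃ e, (S.a e = v ∨ S.b e = v) ∧ z ∈ S.C e) :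
    er (trs ρ (S.G v : Set Γ)) + er (dv ρ S v ∪ trs ρ Y) ≤
      er (dv ρ S v) + er (trs ρ (S.G v : Set Γ) ∪ trs ρ Y) := by
  let k := AlgebraicClosure F
  let i : F →ₐ[ZMod 2] k := IsScalarTower.toAlgHom (ZMod 2) F k
  obtain ⟨L, _, _, j, τ, hZ, hW⟩ := exists_generic (i '' dv ρ S v) (i '' trs ρ (S.G v : Set Γ))
    (Set.image_mono (dv_sub S v))
  let mj := Matrix.SpecialLinearGroup.map (n := Fin 2) (j : k →+* L)
  let mτ := Matrix.SpecialLinearGroup.map (n := Fin 2) (τ : k →+* L)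
  let r₀ : Γ →* SpecialLinearGroup (Fin 2) L := mj.comp (bc (i : F →+* k) ρ)
  let r₁ : Γ →* SpecialLinearGroup (Fin 2) L := mτ.comp (bc (i : F →+* k) ρ)
  have hr₀ : ∀ g, tr r₀ g = j (i (tr ρ g)) := by
    intro g
    have h1 := tr_bc (j : k →+* L) (bc (i : F →+* k) ρ) g
    rw [tr_bc (i : F →+* k) ρ g] at h1
    exact h1
  have hr₁ : ∀ g, tr r₁ g = τ (i (tr ρ g)) := by
    intro g
    have h1 := tr_bc (τ : k →+* L) (bc (i : F →+* k) ρ) g
    rw [tr_bc (i : F →+* k) ρ g] at h1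
    exact h1
  have hc0 : ∀ e, ∃ c ∈ S.C e, c ≠ 1 := by
    intro e
    obtain ⟨c, hc⟩ := (S.C e).ne_bot_iff_exists_ne_one.1 (hne e)
    exact ⟨c, c.2, fun h' => hc (Subtype.ext h')⟩
  obtain ⟨r, g, hr1, hr2⟩ := hS.move r₀ v r₁ (fun x _ y _ => map_mul r₁ x y) (by
    intro e he
    obtain ⟨c, hc, hc1⟩ := hc0 e
    exact exists_conj hT i j τ _ hZ hc1 (S.C e : Set Γ) (fun d hd => hab e d hd c hc)
      (fun d hd => ⟨_, ⟨d, ⟨e, Or.inl he, hd⟩, rfl⟩, rfl⟩)) (by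
    intro e he
    obtain ⟨c, hc, hc1⟩ := hc0 e
    obtain ⟨h, hh⟩ := exists_conj hT i j τ _ hZ (c := (S.s e)⁻¹ * c * S.s e) (by
        intro h
        apply hc1
        have h1 : c = S.s e * ((S.s e)⁻¹ * c * S.s e) * (S.s e)⁻¹ := by group
        rw [h1, h]
        group) ((fun d => (S.s e)⁻¹ * d * S.s e) '' (S.C e : Set Γ)) (by
        rintro _ ⟨d, hd, rfl⟩
        have h1 := hab e d hd c hc
        calc (S.s e)⁻¹ * d * S.s e * ((S.s e)⁻¹ * c * S.s e) = (S.s e)⁻¹ * (d * c) * S.s e := by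
              group
          _ = (S.s e)⁻¹ * (c * d) * S.s e := by rw [h1]
          _ = _ := by group) (by
        rintro _ ⟨d, hd, rfl⟩
        exact ⟨_, ⟨d, ⟨e, Or.inr he, hd⟩, rfl⟩, by rw [tr_cj]⟩)
    exact ⟨h, fun d hd => hh _ ⟨d, hd, rfl⟩⟩)
  have htv : ∀ x ∈ S.G v, tr r x = τ (i (tr ρ x)) := by
    intro x hx
    rw [← hr₁]
    unfold tr
    rw [hr2 x hx, tr_conj]
  have htw : ∀ w, w ≠ v → ∀ x ∈ S.G w, tr r x = j (i (tr ρ x)) := by
    intro w hw x hx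
    rw [← hr₀]
    unfold tr
    rw [hr1 w hw x hx, tr_conj]
  have hjτ : ∀ c ∈ dv ρ S v, j (i c) = τ (i c) := by
    intro c hc
    exact hZ _ (isAlgebraic_algebraMap (⟨i c, Algebra.subset_adjoin ⟨c, hc, rfl⟩⟩ :
      Algebra.adjoin (ZMod 2) (i '' dv ρ S v)))
  have hte : ∀ e, (S.a e = v ∨ S.b e = v) → ∀ c ∈ S.C e, tr r c = j (i (tr ρ c)) := by
    intro e he c hc
    by_cases hae : S.a e = v
    · rw [htv c (hae ▸ S.Ca e hc), hjτ]
      exact ⟨c, ⟨e, he, hc⟩, rfl⟩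
    · exact htw _ hae c (S.Ca e hc)
  have hW1 := hW (i '' trs ρ Y)
  rw [← Set.image_union, er_map i, er_map i, er_map i] at hW1
  refine le_trans hW1 (add_le_add le_rfl ?_)
  have h3 := er_rep hU r ((S.G v : Set Γ) ∪ Y)
  have h4 : trs ρ ((S.G v : Set Γ) ∪ Y) = trs ρ (S.G v : Set Γ) ∪ trs ρ Y := Set.image_union _ _ _
  rw [h4] at h3
  refine le_trans (er_mono ?_) h3
  rintro z (⟨_, ⟨_, ⟨x, hx, rfl⟩, rfl⟩, rfl⟩ | ⟨_, ⟨u, (hu | ⟨y, hy, rfl⟩), rfl⟩, rfl⟩)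
  · exact ⟨x, Or.inl hx, htv x hx⟩
  · obtain ⟨x, hx, hxu⟩ := dv_sub S v hu
    refine ⟨x, Or.inl hx, ?_⟩
    rw [htv x hx, hxu]
    exact (hjτ u hu).symm
  · refine ⟨y, Or.inr hy, ?_⟩
    rcases hY y hy with ⟨w, hw, hyw⟩ | ⟨e, he, hye⟩
    · exact htw w hw y hyw
    · exact hte e he y hye

end

end Pool.Agent.FrS
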