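import Pool.Agent.Lib.MP_305fdd_al.Fr.S.Ell
import Pool.Agent.Lib.MP_305fdd_al.Fr.V.Stm
import Pool.Agent.Lib.MP_305fdd_al.Fr.Roq.Main

/-!
# MP_305fdd_al, F_r project, section SP: there is no semi-good valuation (NSG)
-/

set_option autoImplicit false

namespace Pool.Agent.FrS

open Matrix (SpecialLinearGroup)
open Pool.Agent.FrN Pool.Agent.FrAsm Pool.Agent.F2Ch

section

variable {b : ℕ} {Γ K F : Type} [Group Γ] [Field K] [Field F] [Algebra (ZMod 2) K]
  [Algebra (ZMod 2) F] [Algebra K F] {T : Γ → K} {ρ : Γ →* SpecialLinearGroup (Fin 2) F}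
  {x : K → ℝ}

theorem T_conj (H : HB 2 b Γ K F T ρ) (s g : Γ) : T (s * g * s⁻¹) = T g := by
  rw [H.comm]
  group

theorem zpowers_nonneg (H : HB 2 b Γ K F T ρ) (hx : IsV x) {z : Γ} (hz : 0 ≤ x (T z)) {c : Γ}
    (hc : c ∈ Subgroup.zpowers z) : 0 ≤ x (T c) := by
  refine closure_nonneg H hx (G := Subgroup.zpowers z) (X := {z}) ?_ ?_ ?_
    (by rwa [← Subgroup.zpowers_eq_closure])
  · rintro a ha b hb
    obtain ⟨m, rfl⟩ := Subgroup.mem_zpowers_iff.1 ha
    obtain ⟨n, rfl⟩ := Subgroup.mem_zpowers_iff.1 hb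
    rw [← zpow_add, ← zpow_add, add_comm]
  · rintro a rfl
    exact Subgroup.mem_zpowers a
  · rintro a rfl
    exact hz

theorem rl_nonneg (H : HB 2 b Γ K F T ρ) (hx : IsV x) {S : GG Γ} {e : S.E} {w : Γ} {m : ℕ}
    (h : RL S e w m) (hw : 0 ≤ x (T w)) : ∀ c ∈ S.C e, 0 ≤ x (T c) := by
  have hm : 0 ≤ x (T (w ^ m)) :=
    zpowers_nonneg H hx hw (Subgroup.npow_mem_zpowers w m)
  intro c hc
  rcases h.2.2 with ⟨_, _, h1⟩ | ⟨_, _, h1⟩
  · rw [h1] at hc
    refine zpowers_nonneg H hx ?_ hc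
    rw [T_conj H]
    exact hm
  · rw [h1] at hc
    exact zpowers_nonneg H hx hm hc

/-- if the safe element of a cyclic edge has value zero, then the edge group has non-negative values -/
theorem safe_nonneg (H : HB 2 b Γ K F T ρ) (hx : IsV x) {S : GG Γ} {e : S.E} {f : K}
    (hf : SafeEl T S e f) (hfx : x f = 0) : ∀ c ∈ S.C e, 0 ≤ x (T c) := by
  cases hf with
  | tr z hz h =>
    intro c hc
    rw [hz] at hc
    exact zpowers_nonneg H hx hfx.ge hc
  | ev w m h hm => exact rl_nonneg H hx h hfx.ge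
  | od w m h hm P hP =>
    refine rl_nonneg H hx h ?_
    by_contra hlt
    push Not at hlt
    have hm2 : 2 ≤ m := h.1
    obtain ⟨n, rfl⟩ : ∃ n, m = n + 1 := ⟨m - 1, by omega⟩
    obtain ⟨h1, h2⟩ := pow_neg H hx hlt n
    have h3 := trace_pow H w (n + 1)
    rw [← hP, map_mul, map_pow, Polynomial.aeval_X] at h3
    have h4 : Polynomial.aeval (T w) P ≠ 0 := by
      intro h0
      rw [h0] at h3
      apply h1
      rw [h3]
      ring
    have h5 : T w ≠ 0 := by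
      intro h0
      rw [h0, hx.zero] at hlt
      exact lt_irrefl _ hlt
    rw [h3, hx.mul _ _ (pow_ne_zero 2 h4) h5, FrP.V_pow hx h4, hfx, mul_zero, zero_add] at h2
    have h6 : (2 : ℝ) ≤ ((n + 1 : ℕ) : ℝ) := by exact_mod_cast hm2
    nlinarith

theorem er_univ (H : Cls b Γ F ρ) : er (Set.univ : Set F) ≠ ⊤ := by
  have h1 : er (Set.univ : Set F) ≤ ((3 * b : ℕ) : ℕ∞) := by
    rw [er_le_iff]
    intro I _ hI
    have h2 := AlgebraicIndependent.lift_cardinalMk_le_trdeg (R := ZMod 2) (A := F)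
      (x := fun i : I => (i : F)) hI
    rw [H.trF, Cardinal.lift_id, Cardinal.lift_id] at h2
    have h3 : Cardinal.mk I ≤ ((3 * b : ℕ) : Cardinal) := by
      push_cast
      exact h2
    rw [Set.encard, ENat.card]
    exact (Cardinal.toENat_le_natCast).2 h3
  exact ne_top_of_le_ne_top (ENat.natCast_ne_top _) h1

end

/-- CASE B of NSG (a valuation which is negative on some edge group but not on a cyclic one). -/
def S_CB : Prop :=
  ∀ (b : ℕ) (Γ K F : Type) [Group Γ] [Field K] [Field F] [Algebra (ZMod 2) K]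
    [Algebra (ZMod 2) F] [Algebra K F] (T : Γ → K)
    (ρ : Γ →* SpecialLinearGroup (Fin 2) F), Blk b Γ K F T ρ →
    ∀ (S : GG Γ), S.Adm → ∀ y : F → ℝ, IsV y → (∀ v, ∀ g ∈ S.G v, y (tr ρ g) ≤ 0) →
    (∀ e, Cyc S e → ∀ c ∈ S.C e, 0 ≤ y (tr ρ c)) → (∃ e, ∃ c ∈ S.C e, y (tr ρ c) < 0) → False

section

variable {b : ℕ} {Γ K F : Type} [Group Γ] [Field K] [Field F] [Algebra (ZMod 2) K]
  [Algebra (ZMod 2) F] [Algebra K F] {T : Γ → K} {ρ : Γ →* SpecialLinearGroup (Fin 2) F}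
  {x : K → ℝ}

/-- CASE A: all edge groups have non-negative values. -/
theorem nsg_A (hdiv : D_DIV) (hV : FrV.S_V) (H : Blk b Γ K F T ρ) {S : GG Γ}
    (hS : Smin ρ S) (hx : IsV x) (hle : ∀ z ∈ BV T S, z ≠ 0 → x z ≤ 0)
    (hel : ∀ e, ∀ c ∈ S.C e, 0 ≤ x (T c)) {v : S.V} {g : Γ} (hg : g ∈ S.G v)
    (hneg : x (T g) < 0) : False := by
  have hna : S.NA v := by
    by_contra hv
    exact absurd (ab_vertex H hS.1 hx hel hv hg) (not_le.2 hneg)
  have hT : ∀ g, tr ρ g = 0 → g = 1 := fun g hg => hdiv b Γ F ρ H.cls g hg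
  have hsub : Algebra.adjoin (ZMod 2) (T '' (S.G v : Set Γ)) ≤ BV T S :=
    Algebra.adjoin_mono (Set.image_mono fun z hz => ⟨v, hz⟩)
  have hout : FrV.Out ρ (S.G v) (S.inc v) := by
    refine hV Γ K F (S.E × Bool) T ρ (S.G v) (S.inc v) x (fun g _ => H.hb.tr g) ?_ (hS.1.fgV v)
      (fun h => hna h) (S.inc_le v) (GG.inc_fg hS.1.fgE v) (GG.inc_cm hS.1.ab v) hx
      (fun z hz hz0 => hle z (hsub hz) hz0) ⟨T g, Algebra.subset_adjoin ⟨g, hg, rfl⟩, hneg.ne⟩ ?_
    · intro g _ h0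
      apply hT g
      unfold tr
      rw [H.hb.tr, h0, map_zero]
    · rintro ⟨e, p⟩ c hc
      cases p with
      | true =>
        by_cases h : S.b e = v
        · rw [GG.inc_true h] at hc
          have hc' : S.s e * c * (S.s e)⁻¹ ∈ S.C e := hc
          have h1 := hel e _ hc'
          rwa [T_conj H.hb] at h1
        · rw [GG.inc_true' h] at hc
          rw [Subgroup.mem_bot.1 hc]
          exact one_nonneg H.hb hx
      | false =>
        by_cases h : S.a e = v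
        · rw [GG.inc_false h] at hc
          exact hel e c hc
        · rw [GG.inc_false' h] at hc
          rw [Subgroup.mem_bot.1 hc]
          exact one_nonneg H.hb hx
  obtain ⟨S', hS', hlt⟩ := step H.cls.toUv hT (er_univ H.cls) H.fi hS.1 hna hout
  rcases hS.2 S' hS' with h | ⟨h, _⟩
  · exact absurd hlt (not_lt.2 h.le)
  · exact absurd hlt (not_lt.2 h.le)

/-- NSG for a valuation of the trace field. -/
theorem nsg_K (hdiv : D_DIV) (hV : FrV.S_V) (hCB : S_CB) (H : Blk b Γ K F T ρ) {S : GG Γ}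
    (hS : Smin ρ S) (hx : IsV x) (hle : ∀ z ∈ BV T S, z ≠ 0 → x z ≤ 0)
    (hcyc : ∀ e, Cyc S e → ∀ c ∈ S.C e, 0 ≤ x (T c)) {v : S.V} {g : Γ} (hg : g ∈ S.G v)
    (hneg : x (T g) < 0) : False := by
  by_cases hel : ∀ e, ∀ c ∈ S.C e, 0 ≤ x (T c)
  · exact nsg_A hdiv hV H hS hx hle hel hg hneg
  · push Not at hel
    obtain ⟨e, c, hc, hlt⟩ := hel
    have hfg := H.cls.fg
    obtain ⟨y, hy, hyx⟩ := exists_ext_frc (K₀ := K) (FrRoq.OO_fg ρ hfg) H.hb.fracF hx
    have hyT : ∀ g, y (tr ρ g) = x (T g) := by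
      intro g
      unfold tr
      rw [H.hb.tr, hyx]
    refine hCB b Γ K F T ρ H S hS.1 y hy ?_ ?_ ⟨e, c, hc, by rwa [hyT]⟩
    · intro v g hg
      rw [hyT]
      by_cases h0 : T g = 0
      · rw [h0, hx.zero]
      · exact hle _ (Algebra.subset_adjoin ⟨g, ⟨v, hg⟩, rfl⟩) h0
    · intro e he c hc
      rw [hyT]
      exact hcyc e he c hc

end

/-- NSG: from DIV, the theorem on the vertex groups and CASE B. -/
theorem nsg (hdiv : D_DIV) (hV : FrV.S_V) (hCB : S_CB) : D_NSG := by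
  intro b Γ K F _ _ _ _ _ _ T ρ H S hS y hy
  rintro ⟨x₀, hx₀, ht₀, ⟨z, hz⟩, hle₀⟩
  have hK := H.hb.BB_fg
  obtain ⟨x, hx, hxx⟩ := exists_ext_frc (K₀ := KV T S) (F := K) hK H.hb.fracK hx₀
  have h1 : BV T S ≤ (KV T S).toSubalgebra := IntermediateField.algebra_adjoin_le_adjoin _ _
  have hle : ∀ z ∈ ly (BV T S) y, z ≠ 0 → x z ≤ 0 := by
    intro z hz hz0
    have h2 : z ∈ (KV T S).toSubalgebra := ly_le_KV hy.mem hz
    have h3 := hle₀ ⟨z, h2⟩ hz (fun h => hz0 (congrArg Subtype.val h))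
    have h4 := hxx ⟨z, h2⟩
    change x z = _ at h4
    rw [h4]
    exact h3
  have hle' : ∀ z ∈ BV T S, z ≠ 0 → x z ≤ 0 := fun z hz => hle z (le_ly _ _ hz)
  have hy0 : y ≠ 0 := hy.ne hdiv H hS.1
  have hyv : x y = 0 := by
    have h2 := hle y (le_ly _ _ hy.mem) hy0
    have h3 := hle y⁻¹ (Algebra.subset_adjoin (Set.mem_insert _ _)) (inv_ne_zero hy0)
    rw [FrP.V_inv hx hy0] at h3
    linarith
  -- the safe elements have value zero
  have hcyc : ∀ e, Cyc S e → ∀ c ∈ S.C e, 0 ≤ x (T c) := by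
    obtain ⟨f, hf1, hf2, hf3⟩ := hy
    have hf0 : ∀ e, f e ≠ 0 := by
      intro e h0
      apply hy0
      rw [hf3]
      exact Finset.prod_eq_zero (Finset.mem_univ e) h0
    have hfe : ∀ e, x (f e) ≤ 0 := by
      intro e
      by_cases he : Cyc S e
      · exact hle' _ (hf1 e he).mem (hf0 e)
      · rw [hf2 e he, FrP.V_one hx]
    have hsum : ∑ e, x (f e) = 0 := by
      rw [← FrP.V_prod hx Finset.univ f (fun e _ => hf0 e), ← hf3]
      exact hyv
    have hz : ∀ e, x (f e) = 0 := by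
      intro e
      exact (Finset.sum_eq_zero_iff_of_nonpos (fun i _ => hfe i)).1 hsum e (Finset.mem_univ e)
    intro e he
    exact safe_nonneg H.hb hx (hf1 e he) (hz e)
  -- some trace has a negative value
  have hneg : ∃ v, ∃ g ∈ S.G v, x (T g) < 0 := by
    by_contra hcon
    push Not at hcon
    have h2 : ∀ a ∈ BV T S, a = 0 ∨ 0 ≤ x a := by
      refine FrV.nonneg_adjoin hx (FrV.triv_two hx) _ ?_
      rintro _ ⟨g, ⟨v, hg⟩, rfl⟩
      exact Or.inr (hcon v g hg)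
    have h3 : ∀ a ∈ BV T S, x a = 0 := by
      intro a ha
      by_cases h0 : a = 0
      · rw [h0, hx.zero]
      · exact le_antisymm (hle' a ha h0) ((h2 a ha).resolve_left h0)
    obtain ⟨r, hr, s, hs, hrs⟩ := IntermediateField.mem_adjoin_iff_div.mp z.2
    apply hz
    rw [← hxx z]
    change x z.1 = 0
    rw [hrs]
    by_cases h0 : s = 0
    · rw [h0, div_zero, hx.zero]
    by_cases h0' : r = 0
    · rw [h0', zero_div, hx.zero]
    rw [div_eq_mul_inv, hx.mul _ _ h0' (inv_ne_zero h0), FrP.V_inv hx h0, h3 r hr, h3 s hs]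
    simp
  obtain ⟨v, g, hg, hlt⟩ := hneg
  exact nsg_K hdiv hV hCB H hS hx hle' hcyc hg hlt

end Pool.Agent.FrS
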