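import Pool.Agent.Lib.MP_305fdd_al.Fr.C2.CaseBfin
import Pool.Agent.Lib.MP_305fdd_al.Fr.S.NSG
import Pool.Agent.Lib.MP_305fdd_al.Fr.V.Fin
import Pool.Agent.Lib.MP_305fdd_al.Fr.Top.Gr

/-!
# MP_305fdd_al, F_r project, section SP: D_NSG, unconditional
-/

set_option autoImplicit false

namespace Pool.Agent.FrS

open Matrix (SpecialLinearGroup)
open Pool.Agent.FrN Pool.Agent.FrAsm Pool.Agent.F2Ch

/-- only the neutral element has trace zero -/
theorem d_DIV' : D_DIV := by
  intro b Γ F _ _ _ ρ h g hg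
  exact FrTop.div h hg

/-- CASE B of NSG -/
theorem s_CB : S_CB := by
  intro b Γ K F _ _ _ _ _ _ T ρ H S hS y hy hle hcyc hex
  obtain ⟨e, c, hc, hlt⟩ := hex
  have hnc : ∃ a z : Γ, a * z ≠ z * a := by
    by_contra hcon
    push Not at hcon
    exact H.nab hcon
  have htr : ∀ g, FrR.tr (ρ g) = tr ρ g := fun g => (Matrix.trace_fin_two (ρ g).1).symm
  have h := FrCB.case_b H.hb H.cls.inj hnc (fun g hg => d_DIV' b Γ F ρ H.cls g hg) hS
    ⟨y, hy⟩
    (fun v g hg _ => by
      show y (FrR.tr (ρ g)) ≤ 0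
      rw [htr]
      exact hle v g hg)
    (fun e he c hc => by
      show 0 ≤ y (FrR.tr (ρ c))
      rw [htr]
      exact hcyc e he c hc) e c hc
  have h' : 0 ≤ y (FrR.tr (ρ c)) := h
  rw [htr] at h'
  exact absurd hlt (not_lt.2 h')

/-- NSG: there is no semi-good valuation on the localised ring of the traces of the vertex groups of a
minimal splitting. -/
theorem d_NSG : D_NSG := nsg d_DIV' FrV.p_V s_CB

end Pool.Agent.FrS
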