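import Pool.Agent.Lib.MP_305fdd_al.Fr.S.DropH
import Pool.Agent.Lib.MP_305fdd_al.Fr.S.Dec

/-!
# MP_305fdd_al, F_r project, section SP: refinements preserve admissibility
-/

set_option autoImplicit false

namespace Pool.Agent.FrS

open Matrix (SpecialLinearGroup)
open Pool.Agent.FrN Pool.Agent.FrAsm

section

variable {Γ : Type} [Group Γ]

/-- the amalgam in the other order -/
theorem IsAm.symm {P A A' D : Subgroup Γ} (h : IsAm P A A' D) : IsAm P A' A D where
  sup := by rw [h.sup, sup_comm]
  le := h.le'
  le' := h.le
  ext R _ _ r r' hr hr' hd := by
    obtain ⟨q, hq, h1, h2⟩ := h.ext R r' r hr' hr fun d hd' => (hd d hd').symm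
    exact ⟨q, hq, h2, h1⟩

namespace GG

variable {S : GG Γ}

theorem refA_adm (hS : S.Adm) {v : S.V} (d : S.RefA v) (hA : d.A.FG) (hA' : d.A'.FG)
    (hD : d.D.FG) (hD1 : d.D ≠ ⊥) (hDab : ∀ x ∈ d.D, ∀ y ∈ d.D, x * y = y * x)
    (hAD : d.A ≠ d.D) (hAD' : d.A' ≠ d.D) : (S.refA v d).Adm where
  toUP := refA_up hS.toUP d
  fgV w := by
    cases w with
    | none => exact hA'
    | some w =>
      change (if w = v then d.A else S.G w).FG
      split_ifs with h
      · exact hA
      · exact hS.fgV w
  fgE e := by
    cases e with
    | none => exact hD
    | some e => exact fg_comap_conj (hS.fgE e) (d.ka e)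
  ne := refA_ne hS.ne d hD1
  ab := refA_ab hS.ab d hDab
  ntb e hne hl := by
    cases e with
    | none =>
      by_contra hcon
      push Not at hcon
      apply hAD'
      apply le_antisymm ?_ d.am.le'
      intro x hx
      have h := hcon x hx
      change (1 : Γ) * x * 1⁻¹ ∈ d.D at h
      rwa [one_mul, inv_one, mul_one] at h
    | some e =>
      have hb : (S.refA v d).b (some e) =
          if S.b e = v ∧ d.pb e = true then none else some (S.b e) := rfl
      have ha : (S.refA v d).a (some e) =
          if S.a e = v ∧ d.pa e = true then none else some (S.a e) := rfl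
      have hbv : S.b e ≠ v := by
        intro h
        have hl1 := hl none (by
          rw [hb]
          by_cases hp : d.pb e = true
          · right
            rw [if_pos ⟨h, hp⟩]
            rfl
          · left
            rw [if_neg (fun h' => hp h'.2), h]
            rfl)
        exact Option.some_ne_none _ hl1.symm
      have hb' : (S.refA v d).b (some e) = some (S.b e) := by
        rw [hb, if_neg (fun h => hbv h.1)]
      have hab : S.a e ≠ S.b e := by
        intro h
        apply hne
        rw [hb', ha, if_neg (fun h' => hbv (h ▸ h'.1)), h]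
      have hleaf : S.Leaf (S.b e) e := by
        intro e' he'
        have h := hl (some e') (by
          rw [hb']
          refine he'.imp (fun h => ?_) (fun h => ?_)
          · change (if S.a e' = v ∧ d.pa e' = true then none else some (S.a e')) = _
            rw [if_neg (fun h' => hbv (h ▸ h'.1)), h]
          · change (if S.b e' = v ∧ d.pb e' = true then none else some (S.b e')) = _
            rw [if_neg (fun h' => hbv (h ▸ h'.1)), h])
        exact Option.some_injective _ h
      obtain ⟨g, hg, hg'⟩ := hS.ntb e hab hleaf
      refine ⟨g, ?_, ?_⟩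
      · rw [hb']
        change g ∈ if S.b e = v then d.A else S.G (S.b e)
        rw [if_neg hbv]
        exact hg
      · intro h
        apply hg'
        change d.ka e * ((d.ka e)⁻¹ * S.s e * d.kb e * g * ((d.ka e)⁻¹ * S.s e * d.kb e)⁻¹) *
          (d.ka e)⁻¹ ∈ S.C e at h
        have h2 : d.ka e * ((d.ka e)⁻¹ * S.s e * d.kb e * g * ((d.ka e)⁻¹ * S.s e * d.kb e)⁻¹) *
          (d.ka e)⁻¹ = S.s e * g * (S.s e)⁻¹ := by
          rw [d.kb_one e hbv]
          group
        rwa [h2] at h
  nta e hne hl := by
    cases e with
    | none =>
      by_contra hcon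
      push Not at hcon
      apply hAD
      apply le_antisymm ?_ d.am.le
      intro x hx
      refine hcon x ?_
      change x ∈ if v = v then d.A else S.G v
      rw [if_pos rfl]
      exact hx
    | some e =>
      have hb : (S.refA v d).b (some e) =
          if S.b e = v ∧ d.pb e = true then none else some (S.b e) := rfl
      have ha : (S.refA v d).a (some e) =
          if S.a e = v ∧ d.pa e = true then none else some (S.a e) := rfl
      have hav : S.a e ≠ v := by
        intro h
        have hl1 := hl none (by
          rw [ha]
          by_cases hp : d.pa e = true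
          · right
            rw [if_pos ⟨h, hp⟩]
            rfl
          · left
            rw [if_neg (fun h' => hp h'.2), h]
            rfl)
        exact Option.some_ne_none _ hl1.symm
      have ha' : (S.refA v d).a (some e) = some (S.a e) := by
        rw [ha, if_neg (fun h => hav h.1)]
      have hab : S.a e ≠ S.b e := by
        intro h
        apply hne
        rw [ha', hb, if_neg (fun h' => hav (h ▸ h'.1)), h]
      have hleaf : S.Leaf (S.a e) e := by
        intro e' he'
        have h := hl (some e') (by
          rw [ha']
          refine he'.imp (fun h => ?_) (fun h => ?_)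
          · change (if S.a e' = v ∧ d.pa e' = true then none else some (S.a e')) = _
            rw [if_neg (fun h' => hav (h ▸ h'.1)), h]
          · change (if S.b e' = v ∧ d.pb e' = true then none else some (S.b e')) = _
            rw [if_neg (fun h' => hav (h ▸ h'.1)), h])
        exact Option.some_injective _ h
      obtain ⟨g, hg, hg'⟩ := hS.nta e hab hleaf
      refine ⟨g, ?_, ?_⟩
      · rw [ha']
        change g ∈ if S.a e = v then d.A else S.G (S.a e)
        rw [if_neg hav]
        exact hg
      · intro h
        apply hg'
        change d.ka e * g * (d.ka e)⁻¹ ∈ S.C e at h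
        rwa [d.ka_one e hav, one_mul, inv_one, mul_one] at h

theorem refH_adm (hS : S.Adm) {v : S.V} (d : S.RefH v) (hA : d.A.FG)
    (hD : d.D.FG) (hD1 : d.D ≠ ⊥) (hDab : ∀ x ∈ d.D, ∀ y ∈ d.D, x * y = y * x) :
    (S.refH v d).Adm where
  toUP := refH_up hS.toUP d
  fgV w := by
    change (if w = v then d.A else S.G w).FG
    split_ifs with h
    · exact hA
    · exact hS.fgV w
  fgE e := by
    cases e with
    | none => exact hD
    | some e => exact fg_comap_conj (hS.fgE e) (d.ka e)
  ne := refH_ne hS.ne d hD1
  ab := refH_ab hS.ab d hDab
  ntb e hne hl := by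
    cases e with
    | none => exact absurd rfl hne
    | some e =>
      have hbv : S.b e ≠ v := by
        intro h
        exact Option.some_ne_none _ (hl none (Or.inl h.symm)).symm
      have hleaf : S.Leaf (S.b e) e := by
        intro e' he'
        exact Option.some_injective _ (hl (some e') he')
      obtain ⟨g, hg, hg'⟩ := hS.ntb e hne hleaf
      refine ⟨g, ?_, ?_⟩
      · change g ∈ if S.b e = v then d.A else S.G (S.b e)
        rw [if_neg hbv]
        exact hg
      · intro h
        apply hg'
        change d.ka e * ((d.ka e)⁻¹ * S.s e * d.kb e * g * ((d.ka e)⁻¹ * S.s e * d.kb e)⁻¹) *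
          (d.ka e)⁻¹ ∈ S.C e at h
        have h2 : d.ka e * ((d.ka e)⁻¹ * S.s e * d.kb e * g * ((d.ka e)⁻¹ * S.s e * d.kb e)⁻¹) *
          (d.ka e)⁻¹ = S.s e * g * (S.s e)⁻¹ := by
          rw [d.kb_one e hbv]
          group
        rwa [h2] at h
  nta e hne hl := by
    cases e with
    | none => exact absurd rfl hne
    | some e =>
      have hav : S.a e ≠ v := by
        intro h
        exact Option.some_ne_none _ (hl none (Or.inl h.symm)).symm
      have hleaf : S.Leaf (S.a e) e := by
        intro e' he'
        exact Option.some_injective _ (hl (some e') he')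
      obtain ⟨g, hg, hg'⟩ := hS.nta e hne hleaf
      refine ⟨g, ?_, ?_⟩
      · change g ∈ if S.a e = v then d.A else S.G (S.a e)
        rw [if_neg hav]
        exact hg
      · intro h
        apply hg'
        change d.ka e * g * (d.ka e)⁻¹ ∈ S.C e at h
        rwa [d.ka_one e hav, one_mul, inv_one, mul_one] at h

end GG

end

end Pool.Agent.FrS
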