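import Pool.Agent.Lib.MP_305fdd_al.Fr.S.RefAdm
import Pool.Agent.Lib.MP_305fdd_al.Fr.V.Stm

/-!
# MP_305fdd_al, F_r project, section SP: one step of the refinement
-/

set_option autoImplicit false

namespace Pool.Agent.FrS

open Matrix (SpecialLinearGroup)
open Pool.Agent.FrN Pool.Agent.FrAsm

variable {Γ : Type} [Group Γ]

theorem fg_bot' : (⊥ : Subgroup Γ).FG := ⟨∅, by simp⟩

namespace GG

/-- the groups of the ends of the edges at `v`, in the coordinates of `v` -/
def inc (S : GG Γ) (v : S.V) (i : S.E × Bool) : Subgroup Γ :=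
  if i.2 = true then
    (if S.b i.1 = v then (S.C i.1).comap (MulAut.conj (S.s i.1)).toMonoidHom else ⊥)
  else (if S.a i.1 = v then S.C i.1 else ⊥)

theorem inc_true {S : GG Γ} {v : S.V} {e : S.E} (h : S.b e = v) :
    S.inc v (e, true) = (S.C e).comap (MulAut.conj (S.s e)).toMonoidHom := by
  unfold inc
  rw [if_pos rfl, if_pos h]

theorem inc_false {S : GG Γ} {v : S.V} {e : S.E} (h : S.a e = v) :
    S.inc v (e, false) = S.C e := by
  unfold inc
  rw [if_neg Bool.false_ne_true, if_pos h]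

theorem inc_true' {S : GG Γ} {v : S.V} {e : S.E} (h : S.b e ≠ v) :
    S.inc v (e, true) = ⊥ := by
  unfold inc
  rw [if_pos rfl, if_neg h]

theorem inc_false' {S : GG Γ} {v : S.V} {e : S.E} (h : S.a e ≠ v) :
    S.inc v (e, false) = ⊥ := by
  unfold inc
  rw [if_neg Bool.false_ne_true, if_neg h]

theorem inc_le (S : GG Γ) (v : S.V) (i : S.E × Bool) : S.inc v i ≤ S.G v := by
  obtain ⟨e, p⟩ := i
  cases p with
  | true =>
    by_cases h : S.b e = v
    · rw [inc_true h]
      intro c hc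
      have hc' : S.s e * c * (S.s e)⁻¹ ∈ S.C e := hc
      have h1 := S.Cb e _ hc'
      have h2 : (S.s e)⁻¹ * (S.s e * c * (S.s e)⁻¹) * S.s e = c := by group
      rw [h2, h] at h1
      exact h1
    · rw [inc_true' h]
      exact bot_le
  | false =>
    by_cases h : S.a e = v
    · rw [inc_false h]
      intro c hc
      have h1 := S.Ca e hc
      rwa [h] at h1
    · rw [inc_false' h]
      exact bot_le

theorem inc_fg {S : GG Γ} (hS : ∀ e, (S.C e).FG) (v : S.V) (i : S.E × Bool) :
    (S.inc v i).FG := by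
  obtain ⟨e, p⟩ := i
  cases p with
  | true =>
    by_cases h : S.b e = v
    · rw [inc_true h]
      exact fg_comap_conj (hS e) _
    · rw [inc_true' h]
      exact fg_bot'
  | false =>
    by_cases h : S.a e = v
    · rw [inc_false h]
      exact hS e
    · rw [inc_false' h]
      exact fg_bot'

theorem inc_cm {S : GG Γ} (hS : ∀ e, ∀ x ∈ S.C e, ∀ y ∈ S.C e, x * y = y * x) (v : S.V)
    (i : S.E × Bool) : FrV.Cm (S.inc v i) := by
  obtain ⟨e, p⟩ := i
  cases p with
  | true =>
    by_cases h : S.b e = v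
    · rw [inc_true h]
      intro x hx y hy
      have h1 := hS e (S.s e * x * (S.s e)⁻¹) hx (S.s e * y * (S.s e)⁻¹) hy
      have h2 : x * y = (S.s e)⁻¹ * ((S.s e * x * (S.s e)⁻¹) * (S.s e * y * (S.s e)⁻¹)) *
        S.s e := by group
      rw [h2, h1]
      group
    · rw [inc_true' h]
      intro x hx y hy
      rw [Subgroup.mem_bot.1 hx, Subgroup.mem_bot.1 hy]
  | false =>
    by_cases h : S.a e = v
    · rw [inc_false h]
      exact hS e
    · rw [inc_false' h]
      intro x hx y hy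
      rw [Subgroup.mem_bot.1 hx, Subgroup.mem_bot.1 hy]

theorem exists_refA (S : GG Γ) (v : S.V) {A A' D : Subgroup Γ} (h : IsAm (S.G v) A A' D)
    (hI : ∀ i, ∃ g ∈ S.G v, (∀ c ∈ S.inc v i, g⁻¹ * c * g ∈ A) ∨
      (∀ c ∈ S.inc v i, g⁻¹ * c * g ∈ A')) :
    ∃ d : S.RefA v, d.A = A ∧ d.A' = A' ∧ d.D = D := by
  have hI' : ∀ i, ∃ g ∈ S.G v, ∃ p : Bool, ∀ c ∈ S.inc v i,
      g⁻¹ * c * g ∈ (if p = true then A' else A) := by
    intro i
    obtain ⟨g, hg, h1 | h1⟩ := hI i
    · exact ⟨g, hg, false, fun c hc => by simpa using h1 c hc⟩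
    · exact ⟨g, hg, true, fun c hc => by simpa using h1 c hc⟩
  choose g hg p hp using hI'
  refine ⟨{ ka := fun e => if S.a e = v then g (e, false) else 1
            kb := fun e => if S.b e = v then g (e, true) else 1
            ka_mem := ?_
            kb_mem := ?_
            ka_one := fun e h => if_neg h
            kb_one := fun e h => if_neg h
            A := A, A' := A', D := D, am := h
            pa := fun e => p (e, false)
            pb := fun e => p (e, true)
            ca := ?_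
            cb := ?_ }, rfl, rfl, rfl⟩
  · intro e
    split_ifs
    · exact hg _
    · exact one_mem _
  · intro e
    split_ifs
    · exact hg _
    · exact one_mem _
  · intro e he c hc
    have h1 := hp (e, false) c (by rw [inc_false he]; exact hc)
    rw [if_pos he]
    exact h1
  · intro e he c hc
    have h1 := hp (e, true) ((S.s e)⁻¹ * c * S.s e) (by
      rw [inc_true he]
      change S.s e * ((S.s e)⁻¹ * c * S.s e) * (S.s e)⁻¹ ∈ S.C e
      have h2 : S.s e * ((S.s e)⁻¹ * c * S.s e) * (S.s e)⁻¹ = c := by group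
      rw [h2]
      exact hc)
    rw [if_pos he]
    exact h1

theorem exists_refH (S : GG Γ) (v : S.V) {A D : Subgroup Γ} {s : Γ} (h : IsHn (S.G v) A D s)
    (hI : ∀ i, ∃ g ∈ S.G v, ∀ c ∈ S.inc v i, g⁻¹ * c * g ∈ A) :
    ∃ d : S.RefH v, d.A = A ∧ d.D = D ∧ d.s = s := by
  choose g hg hp using hI
  refine ⟨{ ka := fun e => if S.a e = v then g (e, false) else 1
            kb := fun e => if S.b e = v then g (e, true) else 1
            ka_mem := ?_
            kb_mem := ?_
            ka_one := fun e h => if_neg h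
            kb_one := fun e h => if_neg h
            A := A, D := D, s := s, hn := h
            ca := ?_
            cb := ?_ }, rfl, rfl, rfl⟩
  · intro e
    split_ifs
    · exact hg _
    · exact one_mem _
  · intro e
    split_ifs
    · exact hg _
    · exact one_mem _
  · intro e he c hc
    have h1 := hp (e, false) c (by rw [inc_false he]; exact hc)
    rw [if_pos he]
    exact h1
  · intro e he c hc
    have h1 := hp (e, true) ((S.s e)⁻¹ * c * S.s e) (by
      rw [inc_true he]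
      change S.s e * ((S.s e)⁻¹ * c * S.s e) * (S.s e)⁻¹ ∈ S.C e
      have h2 : S.s e * ((S.s e)⁻¹ * c * S.s e) * (S.s e)⁻¹ = c := by group
      rw [h2]
      exact hc)
    rw [if_pos he]
    exact h1

end GG

variable {F : Type} [Field F] [Algebra (ZMod 2) F] {ρ : Γ →* SpecialLinearGroup (Fin 2) F}

theorem not_alg_mono {X Y : Set F} (h : X ⊆ Y) {t : F}
    (ht : ¬ IsAlgebraic (Algebra.adjoin (ZMod 2) Y) t) :
    ¬ IsAlgebraic (Algebra.adjoin (ZMod 2) X) t := by
  intro h1
  apply ht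
  have h2 : t ∈ (AlgebraicIndependent.matroid (ZMod 2) F).closure X := by
    rw [AlgebraicIndependent.matroid_closure_eq]
    exact h1
  have h3 := (AlgebraicIndependent.matroid (ZMod 2) F).closure_subset_closure h h2
  rw [AlgebraicIndependent.matroid_closure_eq] at h3
  exact h3

theorem dv_inc (S : GG Γ) (v : S.V) : dv ρ S v ⊆ trs ρ {c | ∃ i, c ∈ S.inc v i} := by
  rintro _ ⟨c, ⟨e, he, hc⟩, rfl⟩
  rcases he with he | he
  · exact ⟨c, ⟨(e, false), by rw [GG.inc_false he]; exact hc⟩, rfl⟩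
  · refine ⟨(S.s e)⁻¹ * c * S.s e, ⟨(e, true), ?_⟩, tr_cj _ _⟩
    rw [GG.inc_true he]
    change S.s e * ((S.s e)⁻¹ * c * S.s e) * (S.s e)⁻¹ ∈ S.C e
    have h2 : S.s e * ((S.s e)⁻¹ * c * S.s e) * (S.s e)⁻¹ = c := by group
    rw [h2]
    exact hc

/-- THE STEP: a relative splitting of a non-abelian vertex group decreases the measure. -/
theorem step (hU : Uv Γ F ρ) (hT : ∀ g, tr ρ g = 0 → g = 1) (hfin : er (Set.univ : Set F) ≠ ⊤)
    (hFI : FI Γ) {S : GG Γ} (hS : S.Adm) {v : S.V} (hv : S.NA v)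
    (h : FrV.Out ρ (S.G v) (S.inc v)) : ∃ S' : GG Γ, S'.Adm ∧ DD ρ S' < DD ρ S := by
  rcases h with ⟨A, A', D, ham, hA, hA', hD, hDc, hAD, hAD', hI, hc, hc'⟩ |
    ⟨A, D, s, hn, hA, hD, hDc, hI⟩
  · -- amalgam
    have key : ∀ (A A' D : Subgroup Γ) (_ : IsAm (S.G v) A A' D) (_ : A.FG) (_ : A'.FG)
        (_ : D.FG) (_ : FrV.Cm D) (_ : A ≠ D) (_ : A' ≠ D)
        (_ : ∀ i, ∃ g ∈ S.G v, (∀ c ∈ S.inc v i, g⁻¹ * c * g ∈ A) ∨
          (∀ c ∈ S.inc v i, g⁻¹ * c * g ∈ A'))
        (_ : D ≠ ⊥ → FrV.Cm A' → ∃ b ∈ A', ¬ IsAlgebraic (Algebra.adjoin (ZMod 2)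
          (trs ρ {c | ∃ i, c ∈ S.inc v i})) (tr ρ b))
        (_ : ¬ FrV.Cm A ∨ FrV.Cm A'), ∃ S' : GG Γ, S'.Adm ∧ DD ρ S' < DD ρ S := by
      intro A A' D ham hA hA' hD hDc hAD hAD' hI hc' hor
      obtain ⟨d, rfl, rfl, rfl⟩ := S.exists_refA v ham hI
      have hUP := GG.refA_up hS.toUP d
      have hGv : (S.refA v d).G (some v) = d.A := if_pos rfl
      have hD1 : d.D ≠ ⊥ := by
        intro h0
        refine GG.UP.ne_bot hUP hFI (none : Option S.E) ?_ ?_ h0
        · change (S.refA v d).G (some v) ≠ ⊥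
          rw [hGv, ← h0]
          exact hAD
        · change d.A' ≠ ⊥
          rw [← h0]
          exact hAD'
      refine ⟨S.refA v d, GG.refA_adm hS d hA hA' hD hD1 hDc hAD hAD', ?_⟩
      by_cases hna' : FrV.Cm d.A'
      · obtain ⟨b, hb, hbt⟩ := hc' hD1 hna'
        refine drop_M hU hT hS.toUP hS.ne hS.ab hv d hD1 hDc hfin (fun h' => h' hna') hb ?_
        exact not_alg_mono (dv_inc S v) hbt
      · have hna : ¬ FrV.Cm d.A := hor.resolve_right hna'
        refine drop_A hU hT hS.toUP hS.ne hS.ab hv d hD1 hDc hfin ?_ hna'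
        intro h'
        rw [hGv] at h'
        exact hna h'
    by_cases h1 : FrV.Cm A
    · refine key A' A D ham.symm hA' hA hD hDc hAD' hAD ?_ hc (Or.inr h1)
      intro i
      obtain ⟨g, hg, h2⟩ := hI i
      exact ⟨g, hg, h2.symm⟩
    · exact key A A' D ham hA hA' hD hDc hAD hAD' hI hc' (Or.inl h1)
  · obtain ⟨d, rfl, rfl, rfl⟩ := S.exists_refH v hn hI
    have hUP := GG.refH_up hS.toUP d
    have hGv : (S.refH v d).G v = d.A := if_pos rfl
    have hA1 : d.A ≠ ⊥ := by
      intro h0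
      apply hv
      have h1 := d.hn.sup
      rw [h0, bot_sup_eq] at h1
      rw [h1]
      intro x hx y hy
      obtain ⟨m, rfl⟩ := Subgroup.mem_zpowers_iff.1 hx
      obtain ⟨n, rfl⟩ := Subgroup.mem_zpowers_iff.1 hy
      rw [← zpow_add, ← zpow_add, add_comm]
    have hD1 : d.D ≠ ⊥ := by
      intro h0
      refine GG.UP.ne_bot hUP hFI (none : Option S.E) ?_ ?_ h0
      · change (S.refH v d).G v ≠ ⊥
        rw [hGv]
        exact hA1
      · change (S.refH v d).G v ≠ ⊥
        rw [hGv]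
        exact hA1
    exact ⟨S.refH v d, GG.refH_adm hS d hA hD hD1 hDc,
      drop_H hU hT hS.toUP hv d hD1 hDc hfin⟩

end Pool.Agent.FrS
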