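import Pool.Agent.Lib.MP_305fdd_al.Fr.S.Defs

/-!
# MP_305fdd_al, F_r project, section SP: paths, uniqueness, the refinements preserve the universal
property
-/

set_option autoImplicit false

namespace Pool.Agent.FrS

open Matrix (SpecialLinearGroup)

theorem MulOn.one {Γ Q : Type} [Group Γ] [Group Q] {H : Subgroup Γ} {r : Γ → Q} (h : MulOn H r) : r 1 = 1 := by
  have h1 := h 1 H.one_mem 1 H.one_mem
  rw [one_mul] at h1
  exact left_eq_mul.1 h1

theorem MulOn.inv {Γ Q : Type} [Group Γ] [Group Q] {H : Subgroup Γ} {r : Γ → Q} (h : MulOn H r) {x : Γ}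
    (hx : x ∈ H) : r x⁻¹ = (r x)⁻¹ := by
  have h1 := h x hx x⁻¹ (H.inv_mem hx)
  rw [mul_inv_cancel, h.one] at h1
  exact (eq_inv_of_mul_eq_one_right h1.symm)

theorem MulOn.conj {Γ Q : Type} [Group Γ] [Group Q] {H : Subgroup Γ} {r : Γ → Q} (h : MulOn H r) {x k : Γ}
    (hx : x ∈ H) (hk : k ∈ H) : r (k⁻¹ * x * k) = (r k)⁻¹ * r x * r k := by
  rw [h _ (H.mul_mem (H.inv_mem hk) hx) _ hk, h _ (H.inv_mem hk) _ hx, h.inv hk]

namespace GG

variable {Γ : Type} [Group Γ] {S : GG Γ}

theorem Pth.trans {u v w : S.V} {g h : Γ} (h1 : S.Pth u v g) (h2 : S.Pth v w h) :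
    S.Pth u w (g * h) := by
  induction h2 with
  | one => rw [mul_one]; exact h1
  | grp _ hx ih => rw [← mul_assoc]; exact Pth.grp ih hx
  | fwd e _ ih => rw [← mul_assoc]; exact Pth.fwd e ih
  | bwd e _ ih => rw [← mul_assoc]; exact Pth.bwd e ih

theorem Pth.ofG {v : S.V} {x : Γ} (hx : x ∈ S.G v) : S.Pth v v x := by
  have h := Pth.grp (Pth.one v) hx
  rwa [one_mul] at h

theorem Pth.ofE (e : S.E) : S.Pth (S.a e) (S.b e) (S.s e) := by
  have h := Pth.fwd e (Pth.one (S.a e))
  rwa [one_mul] at h

theorem Pth.ofE' (e : S.E) : S.Pth (S.b e) (S.a e) (S.s e)⁻¹ := by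
  have h := Pth.bwd e (Pth.one (S.b e))
  rwa [one_mul] at h

theorem Pth.symm {u v : S.V} {g : Γ} (h1 : S.Pth u v g) : S.Pth v u g⁻¹ := by
  induction h1 with
  | one => rw [inv_one]; exact Pth.one _
  | grp _ hx ih => rw [mul_inv_rev]; exact (Pth.ofG (inv_mem hx)).trans ih
  | fwd e _ ih => rw [mul_inv_rev]; exact (Pth.ofE' e).trans ih
  | bwd e _ ih => rw [mul_inv_rev, inv_inv]; exact (Pth.ofE e).trans ih

/-- Uniqueness of the representation and of the gauge of a family. -/
theorem UP.uniq (hS : S.UP) {Q : Type} [Group Q] {F : Fam S Q} {r r' : Γ →* Q} {g g' : S.V → Q}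
    (h : F.IsOf r g) (h' : F.IsOf r' g') :
    ∃ k : Q, (∀ γ, r' γ = k * r γ * k⁻¹) ∧ ∀ v, g' v = k * g v := by
  have key : ∀ u v γ, S.Pth u v γ → (g u)⁻¹ * r γ * g v = (g' u)⁻¹ * r' γ * g' v := by
    intro u v γ hp
    induction hp with
    | one => simp
    | @grp v y x _ hx ih =>
      have h1 := h.vtx v x hx
      rw [h'.vtx v x hx] at h1
      rw [map_mul, map_mul]
      calc (g u)⁻¹ * (r y * r x) * g v = ((g u)⁻¹ * r y * g v) * ((g v)⁻¹ * r x * g v) := by group
        _ = ((g' u)⁻¹ * r' y * g' v) * ((g' v)⁻¹ * r' x * g' v) := by rw [ih, h1]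
        _ = _ := by group
    | @fwd y e _ ih =>
      have h1 := h.edg e
      rw [h'.edg e] at h1
      rw [map_mul, map_mul]
      calc (g u)⁻¹ * (r y * r (S.s e)) * g (S.b e)
          = ((g u)⁻¹ * r y * g (S.a e)) * ((g (S.a e))⁻¹ * r (S.s e) * g (S.b e)) := by group
        _ = ((g' u)⁻¹ * r' y * g' (S.a e)) * ((g' (S.a e))⁻¹ * r' (S.s e) * g' (S.b e)) := by
            rw [ih, h1]
        _ = _ := by group
    | @bwd y e _ ih =>
      have h1 := h.edg e
      rw [h'.edg e] at h1
      rw [map_mul, map_mul, map_inv, map_inv]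
      calc (g u)⁻¹ * (r y * (r (S.s e))⁻¹) * g (S.a e)
          = ((g u)⁻¹ * r y * g (S.b e)) * ((g (S.a e))⁻¹ * r (S.s e) * g (S.b e))⁻¹ := by group
        _ = ((g' u)⁻¹ * r' y * g' (S.b e)) * ((g' (S.a e))⁻¹ * r' (S.s e) * g' (S.b e))⁻¹ := by
            rw [ih, h1]
        _ = _ := by group
  obtain ⟨v0⟩ := S.nV
  refine ⟨g' v0 * (g v0)⁻¹, fun γ => ?_, fun v => ?_⟩
  · have h1 := key v0 v0 γ (hS.gen v0 v0 γ)
    have h2 : r' γ = g' v0 * ((g' v0)⁻¹ * r' γ * g' v0) * (g' v0)⁻¹ := by group
    rw [h2, ← h1]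
    group
  · have h1 := key v0 v 1 (hS.gen v0 v 1)
    rw [map_one, map_one, mul_one, mul_one] at h1
    have h2 : g' v = g' v0 * ((g' v0)⁻¹ * g' v) := by group
    rw [h2, ← h1]
    group

theorem Fam.mulOn {Q : Type} [Group Q] (F : Fam S Q) (v : S.V) : MulOn (S.G v) (F.r v) := F.mul v

/-! ### The amalgam refinement -/

theorem refA_gen (hS : S.UP) {v : S.V} (d : S.RefA v) (u w : (S.refA v d).V) (g : Γ) :
    (S.refA v d).Pth u w g := by
  -- the new edge
  have hn : (S.refA v d).Pth (some v) none 1 := Pth.ofE (S := S.refA v d) none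
  have hn' : (S.refA v d).Pth none (some v) 1 := by
    have h := hn.symm
    rwa [inv_one] at h
  have hGs : ∀ w, (S.refA v d).G (some w) = if w = v then d.A else S.G w := fun w => rfl
  have hA' : ∀ x ∈ d.A', (S.refA v d).Pth (some v) (some v) x := by
    intro x hx
    have h := (hn.trans (Pth.ofG (S := S.refA v d) (v := none) hx)).trans hn'
    rwa [one_mul, mul_one] at h
  have hA : ∀ x ∈ d.A, (S.refA v d).Pth (some v) (some v) x := by
    intro x hx
    refine Pth.ofG (S := S.refA v d) (v := some v) ?_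
    rw [hGs, if_pos rfl]
    exact hx
  have hG : ∀ x ∈ S.G v, (S.refA v d).Pth (some v) (some v) x := by
    intro x hx
    rw [d.am.sup] at hx
    refine Subgroup.closure_induction (G := Γ) (k := (d.A : Set Γ) ∪ d.A')
      (p := fun x _ => (S.refA v d).Pth (some v) (some v) x) ?_ ?_ ?_ ?_
      (by rw [Subgroup.closure_union, Subgroup.closure_eq, Subgroup.closure_eq]; exact hx)
    · rintro x (hx | hx)
      · exact hA x hx
      · exact hA' x hx
    · exact Pth.one _
    · exact fun x y _ _ h1 h2 => h1.trans h2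
    · exact fun x _ h1 => h1.symm
  -- the ends of the old edges
  have hend : ∀ (w : S.V) (p : Bool) (k : Γ), k ∈ S.G v → (w ≠ v → k = 1) →
      (S.refA v d).Pth (some w) (if w = v ∧ p = true then none else some w) k := by
    intro w p k hk hk1
    by_cases hw : w = v
    · subst hw
      by_cases hp : p = true
      · rw [if_pos ⟨rfl, hp⟩]
        have h := (hG k hk).trans hn
        rwa [mul_one] at h
      · rw [if_neg (fun h => hp h.2)]
        exact hG k hk
    · rw [if_neg (fun h => hw h.1), hk1 hw]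
      exact Pth.one _
  have hedge : ∀ e, (S.refA v d).Pth (some (S.a e)) (some (S.b e)) (S.s e) := by
    intro e
    have h1 := hend (S.a e) (d.pa e) (d.ka e) (d.ka_mem e) (d.ka_one e)
    have h2 := hend (S.b e) (d.pb e) (d.kb e) (d.kb_mem e) (d.kb_one e)
    have h3 := (h1.trans (Pth.ofE (S := S.refA v d) (some e))).trans h2.symm
    have h4 : d.ka e * (S.refA v d).s (some e) * (d.kb e)⁻¹ = S.s e := by
      change d.ka e * ((d.ka e)⁻¹ * S.s e * d.kb e) * (d.kb e)⁻¹ = S.s e
      group
    rw [h4] at h3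
    exact h3
  have hold : ∀ (u w : S.V) (g : Γ), S.Pth u w g → (S.refA v d).Pth (some u) (some w) g := by
    intro u w g hp
    induction hp with
    | one => exact Pth.one _
    | @grp w y x _ hx ih =>
      by_cases hw : w = v
      · subst hw
        exact ih.trans (hG x hx)
      · refine Pth.grp ih ?_
        rw [hGs, if_neg hw]
        exact hx
    | fwd e _ ih => exact ih.trans (hedge e)
    | bwd e _ ih => exact ih.trans (hedge e).symm
  have hany : ∀ w : (S.refA v d).V, ∃ w' : S.V, (S.refA v d).Pth w (some w') 1 := by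
    rintro (_ | w)
    · exact ⟨v, hn'⟩
    · exact ⟨w, Pth.one _⟩
  obtain ⟨u', hu⟩ := hany u
  obtain ⟨w', hw⟩ := hany w
  have h := (hu.trans (hold u' w' g (hS.gen u' w' g))).trans hw.symm
  rwa [one_mul, inv_one, mul_one] at h

theorem refA_up (hS : S.UP) {v : S.V} (d : S.RefA v) : (S.refA v d).UP := by
  refine ⟨refA_gen hS d, ?_⟩
  intro R _ _ F'
  set τ := F'.t none with hτ
  have hGs : ∀ w, (S.refA v d).G (some w) = if w = v then d.A else S.G w := fun w => rfl
  have hA : MulOn d.A (F'.r (some v)) := by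
    have h := F'.mulOn (some v)
    rw [hGs, if_pos rfl] at h
    exact h
  have hA' : MulOn d.A' (fun x => τ * F'.r none x * τ⁻¹) := by
    intro x hx y hy
    have h := F'.mul none x hx y hy
    simp only [h]
    group
  have hD : ∀ x ∈ d.D, F'.r (some v) x = τ * F'.r none x * τ⁻¹ := by
    intro x hx
    have h := F'.cm none x hx
    have h1 : ((S.refA v d).s none)⁻¹ * x * (S.refA v d).s none = x := by
      change (1 : Γ)⁻¹ * x * 1 = x
      group
    rw [h1] at h
    exact h
  obtain ⟨q, hq, hqA, hqA'⟩ := d.am.ext R _ _ hA hA' hD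
  have hAv : d.A ≤ S.G v := by rw [d.am.sup]; exact le_sup_left
  have hA'v : d.A' ≤ S.G v := by rw [d.am.sup]; exact le_sup_right
  let fr : S.V → Γ → SpecialLinearGroup (Fin 2) R := fun w => if w = v then q else F'.r (some w)
  have hfr : ∀ w, MulOn (S.G w) (fr w) := by
    intro w
    by_cases hw : w = v
    · subst hw
      simp only [fr, if_true]
      exact hq
    · have h := F'.mulOn (some w)
      rw [hGs, if_neg hw] at h
      simp only [fr, hw, if_false]
      exact h
  -- one end of an edge
  have hend : ∀ (w : S.V) (p : Bool) (k : Γ), k ∈ S.G v → (w ≠ v → k = 1) →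
      ∃ α : SpecialLinearGroup (Fin 2) R,
        (∀ x ∈ S.G w, (w = v → k⁻¹ * x * k ∈ (if p then d.A' else d.A)) →
          F'.r (if w = v ∧ p = true then none else some w) (k⁻¹ * x * k) = α⁻¹ * fr w x * α) ∧
        ∀ (r : Γ →* SpecialLinearGroup (Fin 2) R) (g : S.V → SpecialLinearGroup (Fin 2) R),
          (∀ w, ∀ x ∈ S.G w, fr w x = (g w)⁻¹ * r x * g w) →
          (if w = v ∧ p = true then none else some w).elim (g v * τ) g = (r k)⁻¹ * g w * α := by
    intro w p k hk hk1
    by_cases hw : w = v
    · subst hw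
      by_cases hp : p = true
      · subst hp
        refine ⟨q k * τ, ?_, ?_⟩
        · intro x hx hx'
          have h1 := hx' rfl
          simp only [if_true] at h1
          have h2 := hqA' _ h1
          simp only [and_self, if_true, fr]
          rw [hq.conj hx hk] at h2
          have h3 : F'.r none (k⁻¹ * x * k) = τ⁻¹ * (τ * F'.r none (k⁻¹ * x * k) * τ⁻¹) * τ := by
            group
          rw [h3, ← h2]
          group
        · intro r g hg
          have h1 := hg w k hk
          simp only [fr, if_true] at h1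
          simp only [and_self, if_true, Option.elim_none]
          rw [h1]
          group
      · refine ⟨q k, ?_, ?_⟩
        · intro x hx hx'
          have h1 := hx' rfl
          rw [if_neg hp] at h1
          have h2 := hqA _ h1
          rw [hq.conj hx hk] at h2
          rw [if_neg (fun h => hp h.2), ← h2]
          simp only [fr, if_true]
        · intro r g hg
          have h1 := hg w k hk
          simp only [fr, if_true] at h1
          rw [if_neg (fun h => hp h.2), Option.elim_some, h1]
          group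
    · refine ⟨1, ?_, ?_⟩
      · intro x hx _
        simp only [hw, false_and, if_false, hk1 hw, fr]
        simp
      · intro r g hg
        simp only [hw, false_and, if_false, hk1 hw, Option.elim_some]
        simp
  choose α hα1 hα2 using fun e => hend (S.a e) (d.pa e) (d.ka e) (d.ka_mem e) (d.ka_one e)
  choose β hβ1 hβ2 using fun e => hend (S.b e) (d.pb e) (d.kb e) (d.kb_mem e) (d.kb_one e)
  let F : Fam S (SpecialLinearGroup (Fin 2) R) :=
    { r := fr
      t := fun e => α e * F'.t (some e) * (β e)⁻¹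
      mul := hfr
      cm := by
        intro e c hc
        have hc1 := S.Ca e hc
        have hc2 := S.Cb e c hc
        have hc' : (d.ka e)⁻¹ * c * d.ka e ∈ (S.refA v d).C (some e) := by
          change d.ka e * ((d.ka e)⁻¹ * c * d.ka e) * (d.ka e)⁻¹ ∈ S.C e
          have h : d.ka e * ((d.ka e)⁻¹ * c * d.ka e) * (d.ka e)⁻¹ = c := by group
          rw [h]
          exact hc
        have h1 := F'.cm (some e) _ hc'
        have h2 : ((S.refA v d).s (some e))⁻¹ * ((d.ka e)⁻¹ * c * d.ka e) *
            (S.refA v d).s (some e) = (d.kb e)⁻¹ * ((S.s e)⁻¹ * c * S.s e) * d.kb e := by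
          change ((d.ka e)⁻¹ * S.s e * d.kb e)⁻¹ * ((d.ka e)⁻¹ * c * d.ka e) *
            ((d.ka e)⁻¹ * S.s e * d.kb e) = _
          group
        rw [h2] at h1
        have h3 := hα1 e c hc1 (fun h => d.ca e h c hc)
        have h4 := hβ1 e _ hc2 (fun h => d.cb e h c hc)
        have h5 : F'.r ((S.refA v d).a (some e)) ((d.ka e)⁻¹ * c * d.ka e) =
            (α e)⁻¹ * fr (S.a e) c * α e := h3
        have h6 : F'.r ((S.refA v d).b (some e)) ((d.kb e)⁻¹ * ((S.s e)⁻¹ * c * S.s e) * d.kb e) =
            (β e)⁻¹ * fr (S.b e) ((S.s e)⁻¹ * c * S.s e) * β e := h4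
        rw [h5, h6] at h1
        have h7 : fr (S.a e) c = α e * ((α e)⁻¹ * fr (S.a e) c * α e) * (α e)⁻¹ := by group
        rw [h7, h1]
        group }
  obtain ⟨r, g, hF⟩ := hS.ext R F
  have hv : ∀ w, ∀ x ∈ S.G w, fr w x = (g w)⁻¹ * r x * g w := hF.vtx
  refine ⟨r, fun o => o.elim (g v * τ) g, ?_, ?_⟩
  · intro w x hx
    cases w with
    | none =>
      have h1 := hqA' x hx
      have h2 := hv v x (hA'v hx)
      simp only [fr, if_true] at h2
      rw [h2] at h1
      have h3 : F'.r none x = τ⁻¹ * (τ * F'.r none x * τ⁻¹) * τ := by group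
      rw [h3, ← h1]
      simp only [Option.elim_none]
      group
    | some w =>
      simp only [Option.elim_some]
      by_cases hw : w = v
      · subst hw
        have hx' : x ∈ d.A := by
          have h := hx
          rw [hGs, if_pos rfl] at h
          exact h
        have h2 := hv w x (hAv hx')
        simp only [fr, if_true] at h2
        rw [← hqA x hx', h2]
      · have hx' : x ∈ S.G w := by
          have h := hx
          rw [hGs, if_neg hw] at h
          exact h
        have h2 := hv w x hx'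
        simp only [fr, hw, if_false] at h2
        exact h2
  · intro e
    cases e with
    | none =>
      change F'.t none = ((some v : Option S.V).elim (g v * τ) g)⁻¹ * r 1 *
        (none : Option S.V).elim (g v * τ) g
      simp only [Option.elim_none, Option.elim_some, map_one]
      rw [← hτ]
      group
    | some e =>
      have h1 := hα2 e r g hv
      have h2 := hβ2 e r g hv
      have h3 := hF.edg e
      change α e * F'.t (some e) * (β e)⁻¹ = (g (S.a e))⁻¹ * r (S.s e) * g (S.b e) at h3
      change F'.t (some e) = ((if S.a e = v ∧ d.pa e = true then none else some (S.a e) :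
        Option S.V).elim (g v * τ) g)⁻¹ * r ((d.ka e)⁻¹ * S.s e * d.kb e) *
        ((if S.b e = v ∧ d.pb e = true then none else some (S.b e) :
        Option S.V).elim (g v * τ) g)
      rw [h1, h2]
      have h4 : F'.t (some e) = (α e)⁻¹ * (α e * F'.t (some e) * (β e)⁻¹) * β e := by group
      rw [h4, h3]
      simp only [map_mul, map_inv]
      group

/-! ### The HNN refinement -/

theorem refH_gen (hS : S.UP) {v : S.V} (d : S.RefH v) (u w : (S.refH v d).V) (g : Γ) :
    (S.refH v d).Pth u w g := by
  have hGs : ∀ w : S.V, (S.refH v d).G w = if w = v then d.A else S.G w := fun w => rfl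
  have hs : (S.refH v d).Pth v v d.s := Pth.ofE (S := S.refH v d) none
  have hA : ∀ x ∈ d.A, (S.refH v d).Pth v v x := by
    intro x hx
    refine Pth.ofG (S := S.refH v d) (v := v) ?_
    rw [hGs, if_pos rfl]
    exact hx
  have hG : ∀ x ∈ S.G v, (S.refH v d).Pth v v x := by
    intro x hx
    rw [d.hn.sup] at hx
    refine Subgroup.closure_induction (G := Γ) (k := (d.A : Set Γ) ∪ {d.s})
      (p := fun x _ => (S.refH v d).Pth v v x) ?_ ?_ ?_ ?_
      (by rw [Subgroup.closure_union, Subgroup.closure_eq, ← Subgroup.zpowers_eq_closure]; exact hx)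
    · rintro x (hx | hx)
      · exact hA x hx
      · rw [Set.mem_singleton_iff.1 hx]
        exact hs
    · exact Pth.one _
    · exact fun x y _ _ h1 h2 => h1.trans h2
    · exact fun x _ h1 => h1.symm
  have hend : ∀ (w : S.V) (k : Γ), k ∈ S.G v → (w ≠ v → k = 1) → (S.refH v d).Pth w w k := by
    intro w k hk hk1
    by_cases hw : w = v
    · subst hw
      exact hG k hk
    · rw [hk1 hw]
      exact Pth.one _
  have hedge : ∀ e, (S.refH v d).Pth (S.a e) (S.b e) (S.s e) := by
    intro e
    have h1 := hend (S.a e) (d.ka e) (d.ka_mem e) (d.ka_one e)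
    have h2 := hend (S.b e) (d.kb e) (d.kb_mem e) (d.kb_one e)
    have h3 := (h1.trans (Pth.ofE (S := S.refH v d) (some e))).trans h2.symm
    have h4 : d.ka e * (S.refH v d).s (some e) * (d.kb e)⁻¹ = S.s e := by
      change d.ka e * ((d.ka e)⁻¹ * S.s e * d.kb e) * (d.kb e)⁻¹ = S.s e
      group
    rw [h4] at h3
    exact h3
  have hold : ∀ (u w : S.V) (g : Γ), S.Pth u w g → (S.refH v d).Pth u w g := by
    intro u w g hp
    induction hp with
    | one => exact Pth.one _
    | @grp w y x _ hx ih =>
      by_cases hw : w = v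
      · subst hw
        exact ih.trans (hG x hx)
      · refine Pth.grp ih ?_
        rw [hGs, if_neg hw]
        exact hx
    | fwd e _ ih => exact ih.trans (hedge e)
    | bwd e _ ih => exact ih.trans (hedge e).symm
  exact hold u w g (hS.gen u w g)

theorem refH_up (hS : S.UP) {v : S.V} (d : S.RefH v) : (S.refH v d).UP := by
  refine ⟨refH_gen hS d, ?_⟩
  intro R _ _ F'
  have hGs : ∀ w : S.V, (S.refH v d).G w = if w = v then d.A else S.G w := fun w => rfl
  have hA : MulOn d.A (F'.r v) := by
    have h := F'.mulOn v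
    rw [hGs, if_pos rfl] at h
    exact h
  have hD : ∀ x ∈ d.D, F'.r v x = F'.t none * F'.r v (d.s⁻¹ * x * d.s) * (F'.t none)⁻¹ :=
    fun x hx => F'.cm none x hx
  obtain ⟨q, hq, hqA, hqs⟩ := d.hn.ext R _ _ hA hD
  have hAv : d.A ≤ S.G v := by rw [d.hn.sup]; exact le_sup_left
  have hsv : d.s ∈ S.G v := by
    rw [d.hn.sup]
    exact (le_sup_right : _ ≤ d.A ⊔ Subgroup.zpowers d.s) (Subgroup.mem_zpowers _)
  let fr : S.V → Γ → SpecialLinearGroup (Fin 2) R := fun w => if w = v then q else F'.r w
  have hfr : ∀ w, MulOn (S.G w) (fr w) := by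
    intro w
    by_cases hw : w = v
    · subst hw
      simp only [fr, if_true]
      exact hq
    · have h := F'.mulOn w
      rw [hGs, if_neg hw] at h
      simp only [fr, hw, if_false]
      exact h
  have hend : ∀ (w : S.V) (k : Γ), k ∈ S.G v → (w ≠ v → k = 1) →
      ∃ α : SpecialLinearGroup (Fin 2) R,
        (∀ x ∈ S.G w, (w = v → k⁻¹ * x * k ∈ d.A) →
          F'.r w (k⁻¹ * x * k) = α⁻¹ * fr w x * α) ∧
        ∀ (r : Γ →* SpecialLinearGroup (Fin 2) R) (g : S.V → SpecialLinearGroup (Fin 2) R),
          (∀ w, ∀ x ∈ S.G w, fr w x = (g w)⁻¹ * r x * g w) → g w = (r k)⁻¹ * g w * α := by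
    intro w k hk hk1
    by_cases hw : w = v
    · subst hw
      refine ⟨q k, ?_, ?_⟩
      · intro x hx hx'
        have h2 := hqA _ (hx' rfl)
        rw [hq.conj hx hk] at h2
        simp only [fr, if_true]
        exact h2.symm
      · intro r g hg
        have h1 := hg w k hk
        simp only [fr, if_true] at h1
        rw [h1]
        group
    · refine ⟨1, ?_, ?_⟩
      · intro x hx _
        simp only [hw, if_false, hk1 hw, fr]
        simp
      · intro r g hg
        rw [hk1 hw]
        simp
  choose α hα1 hα2 using fun e => hend (S.a e) (d.ka e) (d.ka_mem e) (d.ka_one e)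
  choose β hβ1 hβ2 using fun e => hend (S.b e) (d.kb e) (d.kb_mem e) (d.kb_one e)
  let F : Fam S (SpecialLinearGroup (Fin 2) R) :=
    { r := fr
      t := fun e => α e * F'.t (some e) * (β e)⁻¹
      mul := hfr
      cm := by
        intro e c hc
        have hc1 := S.Ca e hc
        have hc2 := S.Cb e c hc
        have hc' : (d.ka e)⁻¹ * c * d.ka e ∈ (S.refH v d).C (some e) := by
          change d.ka e * ((d.ka e)⁻¹ * c * d.ka e) * (d.ka e)⁻¹ ∈ S.C e
          have h : d.ka e * ((d.ka e)⁻¹ * c * d.ka e) * (d.ka e)⁻¹ = c := by group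
          rw [h]
          exact hc
        have h1 := F'.cm (some e) _ hc'
        have h2 : ((S.refH v d).s (some e))⁻¹ * ((d.ka e)⁻¹ * c * d.ka e) *
            (S.refH v d).s (some e) = (d.kb e)⁻¹ * ((S.s e)⁻¹ * c * S.s e) * d.kb e := by
          change ((d.ka e)⁻¹ * S.s e * d.kb e)⁻¹ * ((d.ka e)⁻¹ * c * d.ka e) *
            ((d.ka e)⁻¹ * S.s e * d.kb e) = _
          group
        rw [h2] at h1
        have h5 : F'.r ((S.refH v d).a (some e)) ((d.ka e)⁻¹ * c * d.ka e) =
            (α e)⁻¹ * fr (S.a e) c * α e := hα1 e c hc1 (fun h => d.ca e h c hc)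
        have h6 : F'.r ((S.refH v d).b (some e)) ((d.kb e)⁻¹ * ((S.s e)⁻¹ * c * S.s e) * d.kb e) =
            (β e)⁻¹ * fr (S.b e) ((S.s e)⁻¹ * c * S.s e) * β e :=
          hβ1 e _ hc2 (fun h => d.cb e h c hc)
        rw [h5, h6] at h1
        have h7 : fr (S.a e) c = α e * ((α e)⁻¹ * fr (S.a e) c * α e) * (α e)⁻¹ := by group
        rw [h7, h1]
        group }
  obtain ⟨r, g, hF⟩ := hS.ext R F
  have hv : ∀ w, ∀ x ∈ S.G w, fr w x = (g w)⁻¹ * r x * g w := hF.vtx
  refine ⟨r, g, ?_, ?_⟩
  · intro (w : S.V) x hx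
    by_cases hw : w = v
    · subst hw
      have hx' : x ∈ d.A := by
        have h := hx
        rw [hGs, if_pos rfl] at h
        exact h
      have h2 := hv w x (hAv hx')
      simp only [fr, if_true] at h2
      rw [← hqA x hx', h2]
    · have hx' : x ∈ S.G w := by
        have h := hx
        rw [hGs, if_neg hw] at h
        exact h
      have h2 := hv w x hx'
      simp only [fr, hw, if_false] at h2
      exact h2
  · intro e
    cases e with
    | none =>
      change F'.t none = (g v)⁻¹ * r d.s * g v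
      have h1 := hv v d.s hsv
      simp only [fr, if_true] at h1
      rw [← h1, hqs]
    | some e =>
      have h1 := hα2 e r g hv
      have h2 := hβ2 e r g hv
      have h3 := hF.edg e
      change α e * F'.t (some e) * (β e)⁻¹ = (g (S.a e))⁻¹ * r (S.s e) * g (S.b e) at h3
      change F'.t (some e) = (g (S.a e))⁻¹ * r ((d.ka e)⁻¹ * S.s e * d.kb e) * g (S.b e)
      rw [h1, h2]
      have h4 : F'.t (some e) = (α e)⁻¹ * (α e * F'.t (some e) * (β e)⁻¹) * β e := by group
      rw [h4, h3]
      simp only [map_mul, map_inv]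
      group

end GG

end Pool.Agent.FrS
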